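import Mathlib

set_option autoImplicit false

/-!
# Twist maps: compactly supported volume preserving maps built from rotations
-/

open Set Filter MeasureTheory
open scoped Topology RealInnerProductSpace NNReal ENNReal

namespace Pool.Agent.Lib_helper19.Ent

variable {E : Type*} [NormedAddCommGroup E] [InnerProductSpace ℝ E]

/-- Orthogonal projection to the plane of the orthonormal pair `e, f`. -/
noncomputable def pl (e f : E) : E →L[ℝ] E :=
  (innerSL ℝ e).smulRight e + (innerSL ℝ f).smulRight f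

/-- Quarter turn in the plane of `e, f`, zero on the orthogonal complement. -/
noncomputable def qt (e f : E) : E →L[ℝ] E :=
  (innerSL ℝ e).smulRight f - (innerSL ℝ f).smulRight e

/-- Rotation by the angle `s` in the plane of `e, f`. -/
noncomputable def rot (e f : E) (s : ℝ) : E →L[ℝ] E :=
  ContinuousLinearMap.id ℝ E + (Real.cos s - 1) • pl e f + Real.sin s • qt e f

@[simp] lemma pl_apply (e f u : E) : pl e f u = ⟪e, u⟫ • e + ⟪f, u⟫ • f := rfl

@[simp] lemma qt_apply (e f u : E) : qt e f u = ⟪e, u⟫ • f - ⟪f, u⟫ • e := rfl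

lemma rot_apply (e f : E) (s : ℝ) (u : E) :
    rot e f s u = u + (Real.cos s - 1) • pl e f u + Real.sin s • qt e f u := rfl

variable {e f : E}

/-- The pair is orthonormal. -/
structure OP (e f : E) : Prop where
  he : ⟪e, e⟫ = 1
  hf : ⟪f, f⟫ = 1
  hef : ⟪e, f⟫ = 0

lemma OP.hfe (h : OP e f) : ⟪f, e⟫ = 0 := by rw [real_inner_comm]; exact h.hef

lemma pl_pl (h : OP e f) (u : E) : pl e f (pl e f u) = pl e f u := by
  simp only [pl_apply, inner_add_right, inner_smul_right, h.he, h.hf, h.hef, h.hfe]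
  simp

lemma pl_qt (h : OP e f) (u : E) : pl e f (qt e f u) = qt e f u := by
  simp only [pl_apply, qt_apply, inner_sub_right, inner_smul_right, h.he, h.hf, h.hef, h.hfe]
  simp
  abel

lemma qt_pl (h : OP e f) (u : E) : qt e f (pl e f u) = qt e f u := by
  simp only [pl_apply, qt_apply, inner_add_right, inner_smul_right, h.he, h.hf, h.hef, h.hfe]
  simp

lemma qt_qt (h : OP e f) (u : E) : qt e f (qt e f u) = -pl e f u := by
  simp only [pl_apply, qt_apply, inner_sub_right, inner_smul_right, h.he, h.hf, h.hef, h.hfe]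
  simp
  abel

lemma rot_add (h : OP e f) (s t : ℝ) (u : E) : rot e f s (rot e f t u) = rot e f (s + t) u := by
  rw [rot_apply, rot_apply, rot_apply]
  simp only [map_add, map_smul, pl_pl h, pl_qt h, qt_pl h, qt_qt h, Real.cos_add, Real.sin_add]
  module

@[simp] lemma rot_zero (u : E) : rot e f 0 u = u := by simp [rot_apply]

lemma rot_neg_rot (h : OP e f) (s : ℝ) (u : E) : rot e f (-s) (rot e f s u) = u := by
  rw [rot_add h, neg_add_cancel, rot_zero]

lemma rot_rot_neg (h : OP e f) (s : ℝ) (u : E) : rot e f s (rot e f (-s) u) = u := by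
  rw [rot_add h, add_neg_cancel, rot_zero]

lemma inner_rot_rot (h : OP e f) (s : ℝ) (u : E) : ⟪rot e f s u, rot e f s u⟫ = ⟪u, u⟫ := by
  have h1 := Real.sin_sq_add_cos_sq s
  simp only [rot_apply, pl_apply, qt_apply, inner_add_left, inner_add_right, inner_smul_left,
    inner_smul_right, inner_sub_left, inner_sub_right, h.he, h.hf, h.hef, h.hfe,
    RCLike.conj_to_real]
  rw [real_inner_comm e u, real_inner_comm f u]
  linear_combination (⟪e, u⟫ ^ 2 + ⟪f, u⟫ ^ 2) * h1

lemma norm_rot (h : OP e f) (s : ℝ) (u : E) : ‖rot e f s u‖ = ‖u‖ := by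
  rw [← sq_eq_sq₀ (norm_nonneg _) (norm_nonneg _), ← real_inner_self_eq_norm_sq,
    ← real_inner_self_eq_norm_sq, inner_rot_rot h]

lemma inner_qt_self (u : E) : ⟪u, qt e f u⟫ = 0 := by
  rw [qt_apply, inner_sub_right, inner_smul_right, inner_smul_right, real_inner_comm u e,
    real_inner_comm u f]
  ring

/-- The twist map with angle `θ (‖u‖²)`. -/
noncomputable def tw (e f : E) (θ : ℝ → ℝ) (u : E) : E := rot e f (θ (‖u‖ ^ 2)) u

lemma norm_tw (h : OP e f) (θ : ℝ → ℝ) (u : E) : ‖tw e f θ u‖ = ‖u‖ := norm_rot h _ _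

lemma tw_neg_tw (h : OP e f) (θ : ℝ → ℝ) (u : E) : tw e f (fun s => -θ s) (tw e f θ u) = u := by
  unfold tw
  rw [norm_rot h, rot_neg_rot h]

lemma tw_tw_neg (h : OP e f) (θ : ℝ → ℝ) (u : E) : tw e f θ (tw e f (fun s => -θ s) u) = u := by
  unfold tw
  rw [norm_rot h, rot_rot_neg h]

lemma hasFDerivAt_tw (h : OP e f) {θ : ℝ → ℝ} {u : E} {θ' : ℝ}
    (hθ : HasDerivAt θ θ' (‖u‖ ^ 2)) :
    HasFDerivAt (tw e f θ) ((rot e f (θ (‖u‖ ^ 2))).comp
      (ContinuousLinearMap.id ℝ E + (2 * θ') • (innerSL ℝ u).smulRight (qt e f u))) u := by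
  have h1 : HasFDerivAt (fun u : E => θ (‖u‖ ^ 2)) (θ' • (2 • innerSL ℝ u)) u :=
    hθ.comp_hasFDerivAt u (hasStrictFDerivAt_norm_sq u).hasFDerivAt
  have h2 : HasFDerivAt (fun u : E => Real.cos (θ (‖u‖ ^ 2)) - 1)
      (-Real.sin (θ (‖u‖ ^ 2)) • (θ' • (2 • innerSL ℝ u))) u := h1.cos.sub_const 1
  have h3 : HasFDerivAt (fun u : E => Real.sin (θ (‖u‖ ^ 2)))
      (Real.cos (θ (‖u‖ ^ 2)) • (θ' • (2 • innerSL ℝ u))) u := h1.sin
  have h4 := ((hasFDerivAt_id (𝕜 := ℝ) u).add (h2.smul (pl e f).hasFDerivAt)).add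
    (h3.smul (qt e f).hasFDerivAt)
  have h5 : HasFDerivAt (tw e f θ) _ u := h4
  convert! h5 using 1
  ext w
  simp only [ContinuousLinearMap.comp_apply, _root_.add_apply,
    ContinuousLinearMap.id_apply, _root_.smul_apply,
    ContinuousLinearMap.smulRight_apply, innerSL_apply_apply, rot_apply, map_add, map_smul, pl_qt h,
    qt_qt h, nsmul_eq_mul, smul_eq_mul]
  push_cast
  module

section Fin

variable [FiniteDimensional ℝ E] [MeasurableSpace E] [BorelSpace E]

lemma abs_det_rot (h : OP e f) (s : ℝ) : |(rot e f s).det| = 1 := by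
  have h1 := Measure.addHaar_image_continuousLinearMap (volume : Measure E) (rot e f s)
    (Metric.ball 0 1)
  have h2 : rot e f s '' Metric.ball 0 1 = Metric.ball 0 1 := by
    ext u
    simp only [mem_image, Metric.mem_ball, dist_zero_right]
    constructor
    · rintro ⟨v, hv, rfl⟩
      rwa [norm_rot h]
    · intro hu
      exact ⟨rot e f (-s) u, by rwa [norm_rot h], rot_rot_neg h s u⟩
  rw [h2] at h1
  have h3 : volume (Metric.ball (0 : E) 1) ≠ 0 := (Metric.measure_ball_pos _ _ one_pos).ne'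
  have h4 : volume (Metric.ball (0 : E) 1) ≠ ⊤ := measure_ball_lt_top.ne
  have h5 : ENNReal.ofReal |(rot e f s).det| = 1 := by
    have h6 : 1 * volume (Metric.ball (0 : E) 1) =
        ENNReal.ofReal |(rot e f s).det| * volume (Metric.ball (0 : E) 1) := by rwa [one_mul]
    exact ((ENNReal.mul_left_inj h3 h4).mp h6).symm
  rw [← ENNReal.ofReal_one, ENNReal.ofReal_eq_ofReal_iff (abs_nonneg _) zero_le_one] at h5
  exact h5

lemma abs_det_tw (h : OP e f) (s c : ℝ) (u : E) :
    |((rot e f s).comp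
      (ContinuousLinearMap.id ℝ E + c • (innerSL ℝ u).smulRight (qt e f u))).det| = 1 := by
  have h1 : (ContinuousLinearMap.id ℝ E + c • (innerSL ℝ u).smulRight (qt e f u)).det = 1 := by
    have h2 : ((ContinuousLinearMap.id ℝ E + c • (innerSL ℝ u).smulRight (qt e f u) :
        E →L[ℝ] E) : E →ₗ[ℝ] E) =
        LinearMap.transvection ((c • innerSL ℝ u : E →L[ℝ] ℝ) : E →ₗ[ℝ] ℝ) (qt e f u) := by
      ext w
      simp [LinearMap.transvection.apply, smul_smul]
    unfold ContinuousLinearMap.det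
    rw [h2, LinearMap.transvection.det]
    have h3 := inner_qt_self (e := e) (f := f) u
    simp only [ContinuousLinearMap.coe_coe, _root_.smul_apply, innerSL_apply_apply]
    rw [h3]
    simp
  have h4 : ((rot e f s).comp
      (ContinuousLinearMap.id ℝ E + c • (innerSL ℝ u).smulRight (qt e f u))).det =
      (rot e f s).det *
        (ContinuousLinearMap.id ℝ E + c • (innerSL ℝ u).smulRight (qt e f u)).det := by
    unfold ContinuousLinearMap.det
    exact LinearMap.det_comp _ _
  rw [h4, h1, mul_one, abs_det_rot h]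

/-- A differentiable bijection with Jacobian determinant `±1` preserves Lebesgue measure. -/
lemma measurePreserving_of_det {F : E → E} (hF : Function.Bijective F) (hm : Measurable F)
    {F' : E → E →L[ℝ] E} (hd : ∀ u, HasFDerivAt F (F' u) u) (hdet : ∀ u, |(F' u).det| = 1) :
    MeasurePreserving F (volume : Measure E) volume := by
  refine ⟨hm, ?_⟩
  have h1 := map_withDensity_abs_det_fderiv_eq_addHaar (volume : Measure E) (s := univ)
    MeasurableSet.univ.nullMeasurableSet (fun x _ => (hd x).hasFDerivWithinAt)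
    hF.injective.injOn
  rw [image_univ, hF.surjective.range_eq, Measure.restrict_univ] at h1
  have h2 : (fun x => ENNReal.ofReal |(F' x).det|) = fun _ => (1 : ℝ≥0∞) := by
    ext x
    rw [hdet]
    simp
  rw [h2] at h1
  simpa using! h1

omit [FiniteDimensional ℝ E] [MeasurableSpace E] [BorelSpace E] in
lemma contDiff_tw {θ : ℝ → ℝ} {n : ℕ∞} (hθ : ContDiff ℝ n θ) : ContDiff ℝ n (tw e f θ) := by
  have h1 : tw e f θ = fun u => u + (Real.cos (θ (‖u‖ ^ 2)) - 1) • pl e f u +
      Real.sin (θ (‖u‖ ^ 2)) • qt e f u := rfl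
  rw [h1]
  have h2 : ContDiff ℝ n (fun u : E => θ (‖u‖ ^ 2)) := hθ.comp (contDiff_norm_sq ℝ)
  have h3 : ContDiff ℝ n (fun u : E => pl e f u) := (pl e f).contDiff
  have h4 : ContDiff ℝ n (fun u : E => qt e f u) := (qt e f).contDiff
  exact (contDiff_id.add (((h2.cos).sub contDiff_const).smul h3)).add (h2.sin.smul h4)

/-- The twist homeomorphism. -/
noncomputable def twHomeo (h : OP e f) {θ : ℝ → ℝ} (hθ : Continuous θ) : E ≃ₜ E where
  toFun := tw e f θ
  invFun := tw e f (fun s => -θ s)
  left_inv := tw_neg_tw h θ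
  right_inv := tw_tw_neg h θ
  continuous_toFun := (contDiff_tw (n := 0) (contDiff_zero.mpr hθ)).continuous
  continuous_invFun := (contDiff_tw (n := 0) (contDiff_zero.mpr hθ.neg)).continuous

omit [FiniteDimensional ℝ E] [MeasurableSpace E] [BorelSpace E] in
@[simp] lemma twHomeo_apply (h : OP e f) {θ : ℝ → ℝ} (hθ : Continuous θ) (u : E) :
    twHomeo h hθ u = tw e f θ u := rfl

omit [FiniteDimensional ℝ E] [MeasurableSpace E] [BorelSpace E] in
@[simp] lemma twHomeo_symm_apply (h : OP e f) {θ : ℝ → ℝ} (hθ : Continuous θ) (u : E) :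
    (twHomeo h hθ).symm u = tw e f (fun s => -θ s) u := rfl

lemma measurePreserving_tw (h : OP e f) {θ : ℝ → ℝ} (hθ : ContDiff ℝ 1 θ) :
    MeasurePreserving (tw e f θ) (volume : Measure E) volume := by
  apply measurePreserving_of_det (twHomeo h hθ.continuous).bijective
    (twHomeo h hθ.continuous).continuous.measurable
    (F' := fun u => (rot e f (θ (‖u‖ ^ 2))).comp
      (ContinuousLinearMap.id ℝ E + (2 * deriv θ (‖u‖ ^ 2)) •
        (innerSL ℝ u).smulRight (qt e f u)))
  · intro u
    exact hasFDerivAt_tw h (hθ.differentiable one_ne_zero _).hasDerivAt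
  · intro u
    exact abs_det_tw h _ _ u

omit [MeasurableSpace E] [BorelSpace E] in
/-- A twist with angle a multiple of `2π` near infinity is Lipschitz. -/
lemma exists_lipschitz_tw {θ : ℝ → ℝ} (hθ : ContDiff ℝ 1 θ) {R : ℝ} {k : ℤ}
    (hR : ∀ s, R ≤ s → θ s = k * (2 * Real.pi)) : ∃ K : ℝ≥0, LipschitzWith K (tw e f θ) := by
  have hsupp : HasCompactSupport (fun u => tw e f θ u - u) := by
    apply HasCompactSupport.intro (isCompact_closedBall (0 : E) (max R 1))
    intro u hu
    rw [Metric.mem_closedBall, dist_zero_right, not_le] at hu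
    have h1 : R ≤ ‖u‖ ^ 2 := by
      have h2 : 1 < ‖u‖ := lt_of_le_of_lt (le_max_right _ _) hu
      have h3 : R < ‖u‖ := lt_of_le_of_lt (le_max_left _ _) hu
      nlinarith
    unfold tw
    rw [hR _ h1, rot_apply, Real.cos_int_mul_two_pi]
    have : Real.sin (k * (2 * Real.pi)) = 0 := by
      have := Real.sin_int_mul_pi (k * 2)
      push_cast at this
      rw [← this]
      congr 1
      ring
    rw [this]
    simp
  have hc : ContDiff ℝ 1 (fun u => tw e f θ u - u) :=
    (contDiff_tw (n := 1) hθ).sub contDiff_id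
  obtain ⟨K, hK⟩ := hc.lipschitzWith_of_hasCompactSupport hsupp one_ne_zero
  refine ⟨K + 1, ?_⟩
  have := hK.add (LipschitzWith.id)
  simpa using! this

end Fin

end Pool.Agent.Lib_helper19.Ent
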