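import Mathlib
import Pool.Agent.Lib_helper19.Ent.Twist

set_option autoImplicit false

/-!
# Germs of compactly supported volume preserving bi-Lipschitz homeomorphisms
-/

open Set Filter MeasureTheory
open scoped Topology RealInnerProductSpace NNReal ENNReal

namespace Pool.Agent.Lib_helper19.Ent

variable {E : Type*} [NormedAddCommGroup E] [InnerProductSpace ℝ E] [FiniteDimensional ℝ E]
  [MeasurableSpace E] [BorelSpace E]

/-- A volume preserving bi-Lipschitz homeomorphism which is the identity outside a ball. -/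
structure CV (φ : E ≃ₜ E) (R : ℝ) : Prop where
  lip : ∃ K : ℝ≥0, LipschitzWith K φ
  lip_symm : ∃ K : ℝ≥0, LipschitzWith K φ.symm
  mp : MeasurePreserving φ (volume : Measure E) volume
  id_out : ∀ u, R ≤ ‖u‖ → φ u = u

lemma CV.mono {φ : E ≃ₜ E} {R R' : ℝ} (h : CV φ R) (hR : R ≤ R') : CV φ R' :=
  ⟨h.lip, h.lip_symm, h.mp, fun u hu => h.id_out u (hR.trans hu)⟩

lemma CV.refl (R : ℝ) : CV (Homeomorph.refl E) R :=
  ⟨⟨1, LipschitzWith.id⟩, ⟨1, LipschitzWith.id⟩, MeasurePreserving.id _, fun _ _ => rfl⟩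

lemma CV.symm {φ : E ≃ₜ E} {R : ℝ} (h : CV φ R) : CV φ.symm R := by
  refine ⟨h.lip_symm, by simpa using h.lip, ?_, ?_⟩
  · exact MeasurePreserving.symm φ.toMeasurableEquiv h.mp
  · intro u hu
    rw [Homeomorph.symm_apply_eq, h.id_out u hu]

lemma CV.trans {φ ψ : E ≃ₜ E} {R R' : ℝ} (h : CV φ R) (h' : CV ψ R') :
    CV (φ.trans ψ) (max R R') := by
  obtain ⟨K, hK⟩ := h.lip
  obtain ⟨K', hK'⟩ := h'.lip
  obtain ⟨C, hC⟩ := h.lip_symm
  obtain ⟨C', hC'⟩ := h'.lip_symm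
  refine ⟨⟨K' * K, hK'.comp hK⟩, ⟨C * C', hC.comp hC'⟩, h'.mp.comp h.mp, ?_⟩
  intro u hu
  rw [Homeomorph.trans_apply, h.id_out u ((le_max_left _ _).trans hu),
    h'.id_out u ((le_max_right _ _).trans hu)]

/-- Conjugation by a linear map. -/
noncomputable def cj (M : E ≃L[ℝ] E) (φ : E ≃ₜ E) : E ≃ₜ E :=
  M.symm.toHomeomorph.trans (φ.trans M.toHomeomorph)

omit [FiniteDimensional ℝ E] [MeasurableSpace E] [BorelSpace E] in
@[simp] lemma cj_apply (M : E ≃L[ℝ] E) (φ : E ≃ₜ E) (u : E) : cj M φ u = M (φ (M.symm u)) := rfl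

lemma map_continuousLinearEquiv (M : E ≃L[ℝ] E) :
    ∃ c : ℝ≥0∞, Measure.map M (volume : Measure E) = c • volume := by
  have h1 : LinearMap.det (M : E →ₗ[ℝ] E) ≠ 0 := by
    have := LinearEquiv.isUnit_det' M.toLinearEquiv
    exact this.ne_zero
  exact ⟨_, Measure.map_linearMap_addHaar_eq_smul_addHaar volume h1⟩

lemma CV.cj {φ : E ≃ₜ E} {R : ℝ} (h : CV φ R) (M : E ≃L[ℝ] E) :
    CV (cj M φ) (‖(M : E →L[ℝ] E)‖ * |R| + 1) := by
  obtain ⟨K, hK⟩ := h.lip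
  obtain ⟨C, hC⟩ := h.lip_symm
  refine ⟨⟨_, M.lipschitz.comp (hK.comp M.symm.lipschitz)⟩,
    ⟨_, M.lipschitz.comp (hC.comp M.symm.lipschitz)⟩, ⟨?_, ?_⟩, ?_⟩
  · exact (Homeomorph.continuous _).measurable
  · obtain ⟨c, hc⟩ := map_continuousLinearEquiv M.symm
    have m1 : Measurable (M : E → E) := M.continuous.measurable
    have m2 : Measurable (M.symm : E → E) := M.symm.continuous.measurable
    have m3 : Measurable (φ : E → E) := φ.continuous.measurable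
    have e1 : (⇑(Pool.Agent.Lib_helper19.Ent.cj M φ) : E → E) = M ∘ φ ∘ M.symm := rfl
    rw [e1, ← Measure.map_map m1 (m3.comp m2), ← Measure.map_map m3 m2, hc, Measure.map_smul,
      h.mp.map_eq, ← hc, Measure.map_map m1 m2]
    have e2 : (M : E → E) ∘ M.symm = id := by
      ext u
      simp
    rw [e2, Measure.map_id]
  · intro u hu
    rw [cj_apply, h.id_out, M.apply_symm_apply]
    by_contra hcon
    push Not at hcon
    have h1 : ‖u‖ ≤ ‖(M : E →L[ℝ] E)‖ * ‖M.symm u‖ := by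
      have := (M : E →L[ℝ] E).le_opNorm (M.symm u)
      simpa using this
    have h2 : ‖(M : E →L[ℝ] E)‖ * ‖M.symm u‖ ≤ ‖(M : E →L[ℝ] E)‖ * |R| :=
      mul_le_mul_of_nonneg_left (hcon.le.trans (le_abs_self R)) (norm_nonneg _)
    linarith

/-- `L` is the germ at `0` of a compactly supported volume preserving bi-Lipschitz
homeomorphism. -/
def Loc (L : E ≃L[ℝ] E) : Prop :=
  ∀ r : ℝ, 0 < r → ∃ (φ : E ≃ₜ E) (R : ℝ), CV φ R ∧ ∀ u, ‖u‖ ≤ r → φ u = L u

/-- Multiplication by a nonzero scalar. -/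
noncomputable def scl (r : ℝ) (hr : r ≠ 0) : E ≃L[ℝ] E :=
  ContinuousLinearEquiv.smulLeft (Units.mk0 r hr)

omit [FiniteDimensional ℝ E] [MeasurableSpace E] [BorelSpace E] in
@[simp] lemma scl_apply (r : ℝ) (hr : r ≠ 0) (u : E) : scl r hr u = r • u := rfl

omit [FiniteDimensional ℝ E] [MeasurableSpace E] [BorelSpace E] in
@[simp] lemma scl_symm_apply (r : ℝ) (hr : r ≠ 0) (u : E) : (scl r hr).symm u = r⁻¹ • u := rfl

lemma Loc.of_one {L : E ≃L[ℝ] E} {φ : E ≃ₜ E} {R r : ℝ} (hr : 0 < r) (h : CV φ R)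
    (hφ : ∀ u, ‖u‖ ≤ r → φ u = L u) : Loc L := by
  intro ρ hρ
  refine ⟨_, _, h.cj (scl (ρ / r) (by positivity)), ?_⟩
  intro u hu
  rw [cj_apply, hφ]
  · rw [scl_symm_apply, scl_apply, map_smul, smul_smul, mul_inv_cancel₀ (by positivity), one_smul]
  · rw [scl_symm_apply, norm_smul, norm_inv, Real.norm_of_nonneg (by positivity), inv_mul_le_iff₀
      (by positivity)]
    field_simp
    exact hu

lemma Loc.one : Loc (1 : E ≃L[ℝ] E) :=
  Loc.of_one one_pos (CV.refl 0) (fun _ _ => rfl)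

lemma Loc.mul {L L' : E ≃L[ℝ] E} (h : Loc L) (h' : Loc L') : Loc (L * L') := by
  obtain ⟨φ', R', hφ', e'⟩ := h' 1 one_pos
  obtain ⟨φ, R, hφ, e⟩ := h (‖(L' : E →L[ℝ] E)‖ + 1) (by positivity)
  apply Loc.of_one one_pos (hφ'.trans hφ)
  intro u hu
  rw [Homeomorph.trans_apply, e' u hu, e]
  · rfl
  · have h1 : ‖L' u‖ ≤ ‖(L' : E →L[ℝ] E)‖ * ‖u‖ := (L' : E →L[ℝ] E).le_opNorm u
    have h2 : ‖(L' : E →L[ℝ] E)‖ * ‖u‖ ≤ ‖(L' : E →L[ℝ] E)‖ * 1 :=
      mul_le_mul_of_nonneg_left hu (norm_nonneg _)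
    linarith

lemma Loc.inv {L : E ≃L[ℝ] E} (h : Loc L) : Loc L⁻¹ := by
  obtain ⟨φ, R, hφ, e⟩ := h (‖(L.symm : E →L[ℝ] E)‖ + 1) (by positivity)
  apply Loc.of_one one_pos hφ.symm
  intro u hu
  rw [Homeomorph.symm_apply_eq]
  have h1 : ‖L.symm u‖ ≤ ‖(L.symm : E →L[ℝ] E)‖ + 1 := by
    have h1 : ‖L.symm u‖ ≤ ‖(L.symm : E →L[ℝ] E)‖ * ‖u‖ := (L.symm : E →L[ℝ] E).le_opNorm u
    have h2 : ‖(L.symm : E →L[ℝ] E)‖ * ‖u‖ ≤ ‖(L.symm : E →L[ℝ] E)‖ * 1 :=
      mul_le_mul_of_nonneg_left hu (norm_nonneg _)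
    linarith
  have h2 := e _ h1
  change u = φ (L.symm u)
  rw [h2, L.apply_symm_apply]

lemma Loc.conj {L : E ≃L[ℝ] E} (h : Loc L) (M : E ≃L[ℝ] E) : Loc (M * L * M⁻¹) := by
  obtain ⟨φ, R, hφ, e⟩ := h (‖(M.symm : E →L[ℝ] E)‖ + 1) (by positivity)
  apply Loc.of_one one_pos (hφ.cj M)
  intro u hu
  have h1 : ‖M.symm u‖ ≤ ‖(M.symm : E →L[ℝ] E)‖ + 1 := by
    have h1 : ‖M.symm u‖ ≤ ‖(M.symm : E →L[ℝ] E)‖ * ‖u‖ := (M.symm : E →L[ℝ] E).le_opNorm u
    have h2 : ‖(M.symm : E →L[ℝ] E)‖ * ‖u‖ ≤ ‖(M.symm : E →L[ℝ] E)‖ * 1 :=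
      mul_le_mul_of_nonneg_left hu (norm_nonneg _)
    linarith
  rw [cj_apply, e _ h1]
  rfl

/-- Rotations as linear equivalences. -/
noncomputable def rotE {e f : E} (h : OP e f) (s : ℝ) : E ≃L[ℝ] E :=
  ContinuousLinearEquiv.equivOfInverse (rot e f s) (rot e f (-s)) (rot_neg_rot h s)
    (rot_rot_neg h s)

omit [FiniteDimensional ℝ E] [MeasurableSpace E] [BorelSpace E] in
@[simp] lemma rotE_apply {e f : E} (h : OP e f) (s : ℝ) (u : E) :
    rotE h s u = rot e f s u := rfl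

lemma CV_tw {e f : E} (h : OP e f) {θ : ℝ → ℝ} (hθ : ContDiff ℝ 1 θ) {R : ℝ} (hR0 : 0 ≤ R) {k : ℤ}
    (hR : ∀ s, R ^ 2 ≤ s → θ s = k * (2 * Real.pi)) : CV (twHomeo h hθ.continuous) R := by
  refine ⟨exists_lipschitz_tw hθ hR, ?_, measurePreserving_tw h hθ, ?_⟩
  · have := exists_lipschitz_tw (e := e) (f := f) (θ := fun s => -θ s) hθ.neg (R := R ^ 2)
      (k := -k) (fun s hs => by
        rw [hR s hs]; push_cast; ring)
    exact this
  · intro u hu
    rw [twHomeo_apply, tw, hR _ (by gcongr), rot_apply, Real.cos_int_mul_two_pi]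
    have : Real.sin (k * (2 * Real.pi)) = 0 := by
      have := Real.sin_int_mul_pi (k * 2)
      push_cast at this
      rw [← this]
      congr 1
      ring
    rw [this]
    simp

lemma Loc_rotE {e f : E} (h : OP e f) (s : ℝ) : Loc (rotE h s) := by
  have hθ : ContDiff ℝ 1 (fun x : ℝ => s * (1 - Real.smoothTransition (x - 1))) := by
    have h1 : ContDiff ℝ 1 Real.smoothTransition := Real.smoothTransition.contDiff
    exact contDiff_const.mul (contDiff_const.sub (h1.comp (contDiff_id.sub contDiff_const)))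
  refine Loc.of_one one_pos (CV_tw h hθ (R := 2) (k := 0) (by norm_num) ?_) ?_
  · intro x hx
    rw [Real.smoothTransition.one_of_one_le (by linarith)]
    simp
  · intro u hu
    rw [twHomeo_apply, tw, rotE_apply, Real.smoothTransition.zero_of_nonpos]
    · simp
    · have : ‖u‖ ^ 2 ≤ 1 := by
        have := norm_nonneg u
        nlinarith
      linarith

end Pool.Agent.Lib_helper19.Ent
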