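import Mathlib
import Pool.Agent.Lib_helper19.Ent.Twist
import Pool.Agent.Lib_helper19.Ent.Germ

set_option autoImplicit false

/-!
# Rescaled local maps and the localised half turn
-/

open Set Filter MeasureTheory
open scoped Topology RealInnerProductSpace NNReal ENNReal

namespace Pool.Agent.Lib_helper19.Ent

variable {E : Type*} [NormedAddCommGroup E] [InnerProductSpace ℝ E] [FiniteDimensional ℝ E]
  [MeasurableSpace E] [BorelSpace E]

/-- The affine rescaling `u ↦ a + ρ u`. -/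
noncomputable def aff (a : E) (ρ : ℝ) (hρ : ρ ≠ 0) : E ≃ₜ E :=
  (Homeomorph.smulOfNeZero ρ hρ).trans (Homeomorph.addLeft a)

omit [FiniteDimensional ℝ E] [MeasurableSpace E] [BorelSpace E] in
@[simp] lemma aff_apply (a : E) (ρ : ℝ) (hρ : ρ ≠ 0) (u : E) : aff a ρ hρ u = a + ρ • u := rfl

omit [FiniteDimensional ℝ E] [MeasurableSpace E] [BorelSpace E] in
@[simp] lemma aff_symm_apply (a : E) (ρ : ℝ) (hρ : ρ ≠ 0) (u : E) :
    (aff a ρ hρ).symm u = ρ⁻¹ • (u - a) := by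
  rw [Homeomorph.symm_apply_eq, aff_apply, smul_smul, mul_inv_cancel₀ hρ, one_smul]
  abel

/-- Conjugation by an affine rescaling. -/
noncomputable def tcj (a : E) (ρ : ℝ) (hρ : ρ ≠ 0) (φ : E ≃ₜ E) : E ≃ₜ E :=
  (aff a ρ hρ).symm.trans (φ.trans (aff a ρ hρ))

omit [FiniteDimensional ℝ E] [MeasurableSpace E] [BorelSpace E] in
lemma tcj_apply (a : E) (ρ : ℝ) (hρ : ρ ≠ 0) (φ : E ≃ₜ E) (u : E) :
    tcj a ρ hρ φ u = a + ρ • φ (ρ⁻¹ • (u - a)) := by
  unfold tcj
  rw [Homeomorph.trans_apply, Homeomorph.trans_apply, aff_symm_apply, aff_apply]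

omit [FiniteDimensional ℝ E] [MeasurableSpace E] [BorelSpace E] in
lemma tcj_aff (a : E) (ρ : ℝ) (hρ : ρ ≠ 0) (φ : E ≃ₜ E) (u : E) :
    tcj a ρ hρ φ (a + ρ • u) = a + ρ • φ u := by
  rw [tcj_apply]
  congr 3
  rw [add_sub_cancel_left, smul_smul, inv_mul_cancel₀ hρ, one_smul]

omit [FiniteDimensional ℝ E] [MeasurableSpace E] [BorelSpace E] in
lemma lipschitz_tcj (a : E) {ρ : ℝ} (hρ : ρ ≠ 0) {φ : E ≃ₜ E} {K : ℝ≥0}
    (h : LipschitzWith K φ) : LipschitzWith K (tcj a ρ hρ φ) := by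
  apply LipschitzWith.of_dist_le_mul
  intro u v
  rw [tcj_apply, tcj_apply, dist_add_left, dist_smul₀]
  have h1 := h.dist_le_mul (ρ⁻¹ • (u - a)) (ρ⁻¹ • (v - a))
  rw [dist_smul₀, dist_sub_right, norm_inv] at h1
  have h2 : 0 < ‖ρ‖ := norm_pos_iff.mpr hρ
  calc ‖ρ‖ * dist (φ (ρ⁻¹ • (u - a))) (φ (ρ⁻¹ • (v - a)))
      ≤ ‖ρ‖ * (K * (‖ρ‖⁻¹ * dist u v)) := mul_le_mul_of_nonneg_left h1 h2.le
    _ = K * dist u v := by field_simp

lemma measurePreserving_tcj (a : E) {ρ : ℝ} (hρ : ρ ≠ 0) {φ : E ≃ₜ E}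
    (h : MeasurePreserving φ (volume : Measure E) volume) :
    MeasurePreserving (tcj a ρ hρ φ) (volume : Measure E) volume := by
  refine ⟨(Homeomorph.continuous _).measurable, ?_⟩
  have m1 : Measurable (aff a ρ hρ) := (aff a ρ hρ).continuous.measurable
  have m2 : Measurable (aff a ρ hρ).symm := (aff a ρ hρ).symm.continuous.measurable
  have m3 : Measurable φ := φ.continuous.measurable
  obtain ⟨c, hc⟩ : ∃ c : ℝ≥0∞, Measure.map (aff a ρ hρ).symm (volume : Measure E) =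
      c • volume := by
    have e1 : ((aff a ρ hρ).symm : E → E) = (fun u => ρ⁻¹ • u) ∘ (fun u => u - a) := by
      ext u; simp
    refine ⟨ENNReal.ofReal |((ρ⁻¹) ^ (Module.finrank ℝ E))⁻¹|, ?_⟩
    rw [e1, ← Measure.map_map (measurable_const_smul _) (measurable_sub_const' a),
      (measurePreserving_sub_right (volume : Measure E) a).map_eq]
    exact Measure.map_addHaar_smul volume (inv_ne_zero hρ)
  have e2 : ((tcj a ρ hρ φ : E ≃ₜ E) : E → E) = (aff a ρ hρ) ∘ φ ∘ (aff a ρ hρ).symm := rfl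
  rw [e2, ← Measure.map_map m1 (m3.comp m2), ← Measure.map_map m3 m2, hc, Measure.map_smul,
    h.map_eq, ← hc, Measure.map_map m1 m2]
  have e3 : ((aff a ρ hρ : E ≃ₜ E) : E → E) ∘ (aff a ρ hρ).symm = id := by
    ext u
    exact (aff a ρ hρ).apply_symm_apply u
  rw [e3, Measure.map_id]

omit [FiniteDimensional ℝ E] [MeasurableSpace E] [BorelSpace E] in
lemma tcj_out (a : E) {ρ : ℝ} (hρ : 0 < ρ) {φ : E ≃ₜ E} {R : ℝ}
    (h : ∀ u, R ≤ ‖u‖ → φ u = u) (u : E) (hu : ρ * R ≤ ‖u - a‖) : tcj a ρ hρ.ne' φ u = u := by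
  rw [tcj_apply, h]
  · rw [smul_smul, mul_inv_cancel₀ hρ.ne', one_smul]
    abel
  · rw [norm_smul, norm_inv, Real.norm_of_nonneg hρ.le, le_inv_mul_iff₀ hρ]
    exact hu

/-! ### A uniform Lipschitz bound for twists -/

omit [FiniteDimensional ℝ E] [MeasurableSpace E] [BorelSpace E] in
lemma norm_pl_le {e f : E} (h : OP e f) (u : E) : ‖pl e f u‖ ≤ ‖u‖ := by
  have h1 := norm_rot h Real.pi u
  rw [rot_apply, Real.cos_pi, Real.sin_pi, zero_smul, add_zero] at h1
  have h2 : (2 : ℝ) • pl e f u = u - (u + (-1 - 1 : ℝ) • pl e f u) := by module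
  have h3 : 2 * ‖pl e f u‖ ≤ 2 * ‖u‖ := by
    calc 2 * ‖pl e f u‖ = ‖(2 : ℝ) • pl e f u‖ := by rw [norm_smul]; norm_num
      _ = ‖u - (u + (-1 - 1 : ℝ) • pl e f u)‖ := by rw [h2]
      _ ≤ ‖u‖ + ‖u + (-1 - 1 : ℝ) • pl e f u‖ := norm_sub_le _ _
      _ = 2 * ‖u‖ := by rw [h1]; ring
  linarith

omit [FiniteDimensional ℝ E] [MeasurableSpace E] [BorelSpace E] in
lemma norm_qt_le {e f : E} (h : OP e f) (u : E) : ‖qt e f u‖ ≤ 3 * ‖u‖ := by
  have h1 := norm_rot h (Real.pi / 2) u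
  rw [rot_apply, Real.cos_pi_div_two, Real.sin_pi_div_two] at h1
  have h2 : qt e f u = (u + (0 - 1 : ℝ) • pl e f u + (1 : ℝ) • qt e f u) - u + pl e f u := by
    module
  have h3 := norm_pl_le h u
  calc ‖qt e f u‖ = ‖(u + (0 - 1 : ℝ) • pl e f u + (1 : ℝ) • qt e f u) - u + pl e f u‖ := by
        rw [← h2]
    _ ≤ ‖(u + (0 - 1 : ℝ) • pl e f u + (1 : ℝ) • qt e f u) - u‖ + ‖pl e f u‖ := norm_add_le _ _
    _ ≤ ‖u + (0 - 1 : ℝ) • pl e f u + (1 : ℝ) • qt e f u‖ + ‖u‖ + ‖pl e f u‖ := by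
        gcongr
        exact norm_sub_le _ _
    _ ≤ 3 * ‖u‖ := by rw [h1]; linarith

omit [FiniteDimensional ℝ E] [MeasurableSpace E] [BorelSpace E] in
lemma norm_rot_sub_rot_le {e f : E} (h : OP e f) (s t : ℝ) (u : E) :
    ‖rot e f s u - rot e f t u‖ ≤ 4 * |s - t| * ‖u‖ := by
  have h1 : rot e f s u - rot e f t u = (Real.cos s - Real.cos t) • pl e f u +
      (Real.sin s - Real.sin t) • qt e f u := by
    rw [rot_apply, rot_apply]; module
  have h2 : |Real.cos s - Real.cos t| ≤ |s - t| := by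
    have := Real.lipschitzWith_cos.dist_le_mul s t
    simpa [Real.dist_eq] using this
  have h3 : |Real.sin s - Real.sin t| ≤ |s - t| := by
    have := Real.lipschitzWith_sin.dist_le_mul s t
    simpa [Real.dist_eq] using this
  rw [h1]
  calc ‖(Real.cos s - Real.cos t) • pl e f u + (Real.sin s - Real.sin t) • qt e f u‖
      ≤ |Real.cos s - Real.cos t| * ‖pl e f u‖ + |Real.sin s - Real.sin t| * ‖qt e f u‖ := by
        refine (norm_add_le _ _).trans ?_
        rw [norm_smul, norm_smul, Real.norm_eq_abs, Real.norm_eq_abs]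
    _ ≤ |s - t| * ‖u‖ + |s - t| * (3 * ‖u‖) := by
        have := norm_pl_le h u
        have := norm_qt_le h u
        gcongr
    _ = 4 * |s - t| * ‖u‖ := by ring

/-- The angle of the localised half turn: `π` on `[0, 1.1]`, `0` on `[1.4, ∞)`. -/
noncomputable def hang (x : ℝ) : ℝ := Real.pi * (1 - Real.smoothTransition ((x - 1.1) / 0.3))

lemma contDiff_hang : ContDiff ℝ 1 hang := by
  have h1 : ContDiff ℝ 1 Real.smoothTransition := Real.smoothTransition.contDiff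
  exact contDiff_const.mul (contDiff_const.sub
    (h1.comp ((contDiff_id.sub contDiff_const).div_const _)))

lemma hang_inner {x : ℝ} (hx : x ≤ 1.1) : hang x = Real.pi := by
  unfold hang
  rw [Real.smoothTransition.zero_of_nonpos]
  · ring
  · apply div_nonpos_of_nonpos_of_nonneg <;> linarith

lemma hang_outer {x : ℝ} (hx : 1.4 ≤ x) : hang x = 0 := by
  unfold hang
  rw [Real.smoothTransition.one_of_one_le]
  · ring
  · rw [le_div_iff₀ (by norm_num)]
    linarith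

lemma exists_lipschitz_hang : ∃ K : ℝ≥0, LipschitzWith K (fun s : ℝ => hang (s ^ 2)) := by
  apply (contDiff_hang.comp (contDiff_id.pow 2)).lipschitzWith_of_hasCompactSupport _ one_ne_zero
  apply HasCompactSupport.intro (isCompact_Icc (a := (-2 : ℝ)) (b := 2))
  intro x hx
  simp only [Function.comp_apply]
  apply hang_outer
  rw [mem_Icc, not_and_or, not_le, not_le] at hx
  simp only [id]
  rcases hx with hx | hx <;> nlinarith

/-- Uniform Lipschitz bound of the localised half turn. -/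
lemma exists_uniform_lipschitz_halfturn :
    ∃ K : ℝ≥0, ∀ (F : Type _) [NormedAddCommGroup F] [InnerProductSpace ℝ F] (e f : F),
      OP e f → LipschitzWith K (tw e f hang) := by
  obtain ⟨L, hL⟩ := exists_lipschitz_hang
  refine ⟨1 + 8 * L, ?_⟩
  intro F _ _ e f h
  have key : ∀ u v : F, ‖v‖ ≤ ‖u‖ → dist (tw e f hang u) (tw e f hang v) ≤
      (1 + 8 * L : ℝ≥0) * dist u v := by
    intro u v huv
    rw [dist_eq_norm, dist_eq_norm]
    have h1 : tw e f hang u - tw e f hang v = rot e f (hang (‖u‖ ^ 2)) (u - v) +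
        (rot e f (hang (‖u‖ ^ 2)) v - rot e f (hang (‖v‖ ^ 2)) v) := by
      unfold tw
      rw [map_sub]
      abel
    have h2 : |hang (‖u‖ ^ 2) - hang (‖v‖ ^ 2)| * ‖v‖ ≤ 2 * L * ‖u - v‖ := by
      by_cases hv : ‖v‖ ≤ 2
      · have h3 : |hang (‖u‖ ^ 2) - hang (‖v‖ ^ 2)| ≤ L * ‖u - v‖ := by
          have h4 := hL.dist_le_mul ‖u‖ ‖v‖
          rw [Real.dist_eq, Real.dist_eq] at h4
          exact h4.trans (mul_le_mul_of_nonneg_left (abs_norm_sub_norm_le u v) L.2)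
        calc |hang (‖u‖ ^ 2) - hang (‖v‖ ^ 2)| * ‖v‖ ≤ (L * ‖u - v‖) * 2 :=
              mul_le_mul h3 hv (norm_nonneg _) (by positivity)
          _ = 2 * L * ‖u - v‖ := by ring
      · push Not at hv
        rw [hang_outer (by nlinarith : (1.4 : ℝ) ≤ ‖u‖ ^ 2),
          hang_outer (by nlinarith : (1.4 : ℝ) ≤ ‖v‖ ^ 2), sub_self, abs_zero, zero_mul]
        positivity
    rw [h1]
    calc ‖rot e f (hang (‖u‖ ^ 2)) (u - v) +
          (rot e f (hang (‖u‖ ^ 2)) v - rot e f (hang (‖v‖ ^ 2)) v)‖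
        ≤ ‖u - v‖ + 4 * |hang (‖u‖ ^ 2) - hang (‖v‖ ^ 2)| * ‖v‖ := by
          refine (norm_add_le _ _).trans ?_
          rw [norm_rot h]
          gcongr
          exact norm_rot_sub_rot_le h _ _ _
      _ ≤ ((1 + 8 * L : ℝ≥0) : ℝ) * ‖u - v‖ := by
          push_cast
          linarith
  apply LipschitzWith.of_dist_le_mul
  intro u v
  rcases le_total ‖v‖ ‖u‖ with h1 | h1
  · exact key u v h1
  · rw [dist_comm, dist_comm u v]
    exact key v u h1

end Pool.Agent.Lib_helper19.Ent
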