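import Mathlib
import Pool.Agent.Lib_helper19.Ent.Twist
import Pool.Agent.Lib_helper19.Ent.Germ
import Pool.Agent.Lib_helper19.Ent.Local

set_option autoImplicit false
set_option linter.unusedSectionVars false

/-!
# Flat charts and extension of local maps
-/

open Set Filter MeasureTheory Metric
open scoped Topology RealInnerProductSpace NNReal ENNReal

namespace Pool.Agent.Lib_helper19.Ent

/-- A bi-Lipschitz chart in which the measure is a multiple of Lebesgue measure. -/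
structure FlatChart (X E : Type*) [MetricSpace X] [MeasurableSpace X] (μ : Measure X)
    [NormedAddCommGroup E] [InnerProductSpace ℝ E] [FiniteDimensional ℝ E]
    [MeasurableSpace E] [BorelSpace E] where
  κ : E → X
  ψ : X → E
  U : Set X
  isOpen_U : IsOpen U
  κ_mem : ∀ u ∈ ball (0 : E) 2, κ u ∈ U
  ψ_mem : ∀ x ∈ U, ψ x ∈ ball (0 : E) 2
  ψκ : ∀ u ∈ ball (0 : E) 2, ψ (κ u) = u
  κψ : ∀ x ∈ U, κ (ψ x) = x
  C : ℝ≥0
  one_le_C : 1 ≤ C
  lip_κ : ∀ u ∈ ball (0 : E) 2, ∀ v ∈ ball (0 : E) 2, dist (κ u) (κ v) ≤ C * dist u v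
  lip_ψ : ∀ x ∈ U, ∀ y ∈ U, dist (ψ x) (ψ y) ≤ C * dist x y
  c : ℝ≥0∞
  c_ne_zero : c ≠ 0
  c_ne_top : c ≠ ⊤
  measure : ∀ S : Set E, MeasurableSet S → S ⊆ ball 0 2 → μ (κ '' S) = c * volume S

namespace FlatChart

variable {X E : Type*} [MetricSpace X] [MeasurableSpace X] [BorelSpace X] {μ : Measure X}
    [NormedAddCommGroup E] [InnerProductSpace ℝ E] [FiniteDimensional ℝ E]
    [MeasurableSpace E] [BorelSpace E] (fc : FlatChart X E μ)

include fc

lemma continuousOn_κ : ContinuousOn fc.κ (ball (0 : E) 2) := by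
  have : LipschitzOnWith fc.C fc.κ (ball (0 : E) 2) :=
    LipschitzOnWith.of_dist_le_mul (fun u hu v hv => fc.lip_κ u hu v hv)
  exact this.continuousOn

lemma continuousOn_ψ : ContinuousOn fc.ψ fc.U := by
  have : LipschitzOnWith fc.C fc.ψ fc.U :=
    LipschitzOnWith.of_dist_le_mul (fun u hu v hv => fc.lip_ψ u hu v hv)
  exact this.continuousOn

lemma image_κ_eq {S : Set E} (hS : S ⊆ ball 0 2) : fc.κ '' S = fc.U ∩ fc.ψ ⁻¹' S := by
  ext x
  constructor
  · rintro ⟨u, hu, rfl⟩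
    refine ⟨fc.κ_mem u (hS hu), ?_⟩
    rw [mem_preimage, fc.ψκ u (hS hu)]
    exact hu
  · rintro ⟨hx, hψ⟩
    exact ⟨fc.ψ x, hψ, fc.κψ x hx⟩

lemma image_κ_ball : fc.κ '' ball (0 : E) 2 = fc.U := by
  rw [fc.image_κ_eq subset_rfl]
  ext x
  simp only [mem_inter_iff, mem_preimage, and_iff_left_iff_imp]
  exact fc.ψ_mem x

lemma isOpen_image {S : Set E} (hS : S ⊆ ball 0 2) (ho : IsOpen S) : IsOpen (fc.κ '' S) := by
  rw [fc.image_κ_eq hS]
  exact fc.continuousOn_ψ.isOpen_inter_preimage fc.isOpen_U ho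

lemma measurableSet_image {S : Set E} (hS : S ⊆ ball 0 2) (hm : MeasurableSet S) :
    MeasurableSet (fc.κ '' S) := by
  rw [fc.image_κ_eq hS]
  have h1 : fc.U ∩ fc.ψ ⁻¹' S = fc.U ∩ ((fc.U.indicator fc.ψ) ⁻¹' S) := by
    ext x
    simp only [mem_inter_iff, mem_preimage, and_congr_right_iff]
    intro hx
    rw [indicator_of_mem hx]
  rw [h1]
  have h2 : Measurable (fc.U.indicator fc.ψ) := by
    classical
    have := fc.continuousOn_ψ.measurable_piecewise (g := fun _ => (0 : E)) continuousOn_const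
      fc.isOpen_U.measurableSet
    have e : fc.U.piecewise fc.ψ (fun _ => (0 : E)) = fc.U.indicator fc.ψ :=
      piecewise_eq_indicator
    rwa [e] at this
  exact fc.isOpen_U.measurableSet.inter (h2 hm)

lemma isCompact_image {S : Set E} (hS : S ⊆ ball 0 2) (hc : IsCompact S) :
    IsCompact (fc.κ '' S) := hc.image_of_continuousOn (fc.continuousOn_κ.mono hS)

omit fc in
lemma cb_subset : closedBall (0 : E) 1 ⊆ ball 0 2 :=
  closedBall_subset_ball (by norm_num)

/-- The gap between the unit ball and the complement of the chart. -/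
lemma exists_gap : ∃ γ : ℝ, 0 < γ ∧ ∀ u ∈ closedBall (0 : E) 1, ∀ y ∉ fc.U, γ ≤ dist (fc.κ u) y := by
  have h1 : IsCompact (fc.κ '' closedBall (0 : E) 1) :=
    fc.isCompact_image cb_subset (isCompact_closedBall _ _)
  have h2 : IsClosed fc.Uᶜ := fc.isOpen_U.isClosed_compl
  have h3 : Disjoint (fc.κ '' closedBall (0 : E) 1) fc.Uᶜ := by
    rw [disjoint_compl_right_iff_subset]
    rintro _ ⟨u, hu, rfl⟩
    exact fc.κ_mem u (cb_subset hu)
  obtain ⟨δ, hδ, h4⟩ := h3.exists_thickenings h1 h2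
  refine ⟨δ, hδ, ?_⟩
  intro u hu y hy
  by_contra hcon
  push Not at hcon
  have h5 : y ∈ thickening δ (fc.κ '' closedBall (0 : E) 1) := by
    rw [mem_thickening_iff]
    exact ⟨fc.κ u, mem_image_of_mem _ hu, by rwa [dist_comm]⟩
  have h6 : y ∈ thickening δ fc.Uᶜ := self_subset_thickening hδ _ hy
  exact disjoint_left.mp h4 h5 h6

/-- The gap constant. -/
noncomputable def gap : ℝ := fc.exists_gap.choose

lemma gap_pos : 0 < fc.gap := fc.exists_gap.choose_spec.1

lemma gap_le : ∀ u ∈ closedBall (0 : E) 1, ∀ y ∉ fc.U, fc.gap ≤ dist (fc.κ u) y :=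
  fc.exists_gap.choose_spec.2

/-! ### Extension of local maps -/

omit fc in
lemma map_ball {φ : E → E} (hinj : Function.Injective φ) (hφ : ∀ u, 1 ≤ ‖u‖ → φ u = u) {u : E}
    (hu : ‖u‖ < 1) : ‖φ u‖ < 1 := by
  by_contra hcon
  push Not at hcon
  have := hinj (hφ _ hcon)
  rw [this] at hcon
  linarith

omit fc in
lemma map_ball_two {φ : E → E} (hinj : Function.Injective φ) (hφ : ∀ u, 1 ≤ ‖u‖ → φ u = u) {u : E}
    (hu : u ∈ ball (0 : E) 2) : φ u ∈ ball (0 : E) 2 := by
  rw [mem_ball_zero_iff] at hu ⊢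
  rcases lt_or_ge ‖u‖ 1 with h | h
  · have := map_ball hinj hφ h
    linarith
  · rwa [hφ u h]

open Classical in
/-- The extension of a local map by the identity. -/
noncomputable def extFun (φ : E → E) (x : X) : X := if x ∈ fc.U then fc.κ (φ (fc.ψ x)) else x

lemma extFun_of_mem {φ : E → E} {x : X} (hx : x ∈ fc.U) : fc.extFun φ x = fc.κ (φ (fc.ψ x)) := by
  unfold extFun; rw [if_pos hx]

lemma extFun_of_notMem {φ : E → E} {x : X} (hx : x ∉ fc.U) : fc.extFun φ x = x := by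
  unfold extFun; rw [if_neg hx]

lemma extFun_κ {φ : E → E} {u : E} (hu : u ∈ ball (0 : E) 2) : fc.extFun φ (fc.κ u) = fc.κ (φ u) := by
  rw [fc.extFun_of_mem (fc.κ_mem u hu), fc.ψκ u hu]

/-- The Lipschitz constant of the extension. -/
noncomputable def extK (K : ℝ≥0) : ℝ≥0 :=
  fc.C * fc.C * K + 1 + 2 * fc.C / fc.gap.toNNReal

lemma lipschitz_extFun {φ : E → E} (hinj : Function.Injective φ) (hφ : ∀ u, 1 ≤ ‖u‖ → φ u = u)
    {K : ℝ≥0} (hK : LipschitzWith K φ) : LipschitzWith (fc.extK K) (fc.extFun φ) := by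
  have hC : (0 : ℝ) ≤ fc.C := fc.C.2
  have hg := fc.gap_pos
  have h0 : ((fc.extK K : ℝ≥0) : ℝ) = fc.C * fc.C * K + 1 + 2 * fc.C / fc.gap := by
    unfold extK
    push_cast
    rw [Real.coe_toNNReal _ hg.le]
  have hK0 : (0 : ℝ) ≤ K := K.2
  have hq : 0 ≤ 2 * (fc.C : ℝ) / fc.gap := by positivity
  -- mixed case
  have key : ∀ x ∈ fc.U, ∀ y ∉ fc.U, dist (fc.extFun φ x) y ≤ (fc.extK K) * dist x y := by
    intro x hx y hy
    rw [h0]
    have hd : 0 ≤ dist x y := dist_nonneg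
    rw [fc.extFun_of_mem hx]
    rcases lt_or_ge ‖fc.ψ x‖ 1 with h | h
    · have h1 : fc.gap ≤ dist x y := by
        have := fc.gap_le (fc.ψ x) (by rw [mem_closedBall_zero_iff]; exact h.le) y hy
        rwa [fc.κψ x hx] at this
      have h2 : dist (fc.κ (φ (fc.ψ x))) x ≤ 2 * fc.C := by
        have h3 := map_ball hinj hφ h
        have h4 := fc.lip_κ (φ (fc.ψ x)) (map_ball_two hinj hφ (fc.ψ_mem x hx)) (fc.ψ x)
          (fc.ψ_mem x hx)
        rw [fc.κψ x hx] at h4
        have h5 : dist (φ (fc.ψ x)) (fc.ψ x) ≤ 2 := by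
          rw [dist_eq_norm]
          exact (norm_sub_le _ _).trans (by linarith)
        calc dist (fc.κ (φ (fc.ψ x))) x ≤ fc.C * dist (φ (fc.ψ x)) (fc.ψ x) := h4
          _ ≤ fc.C * 2 := mul_le_mul_of_nonneg_left h5 hC
          _ = 2 * fc.C := by ring
      have h6 : 2 * (fc.C : ℝ) ≤ 2 * fc.C / fc.gap * dist x y := by
        rw [div_mul_eq_mul_div, le_div_iff₀ hg]
        exact mul_le_mul_of_nonneg_left h1 (by positivity)
      have h7 := dist_triangle (fc.κ (φ (fc.ψ x))) x y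
      have h8 : 0 ≤ (fc.C : ℝ) * fc.C * K * dist x y := by positivity
      calc dist (fc.κ (φ (fc.ψ x))) y ≤ 2 * fc.C / fc.gap * dist x y + dist x y := by linarith
        _ ≤ (fc.C * fc.C * K + 1 + 2 * fc.C / fc.gap) * dist x y := by linarith
    · rw [hφ _ h, fc.κψ x hx]
      have h8 : 0 ≤ ((fc.C : ℝ) * fc.C * K + 2 * fc.C / fc.gap) * dist x y := by positivity
      linarith
  apply LipschitzWith.of_dist_le_mul
  intro x y
  by_cases hx : x ∈ fc.U
  · by_cases hy : y ∈ fc.U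
    · rw [fc.extFun_of_mem hx, fc.extFun_of_mem hy, h0]
      have h1 := fc.lip_κ _ (map_ball_two hinj hφ (fc.ψ_mem x hx)) _
        (map_ball_two hinj hφ (fc.ψ_mem y hy))
      have h2 := hK.dist_le_mul (fc.ψ x) (fc.ψ y)
      have h3 := fc.lip_ψ x hx y hy
      have hd : 0 ≤ dist x y := dist_nonneg
      calc dist (fc.κ (φ (fc.ψ x))) (fc.κ (φ (fc.ψ y)))
          ≤ fc.C * dist (φ (fc.ψ x)) (φ (fc.ψ y)) := h1
        _ ≤ fc.C * (K * (fc.C * dist x y)) := by gcongr; exact h2.trans (by gcongr)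
        _ ≤ (fc.C * fc.C * K + 1 + 2 * fc.C / fc.gap) * dist x y := by
          have : 0 ≤ 2 * (fc.C : ℝ) / fc.gap * dist x y := by positivity
          nlinarith
    · rw [fc.extFun_of_notMem hy]
      exact key x hx y hy
  · by_cases hy : y ∈ fc.U
    · rw [fc.extFun_of_notMem hx, dist_comm, dist_comm x y]
      exact key y hy x hx
    · rw [fc.extFun_of_notMem hx, fc.extFun_of_notMem hy, h0]
      have : 0 ≤ ((fc.C : ℝ) * fc.C * K + 2 * fc.C / fc.gap) * dist x y := by positivity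
      linarith

lemma extFun_extFun {φ φ' : E → E} (h : ∀ u, φ (φ' u) = u) (hinj : Function.Injective φ')
    (hφ : ∀ u, 1 ≤ ‖u‖ → φ' u = u) (x : X) : fc.extFun φ (fc.extFun φ' x) = x := by
  by_cases hx : x ∈ fc.U
  · rw [fc.extFun_of_mem hx, fc.extFun_κ (map_ball_two hinj hφ (fc.ψ_mem x hx)), h, fc.κψ x hx]
  · rw [fc.extFun_of_notMem hx, fc.extFun_of_notMem hx]

/-- The extension as a homeomorphism. -/
noncomputable def ext (φ : E ≃ₜ E) (h1 : ∀ u, 1 ≤ ‖u‖ → φ u = u)
    (h2 : ∃ K : ℝ≥0, LipschitzWith K φ) (h3 : ∃ K : ℝ≥0, LipschitzWith K φ.symm) : X ≃ₜ X where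
  toFun := fc.extFun φ
  invFun := fc.extFun φ.symm
  left_inv := fc.extFun_extFun φ.symm_apply_apply φ.injective h1
  right_inv := fc.extFun_extFun φ.apply_symm_apply φ.symm.injective
    (fun u hu => by rw [Homeomorph.symm_apply_eq, h1 u hu])
  continuous_toFun := (fc.lipschitz_extFun φ.injective h1 h2.choose_spec).continuous
  continuous_invFun := (fc.lipschitz_extFun φ.symm.injective
    (fun u hu => by rw [Homeomorph.symm_apply_eq, h1 u hu]) h3.choose_spec).continuous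

@[simp] lemma ext_apply (φ : E ≃ₜ E) (h1 : ∀ u, 1 ≤ ‖u‖ → φ u = u)
    (h2 : ∃ K : ℝ≥0, LipschitzWith K φ) (h3 : ∃ K : ℝ≥0, LipschitzWith K φ.symm) (x : X) :
    fc.ext φ h1 h2 h3 x = fc.extFun φ x := rfl

lemma measurableSet_preimage {S : Set X} (hS : MeasurableSet S) :
    MeasurableSet (ball (0 : E) 2 ∩ fc.κ ⁻¹' S) := by
  classical
  have h2 : Measurable ((ball (0 : E) 2).piecewise fc.κ (fun _ => fc.κ 0)) :=
    fc.continuousOn_κ.measurable_piecewise continuousOn_const isOpen_ball.measurableSet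
  have h3 : ball (0 : E) 2 ∩ fc.κ ⁻¹' S =
      ball (0 : E) 2 ∩ ((ball (0 : E) 2).piecewise fc.κ (fun _ => fc.κ 0)) ⁻¹' S := by
    ext u
    simp only [mem_inter_iff, mem_preimage, and_congr_right_iff]
    intro hu
    rw [piecewise_eq_of_mem _ _ _ hu]
  rw [h3]
  exact isOpen_ball.measurableSet.inter (h2 hS)

lemma measurePreserving_ext (φ : E ≃ₜ E) (h1 : ∀ u, 1 ≤ ‖u‖ → φ u = u)
    (h2 : ∃ K : ℝ≥0, LipschitzWith K φ) (h3 : ∃ K : ℝ≥0, LipschitzWith K φ.symm)
    (h4 : MeasurePreserving φ (volume : Measure E) volume) :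
    MeasurePreserving (fc.ext φ h1 h2 h3) μ μ := by
  refine ⟨(Homeomorph.continuous _).measurable, ?_⟩
  ext S hS
  rw [Measure.map_apply (Homeomorph.continuous _).measurable hS]
  have hUm := fc.isOpen_U.measurableSet
  have hm : MeasurableSet ((fc.ext φ h1 h2 h3) ⁻¹' S) :=
    (Homeomorph.continuous _).measurable hS
  rw [← measure_inter_add_sdiff ((fc.ext φ h1 h2 h3) ⁻¹' S) hUm, ← measure_inter_add_sdiff S hUm]
  congr 1
  · -- inside the chart
    set T : Set E := ball 0 2 ∩ fc.κ ⁻¹' S with hT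
    have hTm : MeasurableSet T := by
      exact fc.measurableSet_preimage hS
    have hTs : T ⊆ ball 0 2 := inter_subset_left
    have e1 : S ∩ fc.U = fc.κ '' T := by
      rw [fc.image_κ_eq hTs]
      ext x
      simp only [mem_inter_iff, mem_preimage, hT]
      constructor
      · rintro ⟨h5, h6⟩
        exact ⟨h6, fc.ψ_mem x h6, by rwa [fc.κψ x h6]⟩
      · rintro ⟨h5, -, h6⟩
        rw [fc.κψ x h5] at h6
        exact ⟨h6, h5⟩
    have hT2 : φ ⁻¹' T ⊆ ball 0 2 := by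
      intro u hu
      have h5 : φ u ∈ ball (0 : E) 2 := hTs hu
      have h6 : φ.symm (φ u) ∈ ball (0 : E) 2 :=
        map_ball_two φ.symm.injective (fun u hu => by rw [Homeomorph.symm_apply_eq, h1 u hu]) h5
      rwa [φ.symm_apply_apply] at h6
    have e2 : (fc.ext φ h1 h2 h3) ⁻¹' S ∩ fc.U = fc.κ '' (φ ⁻¹' T) := by
      rw [fc.image_κ_eq hT2]
      ext x
      simp only [mem_inter_iff, mem_preimage, ext_apply, hT]
      constructor
      · rintro ⟨h5, h6⟩
        rw [fc.extFun_of_mem h6] at h5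
        exact ⟨h6, map_ball_two φ.injective h1 (fc.ψ_mem x h6), h5⟩
      · rintro ⟨h5, -, h6⟩
        rw [fc.extFun_of_mem h5]
        exact ⟨h6, h5⟩
    rw [e1, e2, fc.measure _ (φ.continuous.measurable hTm) hT2, fc.measure _ hTm hTs,
      h4.measure_preimage hTm.nullMeasurableSet]
  · -- outside the chart
    congr 1
    ext x
    simp only [Set.mem_sdiff, mem_preimage, ext_apply, and_congr_left_iff]
    intro hx
    rw [fc.extFun_of_notMem hx]

end FlatChart

end Pool.Agent.Lib_helper19.Ent
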