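import Mathlib

set_option autoImplicit false
set_option linter.unusedSectionVars false

/-!
# Selecting a good pair of times in a recurrent orbit
-/

open Set Filter Metric
open scoped Topology RealInnerProductSpace NNReal ENNReal

namespace Pool.Agent.Lib_helper19.Ent

variable {E : Type*} [NormedAddCommGroup E] [InnerProductSpace ℝ E]

/-- Any point in the ball around the midpoint is close to one of the endpoints. -/
lemma midpoint_close (a b w : E) {δ : ℝ} (hδ : δ = ‖a - b‖)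
    (hw : ‖w - (1 / 2 : ℝ) • (a + b)‖ ≤ 0.6 * δ) :
    ‖w - a‖ ≤ 0.782 * δ ∨ ‖w - b‖ ≤ 0.782 * δ := by
  have hδ0 : 0 ≤ δ := by rw [hδ]; exact norm_nonneg _
  set v := w - (1 / 2 : ℝ) • (a + b) with hv
  have h1 : w - a = v - (1 / 2 : ℝ) • (a - b) := by rw [hv]; module
  have h2 : w - b = v + (1 / 2 : ℝ) • (a - b) := by rw [hv]; module
  have h3 := parallelogram_law_with_norm ℝ v ((1 / 2 : ℝ) • (a - b))
  rw [← h1, ← h2, norm_smul, ← hδ, Real.norm_of_nonneg (by norm_num : (0 : ℝ) ≤ 1 / 2)] at h3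
  by_contra hcon
  push Not at hcon
  obtain ⟨h4, h5⟩ := hcon
  have h6 : (0.782 * δ) * (0.782 * δ) ≤ ‖w - a‖ * ‖w - a‖ :=
    mul_self_le_mul_self (by positivity) h4.le
  have h7 : (0.782 * δ) * (0.782 * δ) ≤ ‖w - b‖ * ‖w - b‖ :=
    mul_self_le_mul_self (by positivity) h5.le
  have h8 : ‖v‖ * ‖v‖ ≤ (0.6 * δ) * (0.6 * δ) := mul_self_le_mul_self (norm_nonneg _) hw
  have h9 : 0 < δ * δ := by
    have : 0 < δ := by
      rcases hδ0.lt_or_eq with h | h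
      · exact h
      · exfalso
        rw [← h, mul_zero] at hw h4
        rw [← h, mul_zero] at h5
        have ha : a - b = 0 := by rw [← norm_eq_zero, ← hδ, h]
        have hv0 : v = 0 := by rw [← norm_eq_zero]; exact le_antisymm hw (norm_nonneg _)
        rw [h1, hv0, ha] at h4
        simp at h4
    positivity
  nlinarith

open Classical in
theorem exists_good_pair (z : ℕ → E) (P : ℕ → Prop) (hP0 : P 0) (hP : ∀ i, P i → ‖z i‖ < 1)
    (hinj : ∀ i j, i < j → P i → P j → z i ≠ z j)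
    (hrec : ∀ τ > 0, ∃ N, 0 < N ∧ P N ∧ ‖z N - z 0‖ < τ) {q0 : ℝ} (hq0 : 0 < q0) (hq1 : q0 ≤ 0.3) :
    ∃ i j, i < j ∧ P i ∧ P j ∧ 0 < ‖z i - z j‖ ∧ ‖z i - z j‖ ≤ q0 * (1 - ‖z i‖) ∧
      ‖z i - z j‖ ≤ q0 * (1 - ‖z j‖) ∧
      ∀ k, i < k → k < j → P k →
        0.6 * ‖z i - z j‖ < ‖z k - (1 / 2 : ℝ) • (z i + z j)‖ := by
  have h00 := hP 0 hP0
  obtain ⟨N, hN0, hPN, hN⟩ := hrec (q0 * (1 - ‖z 0‖) / 2) (by
    have : 0 < 1 - ‖z 0‖ := by linarith
    positivity)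
  -- the quality of a pair
  set q : ℕ × ℕ → ℝ := fun s => ‖z s.1 - z s.2‖ / min (1 - ‖z s.1‖) (1 - ‖z s.2‖) with hq
  set F : Finset (ℕ × ℕ) := ((Finset.range (N + 1)) ×ˢ (Finset.range (N + 1))).filter
    (fun s => s.1 < s.2 ∧ P s.1 ∧ P s.2) with hF
  have hmemF : ∀ s : ℕ × ℕ, s ∈ F ↔ (s.1 < N + 1 ∧ s.2 < N + 1) ∧ s.1 < s.2 ∧ P s.1 ∧ P s.2 := by
    intro s
    rw [hF, Finset.mem_filter, Finset.mem_product, Finset.mem_range, Finset.mem_range]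
  have h0N : (0, N) ∈ F := by
    rw [hmemF]
    exact ⟨⟨by simp, by simp⟩, hN0, hP0, hPN⟩
  obtain ⟨⟨i, j⟩, hijF, hmin⟩ := F.exists_min_image q ⟨_, h0N⟩
  rw [hmemF] at hijF
  obtain ⟨⟨hiN, hjN⟩, hij, hPi, hPj⟩ := hijF
  simp only at hiN hjN hij hPi hPj
  -- the quality of `(0, N)`
  have hq0N : q (0, N) ≤ q0 := by
    simp only [hq]
    have h1 : ‖z N‖ ≤ ‖z 0‖ + q0 * (1 - ‖z 0‖) / 2 := by
      have := norm_sub_norm_le (z N) (z 0)
      linarith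
    have h2 : (1 - ‖z 0‖) / 2 ≤ 1 - ‖z N‖ := by nlinarith
    have h3 : (1 - ‖z 0‖) / 2 ≤ min (1 - ‖z 0‖) (1 - ‖z N‖) := le_min (by linarith) h2
    have h4 : 0 < (1 - ‖z 0‖) / 2 := by linarith
    rw [div_le_iff₀ (lt_of_lt_of_le h4 h3), norm_sub_rev]
    calc ‖z N - z 0‖ ≤ q0 * ((1 - ‖z 0‖) / 2) := by linarith
      _ ≤ q0 * min (1 - ‖z 0‖) (1 - ‖z N‖) := mul_le_mul_of_nonneg_left h3 hq0.le
  have hqij : q (i, j) ≤ q0 := (hmin _ h0N).trans hq0N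
  have hi1 := hP i hPi
  have hj1 := hP j hPj
  set r := min (1 - ‖z i‖) (1 - ‖z j‖) with hr
  have hr0 : 0 < r := lt_min (by linarith) (by linarith)
  set δ := ‖z i - z j‖ with hδ
  have hδ0 : 0 < δ := by
    rw [hδ, norm_pos_iff, sub_ne_zero]
    exact hinj i j hij hPi hPj
  have hqe : q (i, j) = δ / r := rfl
  have hδr : δ ≤ q0 * r := by
    rw [hqe, div_le_iff₀ hr0] at hqij
    exact hqij
  refine ⟨i, j, hij, hPi, hPj, hδ0, hδr.trans (mul_le_mul_of_nonneg_left (min_le_left _ _) hq0.le),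
    hδr.trans (mul_le_mul_of_nonneg_left (min_le_right _ _) hq0.le), ?_⟩
  intro k hik hkj hPk
  by_contra hcon
  push Not at hcon
  -- `z k` is far from the boundary
  have hm : ‖(1 / 2 : ℝ) • (z i + z j)‖ ≤ 1 - r := by
    rw [norm_smul, Real.norm_of_nonneg (by norm_num : (0 : ℝ) ≤ 1 / 2)]
    have h1 := norm_add_le (z i) (z j)
    have h2 : r ≤ 1 - ‖z i‖ := min_le_left _ _
    have h3 : r ≤ 1 - ‖z j‖ := min_le_right _ _
    linarith
  have hk1 : (1 - 0.6 * 0.3) * r ≤ 1 - ‖z k‖ := by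
    have h1 := norm_sub_norm_le (z k) ((1 / 2 : ℝ) • (z i + z j))
    have h2 : δ ≤ 0.3 * r := hδr.trans (mul_le_mul_of_nonneg_right hq1 hr0.le)
    linarith
  have hk2 : 0 < 1 - ‖z k‖ := lt_of_lt_of_le (by nlinarith) hk1
  have key : ∀ w : E, r ≤ 1 - ‖w‖ → ‖z k - w‖ ≤ 0.782 * δ →
      ‖z k - w‖ / min (1 - ‖z k‖) (1 - ‖w‖) < δ / r := by
    intro w hw hkw
    have h1 : (1 - 0.6 * 0.3) * r ≤ min (1 - ‖z k‖) (1 - ‖w‖) := le_min hk1 (by nlinarith)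
    have h2 : 0 < (1 - 0.6 * 0.3) * r := by nlinarith
    rw [div_lt_div_iff₀ (lt_of_lt_of_le h2 h1) hr0]
    calc ‖z k - w‖ * r ≤ (0.782 * δ) * r := mul_le_mul_of_nonneg_right hkw hr0.le
      _ < δ * ((1 - 0.6 * 0.3) * r) := by nlinarith [mul_pos hδ0 hr0]
      _ ≤ δ * min (1 - ‖z k‖) (1 - ‖w‖) := mul_le_mul_of_nonneg_left h1 hδ0.le
  rcases midpoint_close (z i) (z j) (z k) hδ hcon with h | h
  · have h1 := key (z i) (min_le_left _ _) h
    have h2 := hmin (i, k) (by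
      rw [hmemF]
      exact ⟨⟨hiN, by simp only; omega⟩, hik, hPi, hPk⟩)
    rw [hqe] at h2
    have h3 : q (i, k) = ‖z k - z i‖ / min (1 - ‖z k‖) (1 - ‖z i‖) := by
      simp only [hq]
      rw [norm_sub_rev, min_comm]
    rw [h3] at h2
    linarith
  · have h1 := key (z j) (min_le_right _ _) h
    have h2 := hmin (k, j) (by
      rw [hmemF]
      exact ⟨⟨by simp only; omega, hjN⟩, hkj, hPk, hPj⟩)
    rw [hqe] at h2
    have h3 : q (k, j) = ‖z k - z j‖ / min (1 - ‖z k‖) (1 - ‖z j‖) := rfl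
    rw [h3] at h2
    linarith

end Pool.Agent.Lib_helper19.Ent
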