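import Mathlib
import Pool.Agent.Lib_helper19.Ent.Flat

set_option autoImplicit false
set_option linter.unusedSectionVars false

/-!
# Almost every orbit is regular in a flat chart
-/

open Set Filter MeasureTheory Metric
open scoped Topology RealInnerProductSpace NNReal ENNReal

namespace Pool.Agent.Lib_helper19.Ent

variable {X E : Type*} [MetricSpace X] [MeasurableSpace X] [BorelSpace X] {μ : Measure X}
    [NormedAddCommGroup E] [InnerProductSpace ℝ E] [FiniteDimensional ℝ E]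
    [MeasurableSpace E] [BorelSpace E] (fc : FlatChart X E μ)

namespace FlatChart

include fc

/-- Images of null sets are null. -/
lemma measure_image_eq_zero {S : Set E} (hS : S ⊆ ball 0 2) (h0 : volume S = 0) :
    μ (fc.κ '' S) = 0 := by
  obtain ⟨T, hST, hTm, hT0⟩ := exists_measurable_superset_of_null h0
  have h1 : S ⊆ T ∩ ball 0 2 := subset_inter hST hS
  have h2 : μ (fc.κ '' (T ∩ ball 0 2)) = 0 := by
    rw [fc.measure _ (hTm.inter isOpen_ball.measurableSet) inter_subset_right,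
      measure_mono_null inter_subset_left hT0, mul_zero]
  exact measure_mono_null (image_mono h1) h2

/-- Preimages of null sets are null. -/
lemma volume_eq_zero_of_image {S : Set E} (hS : S ⊆ ball 0 2) (h0 : μ (fc.κ '' S) = 0) :
    volume S = 0 := by
  obtain ⟨T, hST, hTm, hT0⟩ := exists_measurable_superset_of_null h0
  have h1 : S ⊆ ball 0 2 ∩ fc.κ ⁻¹' T := fun u hu => ⟨hS hu, hST (mem_image_of_mem _ hu)⟩
  have h2 : μ (fc.κ '' (ball 0 2 ∩ fc.κ ⁻¹' T)) = 0 := by
    apply measure_mono_null _ hT0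
    rintro _ ⟨u, hu, rfl⟩
    exact hu.2
  rw [fc.measure _ (fc.measurableSet_preimage hTm) inter_subset_left] at h2
  rcases mul_eq_zero.mp h2 with h3 | h3
  · exact absurd h3 fc.c_ne_zero
  · exact measure_mono_null h1 h3

/-- The points of the chart which are not regular for the `n`-th iterate. -/
def bad (g : X → X) (n : ℕ) : Set E :=
  {u | u ∈ ball (0 : E) 2 ∧ g^[n] (fc.κ u) ∈ fc.U ∧
    ¬ ∃ A : E ≃L[ℝ] E, HasFDerivAt (fun u => fc.ψ (g^[n] (fc.κ u))) (A : E →L[ℝ] E) u}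

lemma volume_bad {g : X → X} {K : ℝ≥0} (hg : LipschitzWith K g) (hmp : MeasurePreserving g μ μ)
    (n : ℕ) : volume (fc.bad g n) = 0 := by
  set F : E → E := fun u => fc.ψ (g^[n] (fc.κ u)) with hF
  set D : Set E := ball (0 : E) 2 ∩ (fun u => g^[n] (fc.κ u)) ⁻¹' fc.U with hD
  have hc : ContinuousOn (fun u => g^[n] (fc.κ u)) (ball (0 : E) 2) :=
    (hg.continuous.iterate n).comp_continuousOn fc.continuousOn_κ
  have hDo : IsOpen D := hc.isOpen_inter_preimage isOpen_ball fc.isOpen_U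
  have hLip : LipschitzOnWith (fc.C * (K ^ n * fc.C)) F D := by
    apply LipschitzOnWith.of_dist_le_mul
    intro u hu v hv
    refine (fc.lip_ψ _ hu.2 _ hv.2).trans ?_
    push_cast
    rw [mul_assoc, mul_assoc]
    apply mul_le_mul_of_nonneg_left _ fc.C.2
    refine ((hg.iterate n).dist_le_mul _ _).trans ?_
    push_cast
    exact mul_le_mul_of_nonneg_left (fc.lip_κ u hu.1 v hv.1) (by positivity)
  -- Rademacher
  have h1 : ∀ᵐ u, u ∈ D → DifferentiableAt ℝ F u := by
    filter_upwards [hLip.ae_differentiableWithinAt_of_mem (μ := volume)] with u hu huD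
    exact (hu huD).differentiableAt (hDo.mem_nhds huD)
  set T : Set E := {u | u ∈ D ∧ DifferentiableAt ℝ F u ∧ (fderiv ℝ F u).det = 0} with hT
  have hT2 : T ⊆ ball 0 2 := fun u hu => hu.1.1
  have h2 : volume (F '' T) = 0 := by
    apply addHaar_image_eq_zero_of_det_fderivWithin_eq_zero volume (f' := fun u => fderiv ℝ F u)
    · intro u hu
      exact hu.2.1.hasFDerivAt.hasFDerivWithinAt
    · intro u hu
      exact hu.2.2
  have hFT : F '' T ⊆ ball 0 2 := by
    rintro _ ⟨u, hu, rfl⟩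
    exact fc.ψ_mem _ hu.1.2
  have h3 : μ (fc.κ '' (F '' T)) = 0 := fc.measure_image_eq_zero hFT h2
  have h4 : μ (g^[n] ⁻¹' (fc.κ '' (F '' T))) = 0 :=
    (hmp.iterate n).quasiMeasurePreserving.preimage_null h3
  have h5 : μ (fc.κ '' T) = 0 := by
    apply measure_mono_null _ h4
    rintro _ ⟨u, hu, rfl⟩
    refine ⟨F u, mem_image_of_mem _ hu, ?_⟩
    exact fc.κψ _ hu.1.2
  have h6 : volume T = 0 := fc.volume_eq_zero_of_image hT2 h5
  have h7 : fc.bad g n ⊆ {u | ¬ (u ∈ D → DifferentiableAt ℝ F u)} ∪ T := by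
    rintro u ⟨hu1, hu2, hu3⟩
    by_cases hd : DifferentiableAt ℝ F u
    · right
      refine ⟨⟨hu1, hu2⟩, hd, ?_⟩
      by_contra hdet
      apply hu3
      refine ⟨ContinuousLinearMap.toContinuousLinearEquivOfDetNeZero (fderiv ℝ F u) hdet, ?_⟩
      rw [ContinuousLinearMap.coe_toContinuousLinearEquivOfDetNeZero]
      exact hd.hasFDerivAt
    · left
      intro h
      exact hd (h ⟨hu1, hu2⟩)
  exact measure_mono_null h7 (measure_union_null h1 h6)

/-- Almost every point is regular along its orbit. -/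
lemma ae_regular {g : X → X} {K : ℝ≥0} (hg : LipschitzWith K g) (hmp : MeasurePreserving g μ μ) :
    ∀ᵐ x ∂μ, ∀ i n : ℕ, ∀ u ∈ ball (0 : E) 2, fc.κ u = g^[i] x → g^[n] (fc.κ u) ∈ fc.U →
      ∃ A : E ≃L[ℝ] E, HasFDerivAt (fun u => fc.ψ (g^[n] (fc.κ u))) (A : E →L[ℝ] E) u := by
  rw [ae_all_iff]
  intro i
  rw [ae_all_iff]
  intro n
  have h1 : μ (fc.κ '' (fc.bad g n)) = 0 :=
    fc.measure_image_eq_zero (fun u hu => hu.1) (fc.volume_bad hg hmp n)
  have h2 : μ (g^[i] ⁻¹' (fc.κ '' (fc.bad g n))) = 0 :=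
    (hmp.iterate i).quasiMeasurePreserving.preimage_null h1
  have h3 : ∀ᵐ x ∂μ, x ∉ g^[i] ⁻¹' (fc.κ '' (fc.bad g n)) := by
    rwa [ae_iff, show {a | ¬a ∉ g^[i] ⁻¹' (fc.κ '' fc.bad g n)} =
      g^[i] ⁻¹' (fc.κ '' (fc.bad g n)) by ext; simp]
  filter_upwards [h3] with x hx u hu hux hgn
  by_contra hcon
  exact hx ⟨u, ⟨hu, hgn, hcon⟩, hux⟩

end FlatChart

/-- Every unit vector is part of an orthonormal pair. -/
lemma exists_OP {e : E} (he : ⟪e, e⟫ = (1 : ℝ)) (hdim : 2 ≤ Module.finrank ℝ E) :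
    ∃ f : E, OP e f := by
  have h1 : (ℝ ∙ e)ᗮ ≠ ⊥ := by
    intro h
    have h2 := Submodule.finrank_add_finrank_orthogonal (ℝ ∙ e)
    rw [h, finrank_bot] at h2
    have he0 : e ≠ 0 := by
      rintro rfl
      rw [inner_zero_left] at he
      exact zero_ne_one he
    have h3 : Module.finrank ℝ (ℝ ∙ e) = 1 := finrank_span_singleton he0
    omega
  obtain ⟨v, hv, hv0⟩ := Submodule.exists_mem_ne_zero_of_ne_bot h1
  have hv1 : ⟪e, v⟫ = (0 : ℝ) := by
    rw [Submodule.mem_orthogonal_singleton_iff_inner_right] at hv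
    exact hv
  have hn : ‖v‖ ≠ 0 := norm_ne_zero_iff.mpr hv0
  refine ⟨‖v‖⁻¹ • v, he, ?_, ?_⟩
  · rw [inner_smul_left, inner_smul_right, real_inner_self_eq_norm_sq]
    simp only [map_inv₀, RCLike.conj_to_real]
    field_simp
  · rw [inner_smul_right, hv1, mul_zero]

end Pool.Agent.Lib_helper19.Ent
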