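import Mathlib

set_option autoImplicit false

/-!
# Topological horseshoes: itineraries and entropy
-/

open Set Filter
open scoped Topology NNReal ENNReal

namespace Pool.Agent.Lib_helper19.Ent

section Crossing

variable {X : Type*} [TopologicalSpace X]

/-- `γ` restricted to `[s, t]` crosses the region `Rg` from `Lf` to `Rf`. -/
structure Crossing (Rg Lf Rf : Set X) (γ : ℝ → X) (s t : ℝ) : Prop where
  le : s ≤ t
  cont : ContinuousOn γ (Icc s t)
  mem : ∀ τ ∈ Icc s t, γ τ ∈ Rg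
  left : γ s ∈ Lf
  right : γ t ∈ Rf

/-- The horseshoe property: every crossing path contains, for every symbol, a subpath in the
corresponding set whose image crosses again. -/
def HorseshoeProp {ι : Type*} (Φ : X → X) (Rg Lf Rf : Set X) (S : ι → Set X) : Prop :=
  ∀ γ s t, Crossing Rg Lf Rf γ s t → ∀ j, ∃ s' t', s ≤ s' ∧ t' ≤ t ∧
    (∀ τ ∈ Icc s' t', γ τ ∈ S j) ∧ Crossing Rg Lf Rf (Φ ∘ γ) s' t'

lemma itinerary {ι : Type*} {Φ : X → X} {Rg Lf Rf : Set X} {S : ι → Set X}
    (h : HorseshoeProp Φ Rg Lf Rf S) (m : ℕ) : ∀ (w : ℕ → ι) (γ : ℝ → X) (s t : ℝ),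
    Crossing Rg Lf Rf γ s t → ∃ τ ∈ Icc s t, ∀ k < m, Φ^[k] (γ τ) ∈ S (w k) := by
  induction m with
  | zero =>
    intro w γ s t hγ
    exact ⟨s, left_mem_Icc.mpr hγ.le, fun k hk => absurd hk (Nat.not_lt_zero k)⟩
  | succ m ih =>
    intro w γ s t hγ
    obtain ⟨s', t', h1, h2, h3, h4⟩ := h γ s t hγ (w 0)
    obtain ⟨τ, hτ, hw⟩ := ih (fun k => w (k + 1)) (Φ ∘ γ) s' t' h4
    refine ⟨τ, ⟨h1.trans hτ.1, hτ.2.trans h2⟩, ?_⟩
    intro k hk
    rcases k with _ | k
    · exact h3 τ hτ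
    · exact hw k (by omega)

end Crossing

section Entropy

variable {X : Type*} [PseudoMetricSpace X]

open Dynamics

/-- A horseshoe with `N` symbols for an iterate gives a lower bound of the entropy. -/
theorem entropy_lower {f : X → X} {n N : ℕ} (hn : 0 < n) {Rg Lf Rf : Set X} {S : Fin N → Set X}
    (h : HorseshoeProp (f^[n]) Rg Lf Rf S) {γ : ℝ → X} {s t : ℝ} (hγ : Crossing Rg Lf Rf γ s t)
    {δ : ℝ} (hδ : 0 < δ) (hS : ∀ i j, i ≠ j → ∀ x ∈ S i, ∀ y ∈ S j, δ ≤ dist x y) {K : ℝ}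
    (hK : Real.exp (K * n) ≤ N) : (K : EReal) ≤ coverEntropy f univ := by
  classical
  have hN0 : 0 < N := by
    have : (0 : ℝ) < N := lt_of_lt_of_le (Real.exp_pos _) hK
    exact_mod_cast this
  have : Nonempty (Fin N) := ⟨⟨0, hN0⟩⟩
  set U : Set (X × X) := {p | dist p.1 p.2 < δ / 2} with hU
  have hUu : U ∈ uniformity X := Metric.dist_mem_uniformity (by positivity)
  refine le_trans ?_ (netEntropyEntourage_le_coverEntropy (T := f) (F := univ) hUu)
  unfold netEntropyEntourage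
  apply Frequently.le_expGrowthSup
  -- the nets
  have key : ∀ m : ℕ, ((N ^ m : ℕ) : ℕ∞) ≤ netMaxcard f univ U (n * m) := by
    intro m
    have hpt : ∀ w : Fin m → Fin N, ∃ x : X, ∀ k : Fin m, (f^[n])^[k] x ∈ S (w k) := by
      intro w
      obtain ⟨τ, -, hτ⟩ := itinerary h m (fun k => if hk : k < m then w ⟨k, hk⟩ else ⟨0, hN0⟩)
        γ s t hγ
      refine ⟨γ τ, fun k => ?_⟩
      have := hτ k k.2
      simpa [k.2] using this
    choose x hx using hpt
    have hsep : ∀ w w', w ≠ w' → ∃ k : Fin m, δ ≤ dist ((f^[n])^[k] (x w)) ((f^[n])^[k] (x w')) := by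
      intro w w' hww
      obtain ⟨k, hk⟩ := Function.ne_iff.mp hww
      exact ⟨k, hS _ _ hk _ (hx w k) _ (hx w' k)⟩
    have hinj : Function.Injective x := by
      intro w w' hww
      by_contra hne
      obtain ⟨k, hk⟩ := hsep w w' hne
      rw [hww, dist_self] at hk
      linarith
    have hnet : IsDynNetIn f univ U (n * m) (↑(Finset.univ.image x) : Set X) := by
      refine ⟨subset_univ _, ?_⟩
      intro a ha b hb hab
      simp only [Finset.coe_image, Finset.coe_univ, image_univ, mem_range] at ha hb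
      obtain ⟨w, rfl⟩ := ha
      obtain ⟨w', rfl⟩ := hb
      obtain ⟨k, hk⟩ := hsep w w' (fun h => hab (by rw [h]))
      rw [Function.onFun, disjoint_left]
      intro z hz1 hz2
      rw [mem_ball_dynEntourage] at hz1 hz2
      have hkn : n * k < n * m := Nat.mul_lt_mul_of_pos_left k.2 hn
      have h1 := hz1 (n * k) hkn
      have h2 := hz2 (n * k) hkn
      rw [Function.iterate_mul] at h1 h2
      change dist ((f^[n])^[k] (x w)) ((f^[n])^[k] z) < δ / 2 at h1
      change dist ((f^[n])^[k] (x w')) ((f^[n])^[k] z) < δ / 2 at h2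
      have h3 := dist_triangle_right ((f^[n])^[k] (x w)) ((f^[n])^[k] (x w')) ((f^[n])^[k] z)
      linarith
    have hcard := hnet.card_le_netMaxcard
    rw [Finset.card_image_of_injective _ hinj, Finset.card_univ, Fintype.card_fun,
      Fintype.card_fin, Fintype.card_fin] at hcard
    exact hcard
  have hfreq : ∃ᶠ l : ℕ in atTop, ∃ m : ℕ, l = n * m := by
    rw [frequently_atTop]
    intro a
    exact ⟨n * a, Nat.le_mul_of_pos_left a hn, a, rfl⟩
  apply hfreq.mono
  rintro l ⟨m, rfl⟩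
  have h1 : ((N ^ m : ℕ) : ℝ≥0∞) ≤ (netMaxcard f univ U (n * m) : ℝ≥0∞) := by
    have := ENat.toENNReal_mono (key m)
    simpa using this
  refine le_trans ?_ h1
  have h2 : ((K : EReal) * ((n * m : ℕ) : EReal)) = ((K * (n * m : ℕ) : ℝ) : EReal) := by
    push_cast
    rfl
  rw [h2, EReal.exp_coe]
  have h3 : Real.exp (K * (n * m : ℕ)) ≤ ((N ^ m : ℕ) : ℝ) := by
    push_cast
    rw [← mul_assoc, mul_comm (K * n) (m : ℝ), Real.exp_nat_mul]
    exact pow_le_pow_left₀ (Real.exp_pos _).le hK m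
  calc ENNReal.ofReal (Real.exp (K * (n * m : ℕ))) ≤ ENNReal.ofReal ((N ^ m : ℕ) : ℝ) :=
        ENNReal.ofReal_le_ofReal h3
    _ = ((N ^ m : ℕ) : ℝ≥0∞) := ENNReal.ofReal_natCast _

end Entropy

end Pool.Agent.Lib_helper19.Ent
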