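import Mathlib
import Pool.Agent.Lib_helper19.Ent.Twist
import Pool.Agent.Lib_helper19.Ent.Germ

set_option autoImplicit false

/-!
# Squeezes are germs of compactly supported volume preserving maps
-/

open Set Filter MeasureTheory
open scoped Topology RealInnerProductSpace NNReal ENNReal

namespace Pool.Agent.Lib_helper19.Ent

variable {E : Type*} [NormedAddCommGroup E] [InnerProductSpace ℝ E] [FiniteDimensional ℝ E]
  [MeasurableSpace E] [BorelSpace E]

/-- Scaling by `b` in the direction `e`. -/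
noncomputable def sc (e : E) (b : ℝ) : E →L[ℝ] E :=
  ContinuousLinearMap.id ℝ E + (b - 1) • (innerSL ℝ e).smulRight e

omit [FiniteDimensional ℝ E] [MeasurableSpace E] [BorelSpace E] in
lemma sc_apply (e : E) (b : ℝ) (u : E) : sc e b u = u + ((b - 1) * ⟪e, u⟫) • e := by
  simp [sc, smul_smul]

omit [FiniteDimensional ℝ E] [MeasurableSpace E] [BorelSpace E] in
lemma sc_sc {e : E} (he : ⟪e, e⟫ = (1 : ℝ)) {b c : ℝ} (hbc : b * c = 1) (u : E) :
    sc e b (sc e c u) = u := by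
  simp only [sc_apply, inner_add_right, inner_smul_right, he]
  rw [add_assoc, ← add_smul]
  have : (c - 1) * ⟪e, u⟫ + (b - 1) * (⟪e, u⟫ + (c - 1) * ⟪e, u⟫ * 1) = 0 := by
    linear_combination ⟪e, u⟫ * hbc
  rw [this, zero_smul, add_zero]

/-- Scaling in one direction as a linear equivalence. -/
noncomputable def scE {e : E} (he : ⟪e, e⟫ = (1 : ℝ)) {b : ℝ} (hb : b ≠ 0) : E ≃L[ℝ] E :=
  ContinuousLinearEquiv.equivOfInverse (sc e b) (sc e b⁻¹) (sc_sc he (inv_mul_cancel₀ hb))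
    (sc_sc he (mul_inv_cancel₀ hb))

/-- The planar squeeze: `e ↦ b⁻¹ e`, `f ↦ b f`. -/
lemma exists_squeeze {e f : E} (h : OP e f) {b : ℝ} (hb : b ≠ 0) :
    ∃ L : E ≃L[ℝ] E, Loc L ∧ L e = b⁻¹ • e ∧ L f = b • f ∧
      ∀ u, ⟪e, u⟫ = 0 → ⟪f, u⟫ = 0 → L u = u := by
  refine ⟨(rotE h (Real.pi / 2))⁻¹ * (scE h.he hb * rotE h (Real.pi / 2) * (scE h.he hb)⁻¹),
    (Loc_rotE h _).inv.mul ((Loc_rotE h _).conj _), ?_, ?_, ?_⟩
  · change rot e f (-(Real.pi / 2)) (sc e b (rot e f (Real.pi / 2) (sc e b⁻¹ e))) = _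
    simp only [sc_apply, rot_apply, pl_apply, qt_apply, Real.cos_neg, Real.cos_pi_div_two,
      Real.sin_neg, Real.sin_pi_div_two, inner_add_right, inner_smul_right, inner_sub_right,
      h.he, h.hf, h.hef, h.hfe]
    module
  · change rot e f (-(Real.pi / 2)) (sc e b (rot e f (Real.pi / 2) (sc e b⁻¹ f))) = _
    simp only [sc_apply, rot_apply, pl_apply, qt_apply, Real.cos_neg, Real.cos_pi_div_two,
      Real.sin_neg, Real.sin_pi_div_two, inner_add_right, inner_smul_right, inner_sub_right,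
      h.he, h.hf, h.hef, h.hfe]
    module
  · intro u h1 h2
    change rot e f (-(Real.pi / 2)) (sc e b (rot e f (Real.pi / 2) (sc e b⁻¹ u))) = _
    simp only [sc_apply, rot_apply, pl_apply, qt_apply, Real.cos_neg, Real.cos_pi_div_two,
      Real.sin_neg, Real.sin_pi_div_two, inner_add_right, inner_smul_right, inner_sub_right,
      h.he, h.hf, h.hef, h.hfe, h1, h2]
    module

variable {ι : Type*} [Fintype ι] [DecidableEq ι]

omit [FiniteDimensional ℝ E] [MeasurableSpace E] [BorelSpace E] [DecidableEq ι] in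
lemma OP_basis (B : OrthonormalBasis ι ℝ E) {i j : ι} (hij : i ≠ j) : OP (B i) (B j) := by
  refine ⟨?_, ?_, ?_⟩
  · rw [real_inner_self_eq_norm_sq, B.orthonormal.1]; norm_num
  · rw [real_inner_self_eq_norm_sq, B.orthonormal.1]; norm_num
  · exact B.orthonormal.2 hij

/-- The multidimensional squeeze. -/
lemma exists_squeeze_all (B : OrthonormalBasis ι ℝ E) (i1 : ι) {b : ℝ} (hb : b ≠ 0)
    (s : Finset ι) (hs : i1 ∉ s) :
    ∃ L : E ≃L[ℝ] E, Loc L ∧ L (B i1) = b ^ s.card • B i1 ∧ (∀ j ∈ s, L (B j) = b⁻¹ • B j) ∧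
      ∀ j, j ∉ s → j ≠ i1 → L (B j) = B j := by
  induction s using Finset.induction_on with
  | empty =>
    refine ⟨1, Loc.one, ?_, by simp, ?_⟩
    · rw [Finset.card_empty, pow_zero, one_smul]
      rfl
    · intro j _ _
      rfl
  | insert a s ha ih =>
    rw [Finset.mem_insert, not_or] at hs
    obtain ⟨L, hL, h1, h2, h3⟩ := ih hs.2
    obtain ⟨L', hL', g1, g2, g3⟩ := exists_squeeze (OP_basis B (Ne.symm hs.1)) hb
    refine ⟨L * L', hL.mul hL', ?_, ?_, ?_⟩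
    · change L (L' (B i1)) = _
      rw [g2, map_smul, h1, smul_smul, Finset.card_insert_of_notMem ha, pow_succ, mul_comm]
    · intro j hj
      change L (L' (B j)) = _
      rw [Finset.mem_insert] at hj
      rcases hj with rfl | hj
      · rw [g1, map_smul, h3 j ha (Ne.symm hs.1)]
      · have hja : j ≠ a := by rintro rfl; exact ha hj
        have hj1 : j ≠ i1 := by rintro rfl; exact hs.2 hj
        rw [g3 _ (B.orthonormal.2 (Ne.symm hja)) (B.orthonormal.2 (Ne.symm hj1)), h2 j hj]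
    · intro j hj hj1
      change L (L' (B j)) = _
      rw [Finset.mem_insert, not_or] at hj
      rw [g3 _ (B.orthonormal.2 (Ne.symm hj.1)) (B.orthonormal.2 (Ne.symm hj1)), h3 j hj.2 hj1]

omit [DecidableEq ι] in
/-- A localisable isometry moving a basis vector to a given direction. -/
lemma exists_rot_to (B : OrthonormalBasis ι ℝ E) {i0 i1 : ι} (h01 : i0 ≠ i1) {v : E}
    (hv : v ≠ 0) : ∃ g : E ≃L[ℝ] E, Loc g ∧ (∀ u, ‖g u‖ = ‖u‖) ∧ g (B i1) = ‖v‖⁻¹ • v := by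
  have hv0 : 0 < ‖v‖ := norm_pos_iff.mpr hv
  set f := B i1 with hf
  have hff : ⟪f, f⟫ = (1 : ℝ) := (OP_basis B h01).hf
  set w := v - ⟪f, v⟫ • f with hw
  have hfw : ⟪f, w⟫ = 0 := by
    rw [hw, inner_sub_right, inner_smul_right, hff]; ring
  obtain ⟨e', hop, t, ht⟩ : ∃ e' : E, OP f e' ∧ ∃ t : ℝ, w = t • e' := by
    by_cases h0 : w = 0
    · refine ⟨B i0, OP_basis B (Ne.symm h01), 0, ?_⟩
      rw [h0, zero_smul]
    · have hw0 : ‖w‖ ≠ 0 := norm_ne_zero_iff.mpr h0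
      refine ⟨‖w‖⁻¹ • w, ⟨hff, ?_, ?_⟩, ‖w‖, ?_⟩
      · rw [inner_smul_left, inner_smul_right, real_inner_self_eq_norm_sq]
        simp only [RCLike.conj_to_real]
        field_simp
      · rw [inner_smul_right, hfw, mul_zero]
      · rw [smul_smul, mul_inv_cancel₀ hw0, one_smul]
  set c := ⟪f, v⟫ with hc
  have hdec : v = c • f + t • e' := by
    rw [← ht, hw]; abel
  have hnorm : c ^ 2 + t ^ 2 = ‖v‖ ^ 2 := by
    rw [← real_inner_self_eq_norm_sq]
    conv_rhs => rw [hdec]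
    simp only [inner_add_left, inner_add_right, inner_smul_left, inner_smul_right, hop.he, hop.hf,
      hop.hef, hop.hfe, RCLike.conj_to_real]
    ring
  set z : ℂ := ⟨c, t⟩ with hz
  have hzn : ‖z‖ = ‖v‖ := by
    have h5 : ‖z‖ ^ 2 = ‖v‖ ^ 2 := by
      rw [Complex.sq_norm, Complex.normSq_apply]
      change c * c + t * t = ‖v‖ ^ 2
      linarith
    exact (sq_eq_sq₀ (norm_nonneg _) (norm_nonneg _)).mp h5
  have hz0 : z ≠ 0 := by
    rw [← norm_pos_iff, hzn]; exact hv0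
  refine ⟨rotE hop (Complex.arg z), Loc_rotE hop _, norm_rot hop _, ?_⟩
  rw [rotE_apply, rot_apply, Complex.cos_arg hz0, Complex.sin_arg, hzn, pl_apply, qt_apply, hop.he,
    hop.hfe]
  change f + (c / ‖v‖ - 1) • ((1 : ℝ) • f + (0 : ℝ) • e') +
    (t / ‖v‖) • ((1 : ℝ) • e' - (0 : ℝ) • f) = _
  conv_rhs => rw [hdec]
  have hv1 : ‖c • f + t • e'‖ = ‖v‖ := by rw [← hdec]
  rw [hv1]
  simp only [div_eq_mul_inv]
  module

/-- The linear part of the horseshoe. -/
lemma exists_linear_part (B : OrthonormalBasis ι ℝ E) {i0 i1 : ι} (h01 : i0 ≠ i1)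
    (A : E ≃L[ℝ] E) {κ : ℝ} (hκ : 0 < κ) :
    ∃ (Q : E ≃L[ℝ] E) (Λ : ℝ), Loc Q ∧ 1 / κ ≤ Λ ∧ A (Q (B i1)) = Λ • B i0 ∧
      ∀ j, j ≠ i1 → ‖A (Q (B j))‖ ≤ κ := by
  set v := A.symm (B i0) with hv
  have hB0 : B i0 ≠ 0 := by
    intro h
    have := B.orthonormal.1 i0
    rw [h, norm_zero] at this
    norm_num at this
  have hv0 : v ≠ 0 := by
    intro h
    apply hB0
    have := congrArg A h
    rwa [hv, A.apply_symm_apply, map_zero] at this
  have hvn : 0 < ‖v‖ := norm_pos_iff.mpr hv0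
  obtain ⟨g, hg, hgn, hgv⟩ := exists_rot_to B h01 hv0
  set b := 1 + ‖v‖ / κ + ‖(A : E →L[ℝ] E)‖ / κ with hb
  have hb1 : 1 ≤ b := by
    rw [hb]
    have : 0 ≤ ‖v‖ / κ := by positivity
    have : 0 ≤ ‖(A : E →L[ℝ] E)‖ / κ := by positivity
    linarith
  have hb0 : 0 < b := by linarith
  obtain ⟨S, hS, h1, h2, -⟩ := exists_squeeze_all B i1 hb0.ne' (Finset.univ.erase i1)
    (Finset.notMem_erase i1 _)
  set k := (Finset.univ.erase i1).card with hk
  have hk1 : 1 ≤ k := Finset.card_pos.mpr ⟨i0, Finset.mem_erase.mpr ⟨h01, Finset.mem_univ _⟩⟩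
  refine ⟨g * S, b ^ k * ‖v‖⁻¹, hg.mul hS, ?_, ?_, ?_⟩
  · have h3 : b ≤ b ^ k := le_self_pow₀ hb1 (by omega)
    have h4 : ‖v‖ / κ ≤ b := by
      rw [hb]
      have : 0 ≤ ‖(A : E →L[ℝ] E)‖ / κ := by positivity
      linarith
    rw [← div_eq_mul_inv, le_div_iff₀ hvn, one_div, inv_mul_eq_div]
    linarith
  · change A (g (S (B i1))) = _
    rw [h1, map_smul, map_smul, hgv, map_smul, hv, A.apply_symm_apply, smul_smul]
  · intro j hj
    change ‖A (g (S (B j)))‖ ≤ κ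
    rw [h2 j (Finset.mem_erase.mpr ⟨hj, Finset.mem_univ _⟩), map_smul, map_smul, norm_smul,
      Real.norm_of_nonneg (by positivity)]
    have h3 : ‖A (g (B j))‖ ≤ ‖(A : E →L[ℝ] E)‖ := by
      have := (A : E →L[ℝ] E).le_opNorm (g (B j))
      rw [hgn, B.orthonormal.1, mul_one] at this
      exact this
    have h4 : ‖(A : E →L[ℝ] E)‖ ≤ κ * b := by
      rw [hb]
      have : κ * (1 + ‖v‖ / κ + ‖(A : E →L[ℝ] E)‖ / κ) = κ + ‖v‖ + ‖(A : E →L[ℝ] E)‖ := by
        field_simp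
      rw [this]
      linarith
    rw [inv_mul_le_iff₀ hb0]
    linarith

end Pool.Agent.Lib_helper19.Ent
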