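import Mathlib
import Pool.Agent.Lib_helper19.Ent.Twist
import Pool.Agent.Lib_helper19.Ent.Germ
import Pool.Agent.Lib_helper19.Ent.Squeeze
import Pool.Agent.Lib_helper19.Ent.Horseshoe

set_option autoImplicit false

/-!
# A robust horseshoe near a linear map
-/

open Set Filter MeasureTheory
open scoped Topology RealInnerProductSpace NNReal ENNReal

namespace Pool.Agent.Lib_helper19.Ent

/-- One dimensional crossing lemma. -/
lemma exists_sub_crossing {f : ℝ → ℝ} {s t a b : ℝ} (hst : s ≤ t) (hf : ContinuousOn f (Icc s t))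
    (hab : a ≤ b) (hs : f s ≤ a) (ht : b ≤ f t) :
    ∃ s' t', s ≤ s' ∧ s' ≤ t' ∧ t' ≤ t ∧ f s' = a ∧ f t' = b ∧ ∀ τ ∈ Icc s' t', f τ ∈ Icc a b := by
  -- first time of value `b`
  have h1 : (Icc s t ∩ f ⁻¹' {b}).Nonempty := by
    obtain ⟨τ, hτ, hfτ⟩ := intermediate_value_Icc hst hf ⟨hs.trans hab, ht⟩
    exact ⟨τ, hτ, hfτ⟩
  have h2 : IsCompact (Icc s t ∩ f ⁻¹' {b}) :=
    isCompact_Icc.of_isClosed_subset (hf.preimage_isClosed_of_isClosed isClosed_Icc
      isClosed_singleton) inter_subset_left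
  obtain ⟨t', ⟨ht'1, ht'2⟩, ht'3⟩ := h2.exists_isLeast h1
  have ht'2 : f t' = b := ht'2
  have hf' : ContinuousOn f (Icc s t') := hf.mono (Icc_subset_Icc_right ht'1.2)
  -- last time of value `a` before
  have h3 : (Icc s t' ∩ f ⁻¹' {a}).Nonempty := by
    obtain ⟨τ, hτ, hfτ⟩ := intermediate_value_Icc ht'1.1 hf' ⟨hs, by rw [ht'2]; exact hab⟩
    exact ⟨τ, hτ, hfτ⟩
  have h4 : IsCompact (Icc s t' ∩ f ⁻¹' {a}) :=
    isCompact_Icc.of_isClosed_subset (hf'.preimage_isClosed_of_isClosed isClosed_Icc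
      isClosed_singleton) inter_subset_left
  obtain ⟨s', ⟨hs'1, hs'2⟩, hs'3⟩ := h4.exists_isGreatest h3
  have hs'2 : f s' = a := hs'2
  refine ⟨s', t', hs'1.1, hs'1.2, ht'1.2, hs'2, ht'2, ?_⟩
  intro τ hτ
  constructor
  · by_contra hcon
    push Not at hcon
    have hne : s' ≠ τ := by rintro rfl; linarith
    have hlt : s' < τ := lt_of_le_of_ne hτ.1 hne
    obtain ⟨τ', hτ', hfτ'⟩ := intermediate_value_Icc hτ.2
      (hf'.mono (Icc_subset_Icc_left (hs'1.1.trans hτ.1))) (show a ∈ Icc (f τ) (f t') from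
        ⟨hcon.le, by rw [ht'2]; exact hab⟩)
    have := hs'3 ⟨⟨(hs'1.1.trans hτ.1).trans hτ'.1, hτ'.2⟩, hfτ'⟩
    linarith [hτ'.1]
  · by_contra hcon
    push Not at hcon
    have hne : τ ≠ t' := by rintro rfl; linarith
    have hlt : τ < t' := lt_of_le_of_ne hτ.2 hne
    obtain ⟨τ', hτ', hfτ'⟩ := intermediate_value_Icc hτ.1
      (hf'.mono (Icc_subset_Icc hs'1.1 hτ.2)) (show b ∈ Icc (f s') (f τ) from
        ⟨by rw [hs'2]; exact hab, hcon.le⟩)
    have := ht'3 ⟨⟨hs'1.1.trans hτ'.1, (hτ'.2.trans hτ.2).trans ht'1.2⟩, hfτ'⟩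
    linarith [hτ'.2]

variable {E : Type*} [NormedAddCommGroup E] [InnerProductSpace ℝ E] [FiniteDimensional ℝ E]
  [MeasurableSpace E] [BorelSpace E] {ι : Type*} [Fintype ι] [DecidableEq ι]

/-- The box. -/
def box (B : OrthonormalBasis ι ℝ E) (i0 : ι) (ε : ℝ) : Set E :=
  {u | 1 ≤ ⟪B i0, u⟫ ∧ ⟪B i0, u⟫ ≤ 2 ∧ ∀ j, j ≠ i0 → |⟪B j, u⟫| ≤ ε}

omit [FiniteDimensional ℝ E] [MeasurableSpace E] [BorelSpace E] in
lemma norm_sq_box {B : OrthonormalBasis ι ℝ E} {i0 : ι} {ε : ℝ} {u : E} (hu : u ∈ box B i0 ε) :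
    ‖u‖ ^ 2 ≤ ⟪B i0, u⟫ ^ 2 + Fintype.card ι * ε ^ 2 := by
  rw [← B.sum_sq_norm_inner_right u, ← Finset.add_sum_erase _ _ (Finset.mem_univ i0)]
  have h1 : ∑ j ∈ Finset.univ.erase i0, ‖⟪B j, u⟫‖ ^ 2 ≤
      ∑ j ∈ Finset.univ.erase i0, ε ^ 2 := by
    apply Finset.sum_le_sum
    intro j hj
    have := hu.2.2 j (Finset.mem_erase.mp hj).1
    rw [Real.norm_eq_abs]
    exact pow_le_pow_left₀ (abs_nonneg _) this 2
  rw [Finset.sum_const, nsmul_eq_mul] at h1
  have h2 : ((Finset.univ.erase i0).card : ℝ) * ε ^ 2 ≤ Fintype.card ι * ε ^ 2 := by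
    apply mul_le_mul_of_nonneg_right _ (sq_nonneg ε)
    exact_mod_cast Finset.card_le_univ _
  rw [Real.norm_eq_abs, sq_abs]
  linarith

omit [FiniteDimensional ℝ E] [MeasurableSpace E] [BorelSpace E] [DecidableEq ι] in
lemma norm_sq_ge {B : OrthonormalBasis ι ℝ E} {i0 : ι} (u : E) :
    ⟪B i0, u⟫ ^ 2 ≤ ‖u‖ ^ 2 := by
  have h1 : |⟪B i0, u⟫| ≤ ‖u‖ := by
    have := abs_real_inner_le_norm (B i0) u
    rwa [B.orthonormal.1, one_mul] at this
  rw [← sq_abs]
  exact pow_le_pow_left₀ (abs_nonneg _) h1 2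

omit [FiniteDimensional ℝ E] [MeasurableSpace E] [BorelSpace E] [DecidableEq ι] [Fintype ι] in
lemma isClosed_box [Fintype ι] (B : OrthonormalBasis ι ℝ E) (i0 : ι) (ε : ℝ) :
    IsClosed (box B i0 ε) := by
  have hc : ∀ j, Continuous (fun u : E => ⟪B j, u⟫) := fun j =>
    continuous_const.inner continuous_id
  have e : box B i0 ε = {u | 1 ≤ ⟪B i0, u⟫} ∩ ({u | ⟪B i0, u⟫ ≤ 2} ∩
      ⋂ j, {u | j ≠ i0 → |⟪B j, u⟫| ≤ ε}) := by
    ext u
    simp [box]
  rw [e]
  refine (isClosed_le continuous_const (hc i0)).inter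
    ((isClosed_le (hc i0) continuous_const).inter (isClosed_iInter fun j => ?_))
  by_cases hj : j = i0
  · simp [hj]
  · have : {u : E | j ≠ i0 → |⟪B j, u⟫| ≤ ε} = {u | |⟪B j, u⟫| ≤ ε} := by
      ext u; simp [hj]
    rw [this]
    exact isClosed_le (hc j).abs continuous_const

omit [MeasurableSpace E] [BorelSpace E] in
lemma isCompact_box (B : OrthonormalBasis ι ℝ E) (i0 : ι) (ε : ℝ) :
    IsCompact (box B i0 ε) := by
  apply (isCompact_closedBall (0 : E) (4 + Fintype.card ι * ε ^ 2 + 1)).of_isClosed_subset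
    (isClosed_box B i0 ε)
  intro u hu
  rw [Metric.mem_closedBall, dist_zero_right]
  have h1 := norm_sq_box hu
  have h2 : ⟪B i0, u⟫ ^ 2 ≤ 4 := by
    have := hu.1
    have := hu.2.1
    nlinarith
  have h3 : 0 ≤ Fintype.card ι * ε ^ 2 := by positivity
  nlinarith [norm_nonneg u]

omit [FiniteDimensional ℝ E] [MeasurableSpace E] [BorelSpace E] [DecidableEq ι] in
lemma abs_inner_basis_le (B : OrthonormalBasis ι ℝ E) (j : ι) (u : E) : |⟪B j, u⟫| ≤ ‖u‖ := by
  have := abs_real_inner_le_norm (B j) u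
  rwa [B.orthonormal.1, one_mul] at this

omit [FiniteDimensional ℝ E] [MeasurableSpace E] [BorelSpace E] [DecidableEq ι] in
lemma inner_tw_i1 {B : OrthonormalBasis ι ℝ E} {i0 i1 : ι} (h01 : i0 ≠ i1) (θ : ℝ → ℝ) (u : E) :
    ⟪B i1, tw (B i0) (B i1) θ u⟫ =
      Real.sin (θ (‖u‖ ^ 2)) * ⟪B i0, u⟫ + Real.cos (θ (‖u‖ ^ 2)) * ⟪B i1, u⟫ := by
  have h := OP_basis B h01
  simp only [tw, rot_apply, pl_apply, qt_apply, inner_add_right, inner_smul_right,
    inner_sub_right, h.hf, h.hfe]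
  ring

/-- **The robust horseshoe.** -/
theorem exists_robust (B : OrthonormalBasis ι ℝ E) {i0 i1 : ι} (h01 : i0 ≠ i1)
    (A : E ≃L[ℝ] E) (N : ℕ) :
    ∃ (φ : E ≃ₜ E) (R : ℝ), CV φ R ∧ ∃ (Rg Lf Rf : Set E) (S : Fin N → Set E) (δ η : ℝ),
      0 < δ ∧ 0 < η ∧ IsCompact Rg ∧ (∃ γ s t, Crossing Rg Lf Rf γ s t) ∧
      (∀ i j, i ≠ j → ∀ x ∈ S i, ∀ y ∈ S j, δ ≤ dist x y) ∧ (∀ j, S j ⊆ Rg) ∧ Lf ⊆ Rg ∧
      Rf ⊆ Rg ∧ ∀ F : E → E, ContinuousOn F Rg → (∀ u ∈ Rg, ‖F u - A (φ u)‖ ≤ η) →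
        HorseshoeProp F Rg Lf Rf S := by
  have hπ := Real.pi_pos
  set n : ℝ := (Fintype.card ι : ℝ) with hn
  have hn1 : 1 ≤ n := by
    rw [hn]
    exact_mod_cast Fintype.card_pos_iff.mpr ⟨i0⟩
  have hn0 : 0 < n := by linarith
  set ε : ℝ := 1 / n with hε
  have hε0 : 0 < ε := by positivity
  have hε1 : ε ≤ 1 := by rw [hε, div_le_one hn0]; exact hn1
  have hnε : n * ε ^ 2 ≤ 1 := by
    have : n * ε ^ 2 = ε := by rw [hε]; field_simp
    rw [this]; exact hε1
  -- the strong twist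
  set θ : ℝ → ℝ := fun x => (2 * Real.pi * (N + 1)) * Real.smoothTransition ((x - 2) / 2) with hθdef
  have hθ : ContDiff ℝ 1 θ := by
    have h1 : ContDiff ℝ 1 Real.smoothTransition := Real.smoothTransition.contDiff
    exact contDiff_const.mul (h1.comp ((contDiff_id.sub contDiff_const).div_const 2))
  have hθ0 : ∀ x, x ≤ 2 → θ x = 0 := by
    intro x hx
    rw [hθdef]
    simp only
    rw [Real.smoothTransition.zero_of_nonpos (by linarith), mul_zero]
  have hθ1 : ∀ x, 4 ≤ x → θ x = 2 * Real.pi * (N + 1) := by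
    intro x hx
    rw [hθdef]
    simp only
    rw [Real.smoothTransition.one_of_one_le (by linarith), mul_one]
  have hT : CV (twHomeo (OP_basis B h01) hθ.continuous) 2 := by
    apply CV_tw (OP_basis B h01) hθ (by norm_num) (k := (N + 1 : ℕ))
    intro x hx
    rw [hθ1 x (by norm_num at hx; exact hx)]
    push_cast
    ring
  set T := twHomeo (OP_basis B h01) hθ.continuous with hTdef
  -- the linear part
  set κ : ℝ := ε / (16 * n) with hκ
  have hκ0 : 0 < κ := by positivity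
  obtain ⟨Q, Λ, hQ, hΛ, hQ1, hQ2⟩ := exists_linear_part B h01 A hκ0
  have hΛ16 : 16 ≤ Λ := by
    refine le_trans ?_ hΛ
    rw [hκ, le_div_iff₀ (by positivity)]
    rw [mul_div_assoc', div_le_iff₀ (by positivity)]
    nlinarith
  obtain ⟨ψ, R', hψ, eψ⟩ := hQ 3 (by norm_num)
  refine ⟨T.trans ψ, max 2 R', hT.trans hψ, ?_⟩
  set Rg := box B i0 ε with hRg
  have hRgc : IsCompact Rg := isCompact_box B i0 ε
  set g : E → ℝ := fun u => θ (‖u‖ ^ 2) with hg
  have hgc : Continuous g := hθ.continuous.comp (continuous_norm.pow 2)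
  -- uniform continuity
  obtain ⟨δ, hδ0, hδ⟩ := Metric.uniformContinuousOn_iff.mp
    (hRgc.uniformContinuousOn_of_continuous hgc.continuousOn) Real.pi hπ
  refine ⟨Rg, {u | u ∈ Rg ∧ ⟪B i0, u⟫ = 1}, {u | u ∈ Rg ∧ ⟪B i0, u⟫ = 2},
    fun j => {u | u ∈ Rg ∧ g u ∈ Icc (2 * Real.pi * (j + 1) - Real.pi / 2)
      (2 * Real.pi * (j + 1) + Real.pi / 2)}, δ, ε / 4, hδ0, by positivity, hRgc, ?_, ?_,
    fun j u hu => hu.1, fun u hu => hu.1, fun u hu => hu.1, ?_⟩
  · -- a crossing path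
    refine ⟨fun τ => τ • B i0, 1, 2, by norm_num, (continuous_id.smul continuous_const).continuousOn,
      ?_, ⟨?_, ?_⟩, ⟨?_, ?_⟩⟩
    all_goals
      first
      | (intro τ hτ
         refine ⟨?_, ?_, ?_⟩
         · rw [inner_smul_right, (OP_basis B h01).he, mul_one]; exact hτ.1
         · rw [inner_smul_right, (OP_basis B h01).he, mul_one]; exact hτ.2
         · intro j hj
           rw [inner_smul_right, B.orthonormal.2 hj, mul_zero, abs_zero]
           exact hε0.le)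
      | (refine ⟨?_, ?_, ?_⟩
         · rw [inner_smul_right, (OP_basis B h01).he, mul_one] <;> norm_num
         · rw [inner_smul_right, (OP_basis B h01).he, mul_one] <;> norm_num
         · intro j hj
           rw [inner_smul_right, B.orthonormal.2 hj, mul_zero, abs_zero]
           exact hε0.le)
      | (rw [inner_smul_right, (OP_basis B h01).he, mul_one])
  · -- separation
    intro i j hij x hx y hy
    by_contra hcon
    push Not at hcon
    have h1 := hδ x hx.1 y hy.1 hcon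
    rw [Real.dist_eq, abs_lt] at h1
    have hx1 := hx.2
    have hy1 := hy.2
    rcases lt_or_gt_of_ne hij with h | h
    · have h2 : (i : ℝ) + 1 ≤ j := by exact_mod_cast h
      have := hx1.2
      have := hy1.1
      nlinarith
    · have h2 : (j : ℝ) + 1 ≤ i := by exact_mod_cast h
      have := hx1.1
      have := hy1.2
      nlinarith
  · -- the horseshoe property
    intro F hF hFA γ s t hγ j
    have hRgnorm : ∀ u ∈ Rg, ‖u‖ ≤ 3 := by
      intro u hu
      have h1 := norm_sq_box hu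
      have h2 : ⟪B i0, u⟫ ^ 2 ≤ 4 := by
        have := hu.1
        have := hu.2.1
        nlinarith
      by_contra hcon
      push Not at hcon
      nlinarith
    -- approximate form of `F`
    have hFu : ∀ u ∈ Rg, ‖F u - (⟪B i1, T u⟫ * Λ) • B i0‖ ≤ ε / 2 := by
      intro u hu
      have h1 : (T.trans ψ) u = Q (T u) := by
        rw [Homeomorph.trans_apply]
        apply eψ
        rw [hTdef, twHomeo_apply, norm_tw (OP_basis B h01)]
        exact hRgnorm u hu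
      have hTn : ‖T u‖ ≤ 3 := by
        rw [hTdef, twHomeo_apply, norm_tw (OP_basis B h01)]
        exact hRgnorm u hu
      have h2 := hFA u hu
      rw [h1] at h2
      have h3 : A (Q (T u)) - (⟪B i1, T u⟫ * Λ) • B i0 =
          ∑ k ∈ Finset.univ.erase i1, ⟪B k, T u⟫ • A (Q (B k)) := by
        conv_lhs => rw [← B.sum_repr' (T u)]
        rw [← Finset.add_sum_erase _ _ (Finset.mem_univ i1), map_add, map_add, map_smul, map_smul,
          hQ1, smul_smul, map_sum, map_sum]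
        simp only [map_smul]
        have h4 : ⟪B i1, ⟪B i1, T u⟫ • B i1 + ∑ x ∈ Finset.univ.erase i1, ⟪B x, T u⟫ • B x⟫ =
            ⟪B i1, T u⟫ := by
          rw [Finset.add_sum_erase Finset.univ (fun x => ⟪B x, T u⟫ • B x) (Finset.mem_univ i1),
            B.sum_repr' (T u)]
        rw [h4]
        abel
      have h5 : ‖A (Q (T u)) - (⟪B i1, T u⟫ * Λ) • B i0‖ ≤ ε / 4 := by
        rw [h3]
        calc ‖∑ k ∈ Finset.univ.erase i1, ⟪B k, T u⟫ • A (Q (B k))‖
            ≤ ∑ k ∈ Finset.univ.erase i1, ‖⟪B k, T u⟫ • A (Q (B k))‖ := norm_sum_le _ _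
          _ ≤ ∑ k ∈ Finset.univ.erase i1, 3 * κ := by
              apply Finset.sum_le_sum
              intro k hk
              rw [norm_smul, Real.norm_eq_abs]
              exact mul_le_mul ((abs_inner_basis_le B k _).trans hTn)
                (hQ2 k (Finset.mem_erase.mp hk).1) (norm_nonneg _) (by norm_num)
          _ ≤ n * (3 * κ) := by
              rw [Finset.sum_const, nsmul_eq_mul]
              apply mul_le_mul_of_nonneg_right _ (by positivity)
              rw [hn]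
              exact_mod_cast Finset.card_le_univ _
          _ ≤ ε / 4 := by
              rw [hκ]
              have : n * (3 * (ε / (16 * n))) = 3 * ε / 16 := by field_simp
              rw [this]
              linarith
      calc ‖F u - (⟪B i1, T u⟫ * Λ) • B i0‖
          = ‖(F u - A (Q (T u))) + (A (Q (T u)) - (⟪B i1, T u⟫ * Λ) • B i0)‖ := by
            congr 1; abel
        _ ≤ ε / 4 + ε / 4 := (norm_add_le _ _).trans (add_le_add h2 h5)
        _ = ε / 2 := by ring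
    have hFj : ∀ u ∈ Rg, ∀ k, k ≠ i0 → |⟪B k, F u⟫| ≤ ε := by
      intro u hu k hk
      have h1 : ⟪B k, F u⟫ = ⟪B k, F u - (⟪B i1, T u⟫ * Λ) • B i0⟫ := by
        rw [inner_sub_right, inner_smul_right, B.orthonormal.2 hk, mul_zero, sub_zero]
      rw [h1]
      refine (abs_inner_basis_le B k _).trans ((hFu u hu).trans ?_)
      linarith
    have hF0 : ∀ u ∈ Rg, |⟪B i0, F u⟫ - ⟪B i1, T u⟫ * Λ| ≤ 1 / 2 := by
      intro u hu
      have h1 : ⟪B i0, F u⟫ - ⟪B i1, T u⟫ * Λ = ⟪B i0, F u - (⟪B i1, T u⟫ * Λ) • B i0⟫ := by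
        rw [inner_sub_right, inner_smul_right, (OP_basis B h01).he, mul_one]
      rw [h1]
      refine (abs_inner_basis_le B i0 _).trans ((hFu u hu).trans ?_)
      linarith
    have hγc : ContinuousOn (fun τ => g (γ τ)) (Icc s t) :=
      hgc.comp_continuousOn hγ.cont
    -- values of the angle at the end points
    have hgs : g (γ s) = 0 := by
      apply hθ0
      have h1 := norm_sq_box hγ.left.1
      have h2 : ⟪B i0, γ s⟫ = 1 := hγ.left.2
      rw [h2] at h1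
      linarith
    have hgt : g (γ t) = 2 * Real.pi * (N + 1) := by
      apply hθ1
      have h1 := norm_sq_ge (B := B) (i0 := i0) (γ t)
      have h2 : ⟪B i0, γ t⟫ = 2 := hγ.right.2
      rw [h2] at h1
      linarith
    have hj0 : (0 : ℝ) ≤ (j : ℝ) := Nat.cast_nonneg _
    have hjN : ((j : ℕ) : ℝ) + 1 ≤ N := by exact_mod_cast j.2
    obtain ⟨s1, t1, a1, a2, a3, a4, a5, a6⟩ := exists_sub_crossing hγ.le hγc
      (a := 2 * Real.pi * (j + 1) - Real.pi / 2) (b := 2 * Real.pi * (j + 1) + Real.pi / 2)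
      (by linarith) (by rw [hgs]; nlinarith) (by rw [hgt]; nlinarith)
    have hsub : Icc s1 t1 ⊆ Icc s t := Icc_subset_Icc a1 a3
    have hFγ : ContinuousOn (F ∘ γ) (Icc s1 t1) :=
      hF.comp (hγ.cont.mono hsub) (fun τ hτ => hγ.mem τ (hsub hτ))
    have hxc : ContinuousOn (fun τ => ⟪B i0, F (γ τ)⟫) (Icc s1 t1) :=
      (continuous_const.inner continuous_id).comp_continuousOn hFγ
    have hms1 : γ s1 ∈ Rg := hγ.mem _ (hsub (left_mem_Icc.mpr a2))
    have hmt1 : γ t1 ∈ Rg := hγ.mem _ (hsub (right_mem_Icc.mpr a2))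
    have hxs : ⟪B i0, F (γ s1)⟫ ≤ 1 := by
      have h1 := hF0 _ hms1
      rw [hTdef, twHomeo_apply, inner_tw_i1 h01] at h1
      have h2 : θ (‖γ s1‖ ^ 2) = -(Real.pi / 2) + ((j + 1 : ℕ) : ℤ) * (2 * Real.pi) := by
        have : θ (‖γ s1‖ ^ 2) = 2 * Real.pi * (j + 1) - Real.pi / 2 := a4
        rw [this]; push_cast; ring
      rw [h2, Real.sin_add_int_mul_two_pi, Real.cos_add_int_mul_two_pi, Real.sin_neg,
        Real.cos_neg, Real.sin_pi_div_two, Real.cos_pi_div_two] at h1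
      have h3 := hms1.1
      rw [abs_le] at h1
      nlinarith [h1.2]
    have hxt : 2 ≤ ⟪B i0, F (γ t1)⟫ := by
      have h1 := hF0 _ hmt1
      rw [hTdef, twHomeo_apply, inner_tw_i1 h01] at h1
      have h2 : θ (‖γ t1‖ ^ 2) = (Real.pi / 2) + ((j + 1 : ℕ) : ℤ) * (2 * Real.pi) := by
        have : θ (‖γ t1‖ ^ 2) = 2 * Real.pi * (j + 1) + Real.pi / 2 := a5
        rw [this]; push_cast; ring
      rw [h2, Real.sin_add_int_mul_two_pi, Real.cos_add_int_mul_two_pi,
        Real.sin_pi_div_two, Real.cos_pi_div_two] at h1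
      have h3 := hmt1.1
      rw [abs_le] at h1
      nlinarith [h1.1]
    obtain ⟨s2, t2, b1, b2, b3, b4, b5, b6⟩ := exists_sub_crossing a2 hxc
      (a := 1) (b := 2) (by norm_num) hxs hxt
    have hsub2 : Icc s2 t2 ⊆ Icc s1 t1 := Icc_subset_Icc b1 b3
    have hmem2 : ∀ τ ∈ Icc s2 t2, (F ∘ γ) τ ∈ Rg := by
      intro τ hτ
      exact ⟨(b6 τ hτ).1, (b6 τ hτ).2, fun k hk => hFj _ (hγ.mem τ (hsub (hsub2 hτ))) k hk⟩
    refine ⟨s2, t2, a1.trans b1, b3.trans a3, ?_, b2, hFγ.mono hsub2, hmem2, ?_, ?_⟩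
    · intro τ hτ
      exact ⟨hγ.mem τ (hsub (hsub2 hτ)), a6 τ (hsub2 hτ)⟩
    · exact ⟨hmem2 s2 (left_mem_Icc.mpr b2), b4⟩
    · exact ⟨hmem2 t2 (right_mem_Icc.mpr b2), b5⟩

end Pool.Agent.Lib_helper19.Ent
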