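import Mathlib
import Pool.Agent.Lib_helper19.Ent.Twist
import Pool.Agent.Lib_helper19.Ent.Germ
import Pool.Agent.Lib_helper19.Ent.Local
import Pool.Agent.Lib_helper19.Ent.Flat
import Pool.Agent.Lib_helper19.Ent.Squeeze
import Pool.Agent.Lib_helper19.Ent.Horseshoe
import Pool.Agent.Lib_helper19.Ent.Robust

set_option autoImplicit false
set_option linter.unusedSectionVars false

/-!
# Creating a robust horseshoe near a periodic point
-/

open Set Filter MeasureTheory Metric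
open scoped Topology RealInnerProductSpace NNReal ENNReal

namespace Pool.Agent.Lib_helper19.Ent

lemma HorseshoeProp.transfer {X Y ι : Type*} [TopologicalSpace X] [TopologicalSpace Y] {F : Y → Y}
    {Φ : X → X} {Rg Lf Rf : Set Y} {S : ι → Set Y} (k : Y → X) (q : X → Y) (hLf : Lf ⊆ Rg)
    (hRf : Rf ⊆ Rg) (hqk : ∀ u ∈ Rg, q (k u) = u)
    (hkc : ContinuousOn k Rg) (hqc : ContinuousOn q (k '' Rg))
    (hcomm : ∀ u ∈ Rg, F u ∈ Rg → Φ (k u) = k (F u)) (h : HorseshoeProp F Rg Lf Rf S) :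
    HorseshoeProp Φ (k '' Rg) (k '' Lf) (k '' Rf) (fun j => k '' S j) := by
  intro γ s t hγ j
  have hk : ∀ τ ∈ Icc s t, q (γ τ) ∈ Rg ∧ k (q (γ τ)) = γ τ := by
    intro τ hτ
    obtain ⟨u, hu, hu2⟩ := hγ.mem τ hτ
    rw [← hu2, hqk u hu]
    exact ⟨hu, rfl⟩
  have hc : Crossing Rg Lf Rf (q ∘ γ) s t := by
    refine ⟨hγ.le, hqc.comp hγ.cont (fun τ hτ => hγ.mem τ hτ), fun τ hτ => (hk τ hτ).1, ?_, ?_⟩
    · obtain ⟨u, hu, hu2⟩ := hγ.left
      rw [Function.comp_apply, ← hu2, hqk u (hLf hu)]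
      exact hu
    · obtain ⟨u, hu, hu2⟩ := hγ.right
      rw [Function.comp_apply, ← hu2, hqk u (hRf hu)]
      exact hu
  obtain ⟨s', t', h1, h2, h3, h4⟩ := h _ _ _ hc j
  have hsub : Icc s' t' ⊆ Icc s t := Icc_subset_Icc h1 h2
  have heq : ∀ τ ∈ Icc s' t', (Φ ∘ γ) τ = k ((F ∘ (q ∘ γ)) τ) := by
    intro τ hτ
    have h5 := hk τ (hsub hτ)
    have h6 := hcomm (q (γ τ)) h5.1 (h4.mem τ hτ)
    rw [h5.2] at h6
    exact h6
  refine ⟨s', t', h1, h2, ?_, h4.le, ?_, ?_, ?_, ?_⟩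
  · intro τ hτ
    exact ⟨q (γ τ), h3 τ hτ, (hk τ (hsub hτ)).2⟩
  · exact (hkc.comp h4.cont (fun τ hτ => h4.mem τ hτ)).congr heq
  · intro τ hτ
    rw [heq τ hτ]
    exact mem_image_of_mem k (h4.mem τ hτ)
  · rw [heq s' (left_mem_Icc.mpr h4.le)]
    exact mem_image_of_mem k h4.left
  · rw [heq t' (right_mem_Icc.mpr h4.le)]
    exact mem_image_of_mem k h4.right

/-- Orbits of nearby maps. -/
lemma dist_iterate_le {X : Type*} [PseudoMetricSpace X] {f g : X → X} {K : ℝ≥0}
    (hf : LipschitzWith K f) {η : ℝ} (h : ∀ x, dist (g x) (f x) ≤ η) (n : ℕ) (x : X) :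
    dist (g^[n] x) (f^[n] x) ≤ η * ∑ i ∈ Finset.range n, (K : ℝ) ^ i := by
  induction n with
  | zero => simp
  | succ n ih =>
    rw [Function.iterate_succ_apply', Function.iterate_succ_apply']
    calc dist (g (g^[n] x)) (f (f^[n] x))
        ≤ dist (g (g^[n] x)) (f (g^[n] x)) + dist (f (g^[n] x)) (f (f^[n] x)) :=
          dist_triangle _ _ _
      _ ≤ η + K * (η * ∑ i ∈ Finset.range n, (K : ℝ) ^ i) := by
          gcongr
          · exact h _
          · exact (hf.dist_le_mul _ _).trans (mul_le_mul_of_nonneg_left ih K.2)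
      _ = η * ∑ i ∈ Finset.range (n + 1), (K : ℝ) ^ i := by
          rw [Finset.sum_range_succ', pow_zero, mul_add, mul_one, Finset.mul_sum, Finset.mul_sum,
            Finset.mul_sum, add_comm]
          congr 1
          apply Finset.sum_congr rfl
          intro i _
          ring

/-- `f` and `g` agree off a closed set of small measure, are Lipschitz with a controlled constant
and are uniformly close. -/
def Near {X : Type*} [MetricSpace X] [MeasurableSpace X] (μ : Measure X) (p ε : ℝ) (f g : X → X) :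
    Prop :=
  ∃ (Z : Set X) (K : ℝ≥0), IsClosed Z ∧ (∀ x, x ∉ Z → f x = g x) ∧ LipschitzWith K f ∧
    LipschitzWith K g ∧ μ Z * (K : ℝ≥0∞) ^ p < ENNReal.ofReal ε ∧ ∀ x, dist (f x) (g x) < ε

section

variable {X E : Type*} [MetricSpace X] [MeasurableSpace X] [BorelSpace X] {μ : Measure X}
    [NormedAddCommGroup E] [InnerProductSpace ℝ E] [FiniteDimensional ℝ E]
    [MeasurableSpace E] [BorelSpace E] (fc : FlatChart X E μ)

include fc in
lemma FlatChart.extFun_eq_self {φ : E → E} {α : E} {s : ℝ}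
    (h : ∀ u, s < ‖u - α‖ → φ u = u) {x : X} (hx : x ∉ fc.κ '' (closedBall α s ∩ ball 0 2)) :
    fc.extFun φ x = x := by
  by_cases hU : x ∈ fc.U
  · rw [fc.extFun_of_mem hU, h, fc.κψ x hU]
    by_contra hcon
    push Not at hcon
    apply hx
    exact ⟨fc.ψ x, ⟨by rwa [mem_closedBall, dist_eq_norm], fc.ψ_mem x hU⟩, fc.κψ x hU⟩
  · exact fc.extFun_of_notMem hU

/-- The volume of small balls is small. -/
lemma tendsto_volume_closedBall [Nontrivial E] (α : E) :
    Tendsto (fun s : ℝ => volume (closedBall α s)) (𝓝[>] 0) (𝓝 0) := by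
  have h1 : Tendsto (fun s : ℝ => ENNReal.ofReal (s ^ Module.finrank ℝ E) *
      volume (closedBall (0 : E) 1)) (𝓝[>] 0) (𝓝 (0 * volume (closedBall (0 : E) 1))) := by
    apply ENNReal.Tendsto.mul_const
    · have h2 : Tendsto (fun s : ℝ => s ^ Module.finrank ℝ E) (𝓝[>] 0)
          (𝓝 (0 ^ Module.finrank ℝ E)) :=
        ((continuous_pow _).tendsto 0).mono_left nhdsWithin_le_nhds
      rw [zero_pow (Module.finrank_pos).ne'] at h2
      have := ENNReal.tendsto_ofReal h2
      simpa using this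
    · right
      exact measure_closedBall_lt_top.ne
  rw [zero_mul] at h1
  apply h1.congr'
  filter_upwards [self_mem_nhdsWithin] with s hs
  rw [Measure.addHaar_closedBall' volume α (le_of_lt hs)]

/-- A ball outside of which a homeomorphism is the identity is mapped to itself. -/
lemma map_closedBall_of_id {φ : E → E} (hinj : Function.Injective φ) {α : E} {s : ℝ}
    (h : ∀ u, s < ‖u - α‖ → φ u = u) {u : E} (hu : ‖u - α‖ ≤ s) : ‖φ u - α‖ ≤ s := by
  by_contra hcon
  push Not at hcon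
  have := hinj (h _ hcon)
  rw [this] at hcon
  linarith

include fc in
/-- **Second step**: a robust horseshoe near a periodic point. -/
theorem horseshoe_step [Nontrivial E] {ι : Type*} [Fintype ι] [DecidableEq ι]
    (B : OrthonormalBasis ι ℝ E)
    {i0 i1 : ι} (h01 : i0 ≠ i1) {f1 : X ≃ₜ X} {K1 : ℝ≥0} (hf1 : LipschitzWith K1 f1)
    (hmp : MeasurePreserving f1 μ μ) {n : ℕ} (hn : 0 < n) {α : E} (hα : ‖α‖ < 1)
    (hper : f1^[n] (fc.κ α) = fc.κ α) (hmin : ∀ k, 0 < k → k < n → f1^[k] (fc.κ α) ≠ fc.κ α)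
    {A : E ≃L[ℝ] E} (hA : HasFDerivAt (fun u => fc.ψ (f1^[n] (fc.κ u))) (A : E →L[ℝ] E) α)
    (h0 : ℝ) {p ε : ℝ} (hp : 0 < p) (hε : 0 < ε) :
    ∃ f2 : X ≃ₜ X, (∃ K2 : ℝ≥0, LipschitzWith K2 f2) ∧ MeasurePreserving f2 μ μ ∧
      Near μ p ε f2 f1 ∧ ∃ η > 0, ∀ f' : X → X, Continuous f' → (∀ x, dist (f' x) (f2 x) < η) →
        (h0 : EReal) ≤ Dynamics.coverEntropy f' univ := by
  obtain ⟨N, hN⟩ := exists_nat_ge (Real.exp (h0 * n))
  obtain ⟨φ, R0, hφ0, Rg, Lf, Rf, S, δ, η0, hδ, hη0, hRgc, ⟨γ0, s0, t0, hγ0⟩, hsep, hSs, hLf, hRf,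
    hF⟩ := exists_robust B h01 A N
  -- a common bound
  obtain ⟨M, hM1, hφ, hMRg, hMφ⟩ : ∃ M : ℝ, 1 ≤ M ∧ CV φ M ∧ (∀ u ∈ Rg, ‖u‖ ≤ M) ∧
      ∀ u ∈ Rg, ‖φ u‖ ≤ M := by
    obtain ⟨a, ha⟩ := hRgc.isBounded.exists_norm_le
    obtain ⟨b, hb⟩ := (hRgc.image φ.continuous).isBounded.exists_norm_le
    refine ⟨max (max R0 1) (max a b), (le_max_right R0 1).trans (le_max_left _ _),
      hφ0.mono ((le_max_left R0 1).trans (le_max_left _ _)), ?_, ?_⟩
    · intro u hu
      exact (ha u hu).trans ((le_max_left a b).trans (le_max_right _ _))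
    · intro u hu
      exact (hb _ (mem_image_of_mem φ hu)).trans ((le_max_right a b).trans (le_max_right _ _))
  have hM0 : 0 < M := by linarith
  obtain ⟨Kφ, hKφ⟩ := hφ.lip
  set K2 : ℝ≥0 := K1 * fc.extK Kφ with hK2
  set K : ℝ≥0 := max K1 K2 with hK
  have hC : (0 : ℝ) ≤ fc.C := fc.C.2
  have hα2 : α ∈ ball (0 : E) 2 := by rw [mem_ball_zero_iff]; linarith
  have hnhds : ball (0 : E) 2 ∈ 𝓝 α := isOpen_ball.mem_nhds hα2
  have hκc : ContinuousAt fc.κ α := (fc.continuousOn_κ).continuousAt hnhds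
  -- conditions on the size
  have e1 : ∀ᶠ s : ℝ in 𝓝[>] 0, s < 1 - ‖α‖ := by
    apply Filter.Eventually.filter_mono nhdsWithin_le_nhds
    exact gt_mem_nhds (by linarith)
  have e2 : ∀ᶠ s : ℝ in 𝓝[>] 0, ∀ k ∈ Finset.range n, 0 < k →
      ∀ u v : E, ‖u - α‖ ≤ s → ‖v - α‖ ≤ s → f1^[k] (fc.κ u) ≠ fc.κ v := by
    rw [Filter.eventually_all_finset]
    intro k hk
    by_cases hk0 : 0 < k
    · have hne := hmin k hk0 (Finset.mem_range.mp hk)
      have hfk : ContinuousAt (fun u => f1^[k] (fc.κ u)) α :=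
        (f1.continuous.iterate k).continuousAt.comp hκc
      have h1 : ∀ᶠ q : E × E in 𝓝 (α, α), f1^[k] (fc.κ q.1) ≠ fc.κ q.2 := by
        have h2 : ContinuousAt (fun q : E × E => f1^[k] (fc.κ q.1)) (α, α) :=
          ContinuousAt.comp (x := (α, α)) (f := Prod.fst) hfk continuousAt_fst
        have h3 : ContinuousAt (fun q : E × E => fc.κ q.2) (α, α) :=
          ContinuousAt.comp (x := (α, α)) (f := Prod.snd) hκc continuousAt_snd
        exact (h2.prodMk h3).preimage_mem_nhds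
          ((isOpen_ne_fun continuous_fst continuous_snd).mem_nhds hne)
      rw [Metric.eventually_nhds_iff] at h1
      obtain ⟨d, hd, h1⟩ := h1
      have h4 : ∀ᶠ s : ℝ in 𝓝[>] 0, s < d :=
        Filter.Eventually.filter_mono nhdsWithin_le_nhds (gt_mem_nhds hd)
      filter_upwards [h4] with s hs _ u v hu hv
      refine h1 (y := (u, v)) ?_
      rw [Prod.dist_eq, max_lt_iff]
      simp only [dist_eq_norm]
      exact ⟨lt_of_le_of_lt hu hs, lt_of_le_of_lt hv hs⟩
    · filter_upwards with s h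
      exact absurd h hk0
  have e3 : ∀ᶠ s : ℝ in 𝓝[>] 0, ∀ v : E, ‖v‖ ≤ s →
      ‖fc.ψ (f1^[n] (fc.κ (α + v))) - α - A v‖ ≤ (η0 / (2 * M)) * ‖v‖ := by
    have h1 := hA.isLittleO
    rw [Asymptotics.isLittleO_iff] at h1
    have h2 := h1 (show 0 < η0 / (2 * M) by positivity)
    rw [Metric.eventually_nhds_iff] at h2
    obtain ⟨d, hd, h2⟩ := h2
    have h4 : ∀ᶠ s : ℝ in 𝓝[>] 0, s < d :=
      Filter.Eventually.filter_mono nhdsWithin_le_nhds (gt_mem_nhds hd)
    filter_upwards [h4] with s hs v hv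
    have h5 := h2 (y := α + v) (by rw [dist_eq_norm, add_sub_cancel_left]; linarith)
    rw [add_sub_cancel_left] at h5
    rw [hper, fc.ψκ α hα2] at h5
    exact h5
  have e4 : ∀ᶠ s : ℝ in 𝓝[>] 0, ∀ v : E, ‖v‖ ≤ s →
      ∃ w ∈ closedBall (0 : E) 1, f1^[n] (fc.κ (α + v)) = fc.κ w := by
    have hfk : ContinuousAt (fun u => f1^[n] (fc.κ u)) α :=
      (f1.continuous.iterate n).continuousAt.comp hκc
    have ho : IsOpen (fc.κ '' ball (0 : E) 1) := fc.isOpen_image (ball_subset_ball (by norm_num)) isOpen_ball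
    have h1 : ∀ᶠ u in 𝓝 α, f1^[n] (fc.κ u) ∈ fc.κ '' ball (0 : E) 1 := by
      apply hfk.eventually_mem
      rw [hper]
      exact ho.mem_nhds (mem_image_of_mem _ (by rw [mem_ball_zero_iff]; exact hα))
    rw [Metric.eventually_nhds_iff] at h1
    obtain ⟨d, hd, h2⟩ := h1
    have h4 : ∀ᶠ s : ℝ in 𝓝[>] 0, s < d :=
      Filter.Eventually.filter_mono nhdsWithin_le_nhds (gt_mem_nhds hd)
    filter_upwards [h4] with s hs v hv
    obtain ⟨w, hw, hw2⟩ := h2 (y := α + v) (by rw [dist_eq_norm, add_sub_cancel_left]; linarith)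
    exact ⟨w, ball_subset_closedBall hw, hw2.symm⟩
  have e5 : ∀ᶠ s : ℝ in 𝓝[>] 0, fc.c * volume (closedBall α s) * (K : ℝ≥0∞) ^ p <
      ENNReal.ofReal ε := by
    have h1 : Tendsto (fun s : ℝ => fc.c * volume (closedBall α s) * (K : ℝ≥0∞) ^ p) (𝓝[>] 0)
        (𝓝 (fc.c * 0 * (K : ℝ≥0∞) ^ p)) := by
      apply ENNReal.Tendsto.mul_const
      · exact ENNReal.Tendsto.const_mul (tendsto_volume_closedBall α) (Or.inr fc.c_ne_top)
      · right
        exact ENNReal.rpow_ne_top_of_nonneg hp.le ENNReal.coe_ne_top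
    rw [mul_zero, zero_mul] at h1
    exact h1.eventually (gt_mem_nhds (ENNReal.ofReal_pos.mpr hε))
  have e6 : ∀ᶠ s : ℝ in 𝓝[>] 0, K1 * (fc.C * (2 * s)) < ε := by
    have h1 : Tendsto (fun s : ℝ => (K1 : ℝ) * (fc.C * (2 * s))) (𝓝[>] 0) (𝓝 (K1 * (fc.C * (2 * 0)))) := by
      apply Tendsto.mono_left _ nhdsWithin_le_nhds
      exact (tendsto_id.const_mul (2 : ℝ)).const_mul _ |>.const_mul _
    rw [mul_zero, mul_zero, mul_zero] at h1
    exact h1.eventually (gt_mem_nhds hε)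
  obtain ⟨s, hs0, hs1, hs2, hs3, hs4, hs5, hs6⟩ :=
    ((eventually_mem_nhdsWithin.and (e1.and (e2.and (e3.and (e4.and (e5.and e6)))))).exists)
  have hs0 : 0 < s := hs0
  -- the local map
  set r : ℝ := s / M with hr
  have hr0 : 0 < r := by positivity
  have hrM : r * M = s := by rw [hr]; field_simp
  set φr := tcj α r hr0.ne' φ with hφr
  have hout : ∀ u, s ≤ ‖u - α‖ → φr u = u := by
    intro u hu
    exact tcj_out α hr0 hφ.id_out u (by rw [hrM]; exact hu)
  have hout' : ∀ u, s < ‖u - α‖ → φr u = u := fun u hu => hout u hu.le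
  have hone : ∀ u, 1 ≤ ‖u‖ → φr u = u := by
    intro u hu
    apply hout
    have := norm_sub_norm_le u α
    linarith
  have hlip : LipschitzWith Kφ φr := lipschitz_tcj α hr0.ne' hKφ
  have hlip' : ∃ K : ℝ≥0, LipschitzWith K φr.symm := by
    obtain ⟨C', hC'⟩ := hφ.lip_symm
    refine ⟨C', ?_⟩
    have e : φr.symm = tcj α r hr0.ne' φ.symm := rfl
    rw [e]
    exact lipschitz_tcj α hr0.ne' hC'
  have hmpr : MeasurePreserving φr (volume : Measure E) volume :=
    measurePreserving_tcj α hr0.ne' hφ.mp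
  set g := fc.ext φr hone ⟨Kφ, hlip⟩ hlip' with hg
  have hgmp : MeasurePreserving g μ μ := fc.measurePreserving_ext φr hone _ _ hmpr
  have hglip : LipschitzWith (fc.extK Kφ) g := fc.lipschitz_extFun φr.injective hone hlip
  set f2 : X ≃ₜ X := g.trans f1 with hf2
  have hf2a : ∀ x, f2 x = f1 (g x) := fun x => rfl
  have hf2lip : LipschitzWith K2 f2 := hf1.comp hglip
  set Z : Set X := fc.κ '' closedBall α s with hZ
  have hcb : closedBall α s ⊆ ball (0 : E) 2 := by
    intro u hu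
    rw [mem_closedBall, dist_eq_norm] at hu
    rw [mem_ball_zero_iff]
    have := norm_sub_norm_le u α
    linarith
  have hgZ : ∀ x, x ∉ Z → g x = x := by
    intro x hx
    apply fc.extFun_eq_self hout'
    rwa [inter_eq_left.mpr hcb]
  have hball : ∀ v : E, ‖v‖ ≤ s → α + v ∈ ball (0 : E) 2 := by
    intro v hv
    apply hcb
    rw [mem_closedBall, dist_eq_norm, add_sub_cancel_left]
    exact hv
  have hrv : ∀ v : E, ‖v‖ ≤ M → ‖r • v‖ ≤ s := by
    intro v hv
    rw [norm_smul, Real.norm_of_nonneg hr0.le, ← hrM]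
    exact mul_le_mul_of_nonneg_left hv hr0.le
  have hgκ : ∀ u ∈ Rg, g (fc.κ (α + r • u)) = fc.κ (α + r • φ u) := by
    intro u hu
    change fc.extFun φr (fc.κ (α + r • u)) = _
    rw [fc.extFun_κ (hball _ (hrv u (hMRg u hu))), hφr, tcj_aff]
  -- iterates of `f2` on the region
  have hit : ∀ u ∈ Rg, ∀ k, 0 < k → k ≤ n →
      f2^[k] (fc.κ (α + r • u)) = f1^[k] (fc.κ (α + r • φ u)) := by
    intro u hu k
    induction k with
    | zero => intro h; exact absurd h (lt_irrefl 0)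
    | succ k ih =>
      intro _ hkn
      rw [Function.iterate_succ_apply', Function.iterate_succ_apply']
      rcases Nat.eq_zero_or_pos k with rfl | hk
      · rw [Function.iterate_zero, Function.iterate_zero, id, id, hf2a, hgκ u hu]
      · rw [ih hk (by omega), hf2a, hgZ]
        rintro ⟨v, hv, hv2⟩
        rw [mem_closedBall, dist_eq_norm] at hv
        refine hs2 k (Finset.mem_range.mpr (by omega)) hk (α + r • φ u) v ?_ hv hv2.symm
        rw [add_sub_cancel_left]
        exact hrv _ (hMφ u hu)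
  refine ⟨f2, ⟨K2, hf2lip⟩, hmp.comp hgmp, ?_, ?_⟩
  · -- closeness
    refine ⟨Z, K, (fc.isCompact_image hcb (isCompact_closedBall _ _)).isClosed, ?_,
      hf2lip.weaken (le_max_right _ _), hf1.weaken (le_max_left _ _), ?_, ?_⟩
    · intro x hx
      rw [hf2a, hgZ x hx]
    · rw [fc.measure _ isClosed_closedBall.measurableSet hcb]
      exact hs5
    · intro x
      refine lt_of_le_of_lt ?_ hs6
      rw [hf2a]
      refine (hf1.dist_le_mul _ _).trans (mul_le_mul_of_nonneg_left ?_ K1.2)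
      by_cases hx : x ∈ Z
      · obtain ⟨u, hu, rfl⟩ := hx
        have hu' := hu
        rw [mem_closedBall, dist_eq_norm] at hu'
        change dist (fc.extFun φr (fc.κ u)) (fc.κ u) ≤ _
        rw [fc.extFun_κ (hcb hu)]
        have h5 := map_closedBall_of_id φr.injective hout' hu'
        have h6 : φr u ∈ closedBall α s := by rw [mem_closedBall, dist_eq_norm]; exact h5
        refine (fc.lip_κ _ (hcb h6) _ (hcb hu)).trans (mul_le_mul_of_nonneg_left ?_ hC)
        have h7 := dist_triangle_right (φr u) u α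
        rw [dist_eq_norm (φr u) α, dist_eq_norm u α] at h7
        linarith
      · rw [hgZ x hx, dist_self]
        positivity
  · -- robustness
    set SM : ℝ := ∑ i ∈ Finset.range n, (K2 : ℝ) ^ i with hSM
    have hSM0 : 0 ≤ SM := Finset.sum_nonneg (fun i _ => by positivity)
    have hgap := fc.gap_pos
    have hC1 : (1 : ℝ) ≤ fc.C := by exact_mod_cast fc.one_le_C
    set ζ : ℝ := min (fc.gap / 2) (r * η0 / (2 * fc.C)) with hζ
    have hζ0 : 0 < ζ := by
      apply lt_min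
      · positivity
      · have : (0 : ℝ) < fc.C := by linarith
        positivity
    refine ⟨ζ / (SM + 1), by positivity, ?_⟩
    intro f' hf' hclose
    have hdist : ∀ x, dist (f'^[n] x) (f2^[n] x) ≤ ζ := by
      intro x
      refine (dist_iterate_le hf2lip (fun x => (hclose x).le) n x).trans ?_
      rw [← hSM, div_mul_eq_mul_div, div_le_iff₀ (by positivity)]
      nlinarith
    have hf'U : ∀ u ∈ Rg, f'^[n] (fc.κ (α + r • u)) ∈ fc.U ∧
        ‖fc.ψ (f'^[n] (fc.κ (α + r • u))) - fc.ψ (f1^[n] (fc.κ (α + r • φ u)))‖ ≤ r * η0 / 2 := by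
      intro u hu
      obtain ⟨w, hw, hw2⟩ := hs4 (r • φ u) (hrv _ (hMφ u hu))
      have h5 := hdist (fc.κ (α + r • u))
      rw [hit u hu n hn le_rfl] at h5
      have h6 : f'^[n] (fc.κ (α + r • u)) ∈ fc.U := by
        by_contra hcon
        have h7 := fc.gap_le w hw _ hcon
        rw [hw2, dist_comm] at h5
        have h8 : ζ ≤ fc.gap / 2 := min_le_left _ _
        linarith
      refine ⟨h6, ?_⟩
      have h7 : f1^[n] (fc.κ (α + r • φ u)) ∈ fc.U := by
        rw [hw2]; exact fc.κ_mem w (FlatChart.cb_subset hw)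
      have h8 := fc.lip_ψ _ h6 _ h7
      rw [dist_eq_norm] at h8
      have h9 : ζ ≤ r * η0 / (2 * fc.C) := min_le_right _ _
      calc ‖fc.ψ (f'^[n] (fc.κ (α + r • u))) - fc.ψ (f1^[n] (fc.κ (α + r • φ u)))‖
          ≤ fc.C * ζ := h8.trans (mul_le_mul_of_nonneg_left h5 hC)
        _ ≤ fc.C * (r * η0 / (2 * fc.C)) := mul_le_mul_of_nonneg_left h9 hC
        _ = r * η0 / 2 := by
          have : (fc.C : ℝ) ≠ 0 := by linarith
          field_simp
    -- the renormalised map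
    set F' : E → E := fun u => r⁻¹ • (fc.ψ (f'^[n] (fc.κ (α + r • u))) - α) with hF'
    have hkc : ContinuousOn (fun u : E => fc.κ (α + r • u)) Rg := by
      apply fc.continuousOn_κ.comp
      · fun_prop
      · intro u hu
        exact hball _ (hrv u (hMRg u hu))
    have hF'c : ContinuousOn F' Rg := by
      have h5 : ContinuousOn (fun u : E => fc.ψ (f'^[n] (fc.κ (α + r • u)))) Rg := by
        apply fc.continuousOn_ψ.comp ((hf'.iterate n).comp_continuousOn hkc)
        intro u hu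
        exact (hf'U u hu).1
      exact (h5.sub continuousOn_const).const_smul r⁻¹
    have hF'A : ∀ u ∈ Rg, ‖F' u - A (φ u)‖ ≤ η0 := by
      intro u hu
      have h5 := (hf'U u hu).2
      have h6 := hs3 (r • φ u) (hrv _ (hMφ u hu))
      have h7 : F' u - A (φ u) =
          r⁻¹ • (fc.ψ (f'^[n] (fc.κ (α + r • u))) - fc.ψ (f1^[n] (fc.κ (α + r • φ u)))) +
          r⁻¹ • (fc.ψ (f1^[n] (fc.κ (α + r • φ u))) - α - A (r • φ u)) := by
        rw [← smul_add, map_smul]
        have e7 : fc.ψ (f'^[n] (fc.κ (α + r • u))) - fc.ψ (f1^[n] (fc.κ (α + r • φ u))) +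
            (fc.ψ (f1^[n] (fc.κ (α + r • φ u))) - α - r • A (φ u)) =
            (fc.ψ (f'^[n] (fc.κ (α + r • u))) - α) - r • A (φ u) := by abel
        rw [e7, smul_sub, smul_smul, inv_mul_cancel₀ hr0.ne', one_smul]
      rw [h7]
      refine (norm_add_le _ _).trans ?_
      rw [norm_smul, norm_smul, norm_inv, Real.norm_of_nonneg hr0.le]
      have h8 : ‖r • φ u‖ ≤ r * M := by rw [hrM]; exact hrv _ (hMφ u hu)
      have h9 : r⁻¹ * ‖fc.ψ (f'^[n] (fc.κ (α + r • u))) - fc.ψ (f1^[n] (fc.κ (α + r • φ u)))‖ ≤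
          η0 / 2 := by
        rw [inv_mul_le_iff₀ hr0]
        linarith
      have h10 : r⁻¹ * ‖fc.ψ (f1^[n] (fc.κ (α + r • φ u))) - α - A (r • φ u)‖ ≤ η0 / 2 := by
        rw [inv_mul_le_iff₀ hr0]
        calc ‖fc.ψ (f1^[n] (fc.κ (α + r • φ u))) - α - A (r • φ u)‖
            ≤ (η0 / (2 * M)) * ‖r • φ u‖ := h6
          _ ≤ (η0 / (2 * M)) * (r * M) := mul_le_mul_of_nonneg_left h8 (by positivity)
          _ = r * (η0 / 2) := by field_simp
      linarith
    have hHS := hF F' hF'c hF'A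
    have hqk : ∀ u ∈ Rg, r⁻¹ • (fc.ψ (fc.κ (α + r • u)) - α) = u := by
      intro u hu
      rw [fc.ψκ _ (hball _ (hrv u (hMRg u hu))), add_sub_cancel_left, smul_smul,
        inv_mul_cancel₀ hr0.ne', one_smul]
    have himU : (fun u : E => fc.κ (α + r • u)) '' Rg ⊆ fc.U := by
      rintro _ ⟨u, hu, rfl⟩
      exact fc.κ_mem _ (hball _ (hrv u (hMRg u hu)))
    have hHX := HorseshoeProp.transfer (Φ := f'^[n]) (fun u : E => fc.κ (α + r • u))
      (fun x => r⁻¹ • (fc.ψ x - α)) hLf hRf hqk hkc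
      (((fc.continuousOn_ψ.mono himU).sub continuousOn_const).const_smul r⁻¹) ?_ hHS
    · refine entropy_lower hn hHX (γ := fun τ => fc.κ (α + r • γ0 τ)) (s := s0) (t := t0)
        ⟨hγ0.le, ?_, ?_, mem_image_of_mem _ hγ0.left, mem_image_of_mem _ hγ0.right⟩
        (δ := r * δ / fc.C) ?_ ?_ hN
      · exact hkc.comp hγ0.cont (fun τ hτ => hγ0.mem τ hτ)
      · intro τ hτ
        exact mem_image_of_mem _ (hγ0.mem τ hτ)
      · have : (0 : ℝ) < fc.C := by linarith
        positivity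
      · rintro i j hij _ ⟨u, hu, rfl⟩ _ ⟨v, hv, rfl⟩
        have h5 := hsep i j hij u hu v hv
        have hb1 := hball _ (hrv u (hMRg u (hSs i hu)))
        have hb2 := hball _ (hrv v (hMRg v (hSs j hv)))
        have h6 := fc.lip_ψ _ (fc.κ_mem _ hb1) _ (fc.κ_mem _ hb2)
        rw [fc.ψκ _ hb1, fc.ψκ _ hb2, dist_add_left, dist_smul₀, Real.norm_of_nonneg hr0.le] at h6
        have hCp : (0 : ℝ) < fc.C := by linarith
        rw [div_le_iff₀ hCp]
        calc r * δ ≤ r * dist u v := mul_le_mul_of_nonneg_left h5 hr0.le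
          _ ≤ _ := by rw [mul_comm (dist _ _)]; exact h6
    · intro u hu _
      simp only [hF']
      rw [smul_smul, mul_inv_cancel₀ hr0.ne', one_smul, add_sub_cancel, fc.κψ _ (hf'U u hu).1]

end

end Pool.Agent.Lib_helper19.Ent
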