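import Mathlib
import Pool.Agent.Lib_helper19.Ent.Twist
import Pool.Agent.Lib_helper19.Ent.Germ
import Pool.Agent.Lib_helper19.Ent.Local
import Pool.Agent.Lib_helper19.Ent.Flat
import Pool.Agent.Lib_helper19.Ent.Step2
import Pool.Agent.Lib_helper19.Ent.Pair
import Pool.Agent.Lib_helper19.Ent.Regular

set_option autoImplicit false
set_option linter.unusedSectionVars false

/-!
# Closing a recurrent orbit
-/

open Set Filter MeasureTheory Metric
open scoped Topology RealInnerProductSpace NNReal ENNReal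

namespace Pool.Agent.Lib_helper19.Ent

variable {X E : Type*} [MetricSpace X] [MeasurableSpace X] [BorelSpace X] {μ : Measure X}
    [NormedAddCommGroup E] [InnerProductSpace ℝ E] [FiniteDimensional ℝ E]
    [MeasurableSpace E] [BorelSpace E]

/-- Half turn about the midpoint of `a` and `b`. -/
lemma exists_halfturn_homeo {Kh : ℝ≥0} (hKh : ∀ (e f : E), OP e f → LipschitzWith Kh (tw e f hang))
    (hdim : 2 ≤ Module.finrank ℝ E) {a b : E} (hab : 0 < ‖a - b‖) :
    ∃ h : E ≃ₜ E, LipschitzWith Kh h ∧ LipschitzWith Kh h.symm ∧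
      MeasurePreserving h (volume : Measure E) volume ∧
      (∀ u, 0.6 * ‖a - b‖ ≤ ‖u - (1 / 2 : ℝ) • (a + b)‖ → h u = u) ∧ h b = a ∧
      ∃ A : E ≃L[ℝ] E, HasFDerivAt h (A : E →L[ℝ] E) b := by
  set δ := ‖a - b‖ with hδ
  set m := (1 / 2 : ℝ) • (a + b) with hm
  set e : E := δ⁻¹ • (b - a) with he
  have hba : ‖b - a‖ = δ := by rw [hδ, norm_sub_rev]
  have hnorm : ‖e‖ = 1 := by
    rw [he, norm_smul, norm_inv, Real.norm_of_nonneg hab.le, hba, inv_mul_cancel₀ hab.ne']
  have hee : ⟪e, e⟫ = (1 : ℝ) := by rw [real_inner_self_eq_norm_sq, hnorm, one_pow]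
  obtain ⟨f, hef⟩ := exists_OP hee hdim
  have hρ : 0 < δ / 2 := by positivity
  set t := twHomeo hef contDiff_hang.continuous with ht
  have htl : LipschitzWith Kh t := hKh e f hef
  have htl' : LipschitzWith Kh t.symm := by
    have h1 : OP f e := ⟨hef.hf, hef.he, hef.hfe⟩
    have h2 : (t.symm : E → E) = tw f e hang := by
      ext u
      rw [ht, twHomeo_symm_apply]
      unfold tw
      rw [rot_apply, rot_apply, Real.cos_neg, Real.sin_neg]
      simp only [pl_apply, qt_apply]
      module
    rw [h2]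
    exact hKh f e h1
  have htmp : MeasurePreserving t (volume : Measure E) volume := measurePreserving_tw hef contDiff_hang
  have hb : b = m + (δ / 2) • e := by
    rw [hm, he, smul_smul, div_mul_eq_mul_div, mul_inv_cancel₀ hab.ne']
    module
  have hrot : rot e f Real.pi e = -e := by
    rw [rot_apply, Real.cos_pi, Real.sin_pi, pl_apply, hef.he, hef.hfe]
    module
  refine ⟨tcj m (δ / 2) hρ.ne' t, lipschitz_tcj m hρ.ne' htl, ?_, measurePreserving_tcj m hρ.ne' htmp,
    ?_, ?_, ?_⟩
  · have e : (tcj m (δ / 2) hρ.ne' t).symm = tcj m (δ / 2) hρ.ne' t.symm := rfl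
    rw [e]
    exact lipschitz_tcj m hρ.ne' htl'
  · intro u hu
    apply tcj_out m hρ (R := 1.2)
    · intro v hv
      change tw e f hang v = v
      unfold tw
      rw [hang_outer (by nlinarith), rot_zero]
    · linarith
  · rw [hb, tcj_aff]
    change m + (δ / 2) • tw e f hang e = a
    unfold tw
    rw [hnorm, one_pow, hang_inner (by norm_num), hrot, hm, he, smul_neg, smul_smul,
      div_mul_eq_mul_div, mul_inv_cancel₀ hab.ne']
    module
  · refine ⟨rotE hef Real.pi, ?_⟩
    have h1 : HasFDerivAt (fun u : E => m + (rotE hef Real.pi : E →L[ℝ] E) (u - m))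
        (rotE hef Real.pi : E →L[ℝ] E) b := by
      have h2 := ((rotE hef Real.pi : E →L[ℝ] E).hasFDerivAt (x := b - m))
      have h3 : HasFDerivAt (fun u : E => u - m) (ContinuousLinearMap.id ℝ E) b :=
        (hasFDerivAt_id b).sub_const m
      have h4 := h2.comp b h3
      rw [ContinuousLinearMap.comp_id] at h4
      exact h4.const_add m
    apply h1.congr_of_eventuallyEq
    have h2 : ∀ᶠ u in 𝓝 b, ‖(δ / 2)⁻¹ • (u - m)‖ ^ 2 < 1.1 := by
      have hc : Continuous (fun u : E => ‖(δ / 2)⁻¹ • (u - m)‖ ^ 2) := by fun_prop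
      apply hc.continuousAt.eventually_lt continuousAt_const
      rw [hb, add_sub_cancel_left, smul_smul, inv_mul_cancel₀ hρ.ne', one_smul, hnorm]
      norm_num
    filter_upwards [h2] with u hu
    rw [tcj_apply]
    change m + (δ / 2) • tw e f hang _ = _
    unfold tw
    rw [hang_inner hu.le, ContinuousLinearEquiv.coe_coe, rotE_apply, ← map_smul, smul_smul,
      mul_inv_cancel₀ hρ.ne', one_smul]

variable (fc : FlatChart X E μ)

include fc in
/-- **First step**: after a small perturbation there is a periodic point in the chart with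
invertible derivative of the return map. -/
theorem closing_step [SecondCountableTopology X] [IsFiniteMeasure μ]
    (hdim : 2 ≤ Module.finrank ℝ E) (g : X ≃ₜ X) {K : ℝ≥0} (hg : LipschitzWith K g)
    (hmp : MeasurePreserving g μ μ) {p ε : ℝ} (hp : 0 < p) (hε : 0 < ε) :
    ∃ (f1 : X ≃ₜ X) (K1 : ℝ≥0), LipschitzWith K1 f1 ∧ MeasurePreserving f1 μ μ ∧
      Near μ p ε f1 g ∧ ∃ (n : ℕ) (α : E) (A : E ≃L[ℝ] E), 0 < n ∧ ‖α‖ < 1 ∧
        f1^[n] (fc.κ α) = fc.κ α ∧ (∀ k, 0 < k → k < n → f1^[k] (fc.κ α) ≠ fc.κ α) ∧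
        HasFDerivAt (fun u => fc.ψ (f1^[n] (fc.κ u))) (A : E →L[ℝ] E) α := by
  have hnt : Nontrivial E := by
    apply Module.nontrivial_of_finrank_pos (R := ℝ)
    omega
  -- a good initial point
  have hrec := (hmp.conservative).ae_frequently_mem_of_mem_nhds
  have hreg := fc.ae_regular hg hmp
  have hV : μ (fc.κ '' ball 0 1) ≠ 0 := by
    rw [fc.measure _ isOpen_ball.measurableSet (ball_subset_ball (by norm_num))]
    exact mul_ne_zero fc.c_ne_zero (measure_ball_pos volume _ one_pos).ne'
  obtain ⟨x, ⟨u0, hu0, hxu0⟩, hxrec, hxreg⟩ : ∃ x, x ∈ fc.κ '' ball 0 1 ∧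
      (∀ s ∈ 𝓝 x, ∃ᶠ n in atTop, g^[n] x ∈ s) ∧
      (∀ i n : ℕ, ∀ u ∈ ball (0 : E) 2, fc.κ u = g^[i] x → g^[n] (fc.κ u) ∈ fc.U →
      ∃ A : E ≃L[ℝ] E, HasFDerivAt (fun u => fc.ψ (g^[n] (fc.κ u))) (A : E →L[ℝ] E) u) := by
    by_contra hcon
    push Not at hcon
    apply hV
    apply measure_mono_null _ (hrec.and hreg)
    intro x hx hx2
    obtain ⟨i, n, u, h1, h2, h3, h4⟩ := hcon x hx hx2.1
    obtain ⟨A, hA⟩ := hx2.2 i n u h1 h2 h3
    exact h4 A hA
  rw [mem_ball_zero_iff] at hu0
  have hu02 : u0 ∈ ball (0 : E) 2 := by rw [mem_ball_zero_iff]; linarith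
  by_cases hinj : ∃ i j, i < j ∧ g^[i] x = g^[j] x
  · -- the orbit is periodic
    obtain ⟨i, j, hij, hgij⟩ := hinj
    have hper : g^[j - i] x = x := by
      have h1 : g^[i] (g^[j - i] x) = g^[i] x := by
        rw [← Function.iterate_add_apply, Nat.add_sub_cancel' hij.le, hgij]
      exact (g.injective.iterate i) h1
    have hpp : x ∈ Function.periodicPts g := ⟨j - i, by omega, hper⟩
    set n := Function.minimalPeriod g x with hn
    have hn0 : 0 < n := Function.minimalPeriod_pos_of_mem_periodicPts hpp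
    have hpn : g^[n] x = x := Function.iterate_minimalPeriod
    obtain ⟨A, hA⟩ := hxreg 0 n u0 hu02 (by rw [hxu0]; rfl) (by
      rw [hxu0, hpn, ← hxu0]
      exact fc.κ_mem u0 hu02)
    refine ⟨g, K, hg, hmp, ⟨∅, K, isClosed_empty, fun _ _ => rfl, hg, hg, ?_, ?_⟩, n, u0, A, hn0, hu0,
      ?_, ?_, hA⟩
    · rw [measure_empty, zero_mul]
      exact ENNReal.ofReal_pos.mpr hε
    · intro y
      rwa [dist_self]
    · rw [hxu0, hpn]
    · intro k hk0 hkn
      rw [hxu0]
      intro hcon
      have h1 : Function.IsPeriodicPt g k x := hcon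
      have := h1.minimalPeriod_le hk0
      omega
  · -- the orbit is infinite
    push Not at hinj
    have hne : ∀ i j, i ≠ j → g^[i] x ≠ g^[j] x := by
      intro i j hij
      rcases lt_or_gt_of_ne hij with h | h
      · exact hinj i j h
      · exact (hinj j i h).symm
    obtain ⟨Kh, hKh⟩ := exists_uniform_lipschitz_halfturn
    have hKh' : ∀ (e f : E), OP e f → LipschitzWith Kh (tw e f hang) := fun e f h => hKh E e f h
    set K2 : ℝ≥0 := fc.extK Kh * K with hK2
    set KK : ℝ≥0 := max K K2 with hKK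
    have hC : (0 : ℝ) ≤ fc.C := fc.C.2
    -- the size
    have e5 : ∀ᶠ s : ℝ in 𝓝[>] 0, fc.c * volume (closedBall (0 : E) s) * (KK : ℝ≥0∞) ^ p <
        ENNReal.ofReal ε := by
      have h1 : Tendsto (fun s : ℝ => fc.c * volume (closedBall (0 : E) s) * (KK : ℝ≥0∞) ^ p)
          (𝓝[>] 0) (𝓝 (fc.c * 0 * (KK : ℝ≥0∞) ^ p)) := by
        apply ENNReal.Tendsto.mul_const
        · exact ENNReal.Tendsto.const_mul (tendsto_volume_closedBall 0) (Or.inr fc.c_ne_top)
        · right
          exact ENNReal.rpow_ne_top_of_nonneg hp.le ENNReal.coe_ne_top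
      rw [mul_zero, zero_mul] at h1
      exact h1.eventually (gt_mem_nhds (ENNReal.ofReal_pos.mpr hε))
    have e6 : ∀ᶠ s : ℝ in 𝓝[>] 0, fc.C * (2 * s) < ε := by
      have h1 : Tendsto (fun s : ℝ => (fc.C : ℝ) * (2 * s)) (𝓝[>] 0) (𝓝 (fc.C * (2 * 0))) := by
        apply Tendsto.mono_left _ nhdsWithin_le_nhds
        exact (tendsto_id.const_mul (2 : ℝ)).const_mul _
      rw [mul_zero, mul_zero] at h1
      exact h1.eventually (gt_mem_nhds hε)
    have e7 : ∀ᶠ s : ℝ in 𝓝[>] 0, s < 0.3 :=
      Filter.Eventually.filter_mono nhdsWithin_le_nhds (gt_mem_nhds (by norm_num))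
    obtain ⟨q0, hq0, hq1, hq2, hq3⟩ :=
      ((eventually_mem_nhdsWithin.and (e7.and (e5.and e6))).exists)
    have hq0 : 0 < q0 := hq0
    -- the pair
    set z : ℕ → E := fun i => fc.ψ (g^[i] x) with hz
    set P : ℕ → Prop := fun i => g^[i] x ∈ fc.U ∧ ‖z i‖ < 1 with hP
    have hz0 : z 0 = u0 := by
      simp only [hz, Function.iterate_zero, id]
      rw [← hxu0, fc.ψκ u0 hu02]
    have hP0 : P 0 := by
      refine ⟨?_, ?_⟩
      · rw [Function.iterate_zero, id, ← hxu0]
        exact fc.κ_mem u0 hu02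
      · rw [hz0]; exact hu0
    obtain ⟨i, j, hij, hPi, hPj, hδ0, hδi, hδj, hmid⟩ := exists_good_pair z P hP0 (fun i h => h.2)
      (by
        intro i j hij hPi hPj hzij
        apply hne i j hij.ne
        rw [← fc.κψ _ hPi.1, ← fc.κψ _ hPj.1]
        exact congrArg fc.κ hzij)
      (by
        intro τ hτ
        have h1 : fc.κ '' (ball 0 1 ∩ ball u0 τ) ∈ 𝓝 x := by
          apply (fc.isOpen_image _ (isOpen_ball.inter isOpen_ball)).mem_nhds
          · rw [← hxu0]
            exact mem_image_of_mem _ ⟨by rwa [mem_ball_zero_iff], mem_ball_self hτ⟩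
          · exact inter_subset_left.trans (ball_subset_ball (by norm_num))
        obtain ⟨N, hN, ⟨v, hv, hv2⟩⟩ := ((hxrec _ h1).and_eventually (eventually_gt_atTop 0)).exists
          |>.imp fun N hN => (⟨hN.2, hN.1⟩ : 0 < N ∧ g^[N] x ∈ _)
        have hv3 : ‖v‖ < 1 := by
          have := hv.1
          rwa [mem_ball_zero_iff] at this
        have hv4 : v ∈ ball (0 : E) 2 := by rw [mem_ball_zero_iff]; linarith
        have hzN : z N = v := by
          simp only [hz]
          rw [← hv2, fc.ψκ v hv4]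
        refine ⟨N, hN, ⟨?_, ?_⟩, ?_⟩
        · rw [← hv2]; exact fc.κ_mem v hv4
        · rw [hzN]; exact hv3
        · rw [hzN, hz0, ← dist_eq_norm]
          exact hv.2)
      hq0 hq1.le
    set a := z i with ha
    set b := z j with hb
    set δ := ‖a - b‖ with hδ
    set m : E := (1 / 2 : ℝ) • (a + b) with hm
    have ha1 : ‖a‖ < 1 := hPi.2
    have hb1 : ‖b‖ < 1 := hPj.2
    have hκa : fc.κ a = g^[i] x := fc.κψ _ hPi.1
    have hκb : fc.κ b = g^[j] x := fc.κψ _ hPj.1
    have hδq : δ ≤ q0 := by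
      have : 0 ≤ ‖a‖ := norm_nonneg _
      nlinarith
    have hmδ : ‖m‖ + 0.6 * δ < 1 := by
      have h1 : ‖m‖ ≤ (‖a‖ + ‖b‖) / 2 := by
        rw [hm, norm_smul, Real.norm_of_nonneg (by norm_num : (0 : ℝ) ≤ 1 / 2)]
        have := norm_add_le a b
        linarith
      nlinarith
    obtain ⟨h, hhl, hhl', hhmp, hhout, hhb, Ah, hAh⟩ := exists_halfturn_homeo hKh' hdim hδ0
    have hone : ∀ u, 1 ≤ ‖u‖ → h u = u := by
      intro u hu
      apply hhout
      have := norm_sub_norm_le u m
      linarith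
    have hball1 : closedBall m (0.6 * δ) ⊆ ball (0 : E) 1 := by
      intro u hu
      rw [mem_closedBall, dist_eq_norm] at hu
      rw [mem_ball_zero_iff]
      have := norm_sub_norm_le u m
      linarith
    have hball2 : closedBall m (0.6 * δ) ⊆ ball (0 : E) 2 :=
      hball1.trans (ball_subset_ball (by norm_num))
    set hx := fc.ext h hone ⟨Kh, hhl⟩ ⟨Kh, hhl'⟩ with hhx
    have hxmp : MeasurePreserving hx μ μ := fc.measurePreserving_ext h hone _ _ hhmp
    have hxl : LipschitzWith (fc.extK Kh) hx := fc.lipschitz_extFun h.injective hone hhl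
    set W : Set X := fc.κ '' closedBall m (0.6 * δ) with hW
    have hWc : IsClosed W := (fc.isCompact_image hball2 (isCompact_closedBall _ _)).isClosed
    have hxW : ∀ y, y ∉ W → hx y = y := by
      intro y hy
      apply fc.extFun_eq_self (α := m) (s := 0.6 * δ) (fun u hu => hhout u hu.le)
      rwa [inter_eq_left.mpr hball2]
    set f1 : X ≃ₜ X := g.trans hx with hf1
    have hf1a : ∀ y, f1 y = hx (g y) := fun y => rfl
    have hf1l : LipschitzWith K2 f1 := hxl.comp hg
    -- intermediate times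
    set n := j - i with hn
    have hn0 : 0 < n := by omega
    have hmidW : ∀ k, 0 < k → k < n → g^[i + k] x ∉ W := by
      rintro k hk0 hkn ⟨v, hv, hv2⟩
      have hv3 : v ∈ ball (0 : E) 1 := hball1 hv
      have hzk : z (i + k) = v := by
        simp only [hz]
        rw [← hv2, fc.ψκ v (hball2 hv)]
      rw [mem_ball_zero_iff] at hv3
      have h1 := hmid (i + k) (by omega) (by omega) ⟨by rw [← hv2]; exact fc.κ_mem v (hball2 hv),
        by rw [hzk]; exact hv3⟩
      rw [hzk] at h1
      rw [mem_closedBall, dist_eq_norm] at hv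
      linarith
    -- near `κ a` iterates of `f1` are iterates of `g`
    have ha2 : a ∈ ball (0 : E) 2 := by rw [mem_ball_zero_iff]; linarith
    have hb2 : b ∈ ball (0 : E) 2 := by rw [mem_ball_zero_iff]; linarith
    have hκc : ContinuousAt fc.κ a := fc.continuousOn_κ.continuousAt (isOpen_ball.mem_nhds ha2)
    have hev : ∀ᶠ u in 𝓝 a, ∀ k ∈ Finset.range n, 0 < k → g^[k] (fc.κ u) ∉ W := by
      rw [Filter.eventually_all_finset]
      intro k hk
      by_cases hk0 : 0 < k
      · have hfk : ContinuousAt (fun u => g^[k] (fc.κ u)) a :=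
          (g.continuous.iterate k).continuousAt.comp hκc
        have h1 : ∀ᶠ u in 𝓝 a, g^[k] (fc.κ u) ∈ Wᶜ := by
          apply hfk.eventually_mem
          apply hWc.isOpen_compl.mem_nhds
          rw [hκa, ← Function.iterate_add_apply, add_comm]
          exact hmidW k hk0 (Finset.mem_range.mp hk)
        filter_upwards [h1] with u hu _
        exact hu
      · filter_upwards with u h
        exact absurd h hk0
    have hit : ∀ u, (∀ k ∈ Finset.range n, 0 < k → g^[k] (fc.κ u) ∉ W) →
        ∀ k, k < n → f1^[k] (fc.κ u) = g^[k] (fc.κ u) := by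
      intro u hu k
      induction k with
      | zero => intro _; rfl
      | succ k ih =>
        intro hk
        rw [Function.iterate_succ_apply', ih (by omega), Function.iterate_succ_apply', hf1a, hxW]
        rw [← Function.iterate_succ_apply' (f := g)]
        exact hu (k + 1) (Finset.mem_range.mpr hk) (by omega)
    have hitn : ∀ u, (∀ k ∈ Finset.range n, 0 < k → g^[k] (fc.κ u) ∉ W) →
        f1^[n] (fc.κ u) = hx (g^[n] (fc.κ u)) := by
      intro u hu
      obtain ⟨n', hn'⟩ : ∃ n', n = n' + 1 := ⟨n - 1, by omega⟩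
      rw [hn', Function.iterate_succ_apply', hit u hu n' (by omega), hf1a,
        ← Function.iterate_succ_apply' (f := g)]
    have ha0 := hev.self_of_nhds
    have hgn : g^[n] (fc.κ a) = fc.κ b := by
      rw [hκa, ← Function.iterate_add_apply, hκb, hn, Nat.sub_add_cancel hij.le]
    have hper : f1^[n] (fc.κ a) = fc.κ a := by
      rw [hitn a ha0, hgn]
      change fc.extFun h (fc.κ b) = _
      rw [fc.extFun_κ hb2, hhb]
    obtain ⟨A, hA⟩ := hxreg i n a ha2 hκa (by rw [hgn]; exact fc.κ_mem b hb2)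
    refine ⟨f1, K2, hf1l, hxmp.comp hmp, ?_, n, a, A.trans Ah, hn0, ha1, hper, ?_, ?_⟩
    · -- closeness
      refine ⟨g ⁻¹' W, KK, hWc.preimage g.continuous, ?_, hf1l.weaken (le_max_right _ _),
        hg.weaken (le_max_left _ _), ?_, ?_⟩
      · intro y hy
        rw [hf1a, hxW]
        exact hy
      · rw [hmp.measure_preimage hWc.measurableSet.nullMeasurableSet, hW,
          fc.measure _ isClosed_closedBall.measurableSet hball2,
          Measure.addHaar_closedBall_center]
        refine lt_of_le_of_lt ?_ hq2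
        gcongr
        linarith
      · intro y
        refine lt_of_le_of_lt ?_ hq3
        rw [hf1a]
        by_cases hy : g y ∈ W
        · obtain ⟨u, hu, hu2⟩ := hy
          rw [← hu2]
          have hu' := hu
          rw [mem_closedBall, dist_eq_norm] at hu'
          change dist (fc.extFun h (fc.κ u)) (fc.κ u) ≤ _
          rw [fc.extFun_κ (hball2 hu)]
          have h5 := map_closedBall_of_id h.injective (α := m) (s := 0.6 * δ)
            (fun u hu => hhout u hu.le) hu'
          have h6 : h u ∈ closedBall m (0.6 * δ) := by rw [mem_closedBall, dist_eq_norm]; exact h5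
          refine (fc.lip_κ _ (hball2 h6) _ (hball2 hu)).trans (mul_le_mul_of_nonneg_left ?_ hC)
          have h7 := dist_triangle_right (h u) u m
          rw [dist_eq_norm (h u) m, dist_eq_norm u m] at h7
          linarith
        · rw [hxW _ hy, dist_self]
          positivity
    · intro k hk0 hkn
      rw [hit a ha0 k hkn, hκa, ← Function.iterate_add_apply]
      exact hne _ _ (by omega)
    · -- the derivative
      have hψb : fc.ψ (g^[n] (fc.κ a)) = b := by rw [hgn, fc.ψκ b hb2]
      have h1 : HasFDerivAt h (Ah : E →L[ℝ] E) (fc.ψ (g^[n] (fc.κ a))) := by rw [hψb]; exact hAh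
      have h2 := h1.comp a hA
      have h3 : (fun u => fc.ψ (f1^[n] (fc.κ u))) =ᶠ[𝓝 a] h ∘ (fun u => fc.ψ (g^[n] (fc.κ u))) := by
        have h4 : ∀ᶠ u in 𝓝 a, g^[n] (fc.κ u) ∈ fc.U := by
          have hfk : ContinuousAt (fun u => g^[n] (fc.κ u)) a :=
            (g.continuous.iterate n).continuousAt.comp hκc
          apply hfk.eventually_mem
          apply fc.isOpen_U.mem_nhds
          rw [hgn]
          exact fc.κ_mem b hb2
        filter_upwards [hev, h4] with u hu hu2
        rw [hitn u hu]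
        change fc.ψ (fc.extFun h _) = _
        rw [fc.extFun_of_mem hu2, fc.ψκ]
        · rfl
        · exact FlatChart.map_ball_two h.injective hone (fc.ψ_mem _ hu2)
      have h5 := h2.congr_of_eventuallyEq h3
      exact h5

end Pool.Agent.Lib_helper19.Ent
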