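import Mathlib
import Pool.Agent.Lib_helper19.Ent.Flat
import Pool.Agent.Lib_helper19.Ent.Step1
import Pool.Agent.Lib_helper19.Ent.Step2

set_option autoImplicit false
set_option linter.unusedSectionVars false

/-!
# The perturbation theorem
-/

open Set Filter MeasureTheory Metric
open scoped Topology RealInnerProductSpace NNReal ENNReal

namespace Pool.Agent.Lib_helper19.Ent

variable {X E : Type*} [MetricSpace X] [MeasurableSpace X] [BorelSpace X] {μ : Measure X}
    [NormedAddCommGroup E] [InnerProductSpace ℝ E] [FiniteDimensional ℝ E]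
    [MeasurableSpace E] [BorelSpace E] (fc : FlatChart X E μ)

include fc in
/-- **Perturbation theorem**: every Lipschitz measure preserving homeomorphism can be perturbed in
two small steps to one all of whose continuous `C⁰`-neighbours have entropy at least `h0`. -/
theorem perturbation [SecondCountableTopology X] [IsFiniteMeasure μ]
    (hdim : 2 ≤ Module.finrank ℝ E) (g : X ≃ₜ X) (hg : ∃ K : ℝ≥0, LipschitzWith K g)
    (hmp : MeasurePreserving g μ μ) (h0 : ℝ) {p ε : ℝ} (hp : 0 < p) (hε : 0 < ε) :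
    ∃ f1 f2 : X ≃ₜ X, (∃ K : ℝ≥0, LipschitzWith K f1) ∧ MeasurePreserving f1 μ μ ∧
      (∃ K : ℝ≥0, LipschitzWith K f2) ∧ MeasurePreserving f2 μ μ ∧
      Near μ p ε f1 g ∧ Near μ p ε f2 f1 ∧
      ∃ η > 0, ∀ f' : X → X, Continuous f' → (∀ x, dist (f' x) (f2 x) < η) →
        (h0 : EReal) ≤ Dynamics.coverEntropy f' univ := by
  obtain ⟨K, hK⟩ := hg
  obtain ⟨f1, K1, hf1, hmp1, hn1, n, α, A, hn, hα, hper, hmin, hA⟩ :=
    closing_step fc hdim g hK hmp hp hε
  have hnt : Nontrivial E := by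
    apply Module.nontrivial_of_finrank_pos (R := ℝ)
    omega
  obtain ⟨f2, hf2, hmp2, hn2, hη⟩ := horseshoe_step fc (stdOrthonormalBasis ℝ E)
    (i0 := ⟨0, by omega⟩) (i1 := ⟨1, by omega⟩) (by simp) hf1 hmp1 hn hα hper hmin hA h0 hp hε
  exact ⟨f1, f2, ⟨K1, hf1⟩, hmp1, hf2, hmp2, hn1, hn2, hη⟩

end Pool.Agent.Lib_helper19.Ent
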