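import Mathlib

set_option autoImplicit false
set_option linter.unusedSectionVars false

open Bundle Set MeasureTheory Filter Metric Manifold
open scoped Manifold ContDiff Topology ENNReal NNReal

namespace Pool.Agent.Lib_helper19.Ent

section

variable {E : Type*} [NormedAddCommGroup E] [NormedSpace ℝ E]
  {H : Type*} [TopologicalSpace H] {I : ModelWithCorners ℝ E H} [I.Boundaryless]
  {X : Type*} [MetricSpace X] [ChartedSpace H X]
  [RiemannianBundle (fun x : X => TangentSpace I x)]

variable (I E X) in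
lemma continuous_bundle [IsManifold I ∞ X]
    [IsContMDiffRiemannianBundle I ∞ E (fun x : X => TangentSpace I x)] :
    IsContinuousRiemannianBundle E (fun x : X => TangentSpace I x) := by
  obtain ⟨g, hg, hg2⟩ := IsContMDiffRiemannianBundle.exists_contMDiff (IB := I) (n := ∞)
    (F := E) (E := fun x : X => TangentSpace I x)
  exact ⟨g, hg.continuous, hg2⟩

attribute [local instance] normedAddCommGroupTangentSpaceVectorSpace
  normedSpaceTangentSpaceVectorSpace

variable [IsManifold I 1 X]
  [IsContinuousRiemannianBundle E (fun x : X => TangentSpace I x)] [IsRiemannianManifold I X]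

variable (I)

set_option backward.isDefEq.respectTransparency false in
/-- The inverse of the chart is locally Lipschitz. -/
lemma exists_edist_symm_le (x : X) :
    ∃ (C : ℝ≥0) (r : ℝ), 0 < r ∧ ball (extChartAt I x x) r ⊆ (extChartAt I x).target ∧
      ∀ y ∈ ball (extChartAt I x x) r, ∀ z ∈ ball (extChartAt I x x) r,
        edist ((extChartAt I x).symm y) ((extChartAt I x).symm z) ≤ C * edist y z := by
  rcases eventually_enorm_mfderivWithin_symm_extChartAt_lt I x with ⟨C, C_pos, hC⟩
  obtain ⟨r, r_pos, hr⟩ : ∃ r > 0,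
      ball (extChartAt I x x) r ∩ range I ⊆ (extChartAt I x).target ∩
        {y | ‖mfderiv[range I] (extChartAt I x).symm y‖ₑ < C} :=
    mem_nhdsWithin_iff.1 (inter_mem (extChartAt_target_mem_nhdsWithin x) hC)
  have hran : range I = univ := ModelWithCorners.range_eq_univ _
  refine ⟨C, r, r_pos, fun y hy => (hr ⟨hy, by rw [hran]; trivial⟩).1, ?_⟩
  intro y hy z hz
  rw [IsRiemannianManifold.out (I := I) ((extChartAt I x).symm y)]
  let η := ContinuousAffineMap.lineMap (R := ℝ) y z
  set γ := (extChartAt I x).symm ∘ η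
  have hη : Icc 0 1 ⊆ ⇑η ⁻¹' ((extChartAt I x).target ∩
        {y | ‖mfderiv[range I] (extChartAt I x).symm y‖ₑ < C}) := by
    simp only [← image_subset_iff, ContinuousAffineMap.coe_lineMap_eq,
     ← segment_eq_image_lineMap, η]
    apply Subset.trans _ hr
    rw [hran, inter_univ]
    exact (convex_ball _ _).segment_subset hy hz
  simp only [preimage_inter, subset_inter_iff] at hη
  have η_smooth : CMDiff[Icc 0 1] 1 η := by
    apply ContMDiff.contMDiffOn
    rw [contMDiff_iff_contDiff]
    exact ContinuousAffineMap.contDiff _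
  have : riemannianEDist I ((extChartAt I x).symm y) ((extChartAt I x).symm z) ≤
      pathELength I γ 0 1 := by
    apply riemannianEDist_le_pathELength _ _ _ zero_le_one
    · exact (contMDiffOn_extChartAt_symm x).comp η_smooth hη.1
    · simp [γ, η, ContinuousAffineMap.coe_lineMap_eq]
    · simp [γ, η, ContinuousAffineMap.coe_lineMap_eq]
  apply this.trans
  rw [← lintegral_fderiv_lineMap_eq_edist, pathELength_eq_lintegral_mfderivWithin_Icc,
    ← lintegral_const_mul' _ _ ENNReal.coe_ne_top]
  apply setLIntegral_mono' measurableSet_Icc (fun t ht ↦ ?_)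
  have : mfderiv[Icc 0 1] γ t =
      (mfderiv[range I] (extChartAt I x).symm (η t)) ∘L (mfderiv[Icc 0 1] η t) := by
    apply mfderivWithin_comp
    · exact mdifferentiableWithinAt_extChartAt_symm (hη.1 ht)
    · exact η_smooth.mdifferentiableOn one_ne_zero t ht
    · exact hη.1.trans (preimage_mono (extChartAt_target_subset_range x))
    · rw [uniqueMDiffWithinAt_iff_uniqueDiffWithinAt]
      exact uniqueDiffOn_Icc zero_lt_one t ht
  have : mfderiv[Icc 0 1] γ t 1 =
      (mfderiv[range I] (extChartAt I x).symm (η t)) (mfderiv[Icc 0 1] η t 1) :=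
    congr($this 1)
  rw [this]
  apply (ContinuousLinearMap.le_opENorm _ _).trans
  gcongr
  · exact (hη.2 ht).le
  · simp only [mfderivWithin_eq_fderivWithin]
    exact le_of_eq rfl

omit [I.Boundaryless] [IsManifold I 1 X]
  [IsContinuousRiemannianBundle E (fun x : X => TangentSpace I x)] [IsRiemannianManifold I X] in
set_option backward.isDefEq.respectTransparency false in
/-- A map with bounded derivative along a path is controlled by the length of the path. -/
lemma edist_le_of_path {F : Type*} [NormedAddCommGroup F] [NormedSpace ℝ F] [CompleteSpace F]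
    {u : X → F} {O : Set X} (hO : IsOpen O) (hu : ContMDiffOn I 𝓘(ℝ, F) 1 u O) {C : ℝ≥0}
    (hC : ∀ y ∈ O, ‖mfderiv I 𝓘(ℝ, F) u y‖ₑ ≤ C) {γ : ℝ → X} (hγ : CMDiff 1 γ)
    (hγO : ∀ t ∈ Icc (0 : ℝ) 1, γ t ∈ O) :
    edist (u (γ 0)) (u (γ 1)) ≤ C * pathELength I γ 0 1 := by
  let γ' := u ∘ γ
  have hC' : CMDiff[Icc 0 1] 1 γ' := hu.comp (t := O) hγ.contMDiffOn (fun t' ht' ↦ hγO t' ht')
  rw [edist_comm, edist_eq_enorm_sub]
  calc
    ‖γ' 1 - γ' 0‖ₑ
    _ ≤ ∫⁻ t' in Icc 0 1, ‖derivWithin γ' (Icc 0 1) t'‖ₑ := by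
      apply enorm_sub_le_lintegral_derivWithin_Icc_of_contDiffOn_Icc _ zero_le_one
      rwa [← contMDiffOn_iff_contDiffOn]
    _ = ∫⁻ t' in Icc 0 1, ‖mfderiv[Icc 0 1] γ' t' 1‖ₑ := by
      simp_rw [← fderivWithin_derivWithin, mfderivWithin_eq_fderivWithin]
      rfl
    _ ≤ ∫⁻ t' in Icc 0 1, C * ‖mfderiv[Icc 0 1] γ t' 1‖ₑ := by
      apply setLIntegral_mono' measurableSet_Icc (fun t' ht' ↦ ?_)
      have : mfderiv[Icc 0 1] γ' t' =
          (mfderiv% u (γ t')) ∘L (mfderiv[Icc 0 1] γ t') := by
        apply mfderiv_comp_mfderivWithin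
        · exact ((hu _ (hγO t' ht')).contMDiffAt (hO.mem_nhds (hγO t' ht'))).mdifferentiableAt
            one_ne_zero
        · exact (hγ.mdifferentiable one_ne_zero).mdifferentiableOn _ ht'
        · rw [uniqueMDiffWithinAt_iff_uniqueDiffWithinAt]
          exact uniqueDiffOn_Icc zero_lt_one _ ht'
      have : mfderiv[Icc 0 1] γ' t' 1 =
          (mfderiv% u (γ t')) (mfderiv[Icc 0 1] γ t' 1) :=
        congr($this 1)
      rw [this]
      apply (ContinuousLinearMap.le_opENorm _ _).trans
      gcongr
      exact hC _ (hγO t' ht')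
    _ = C * pathELength I γ 0 1 := by
      rw [lintegral_const_mul' _ _ ENNReal.coe_ne_top,
          pathELength_eq_lintegral_mfderivWithin_Icc]

set_option backward.isDefEq.respectTransparency false in
/-- A map with bounded derivative on a ball is Lipschitz on a smaller ball. -/
lemma edist_le_of_ball {F : Type*} [NormedAddCommGroup F] [NormedSpace ℝ F] [CompleteSpace F]
    {u : X → F} {x : X} {R : ℝ≥0∞} (hu : ContMDiffOn I 𝓘(ℝ, F) 1 u (Metric.eball x R))
    {C : ℝ≥0} (hC : ∀ y ∈ Metric.eball x R, ‖mfderiv I 𝓘(ℝ, F) u y‖ₑ ≤ C) {y z : X}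
    (hy : y ∈ Metric.eball x (R / 4)) (hz : z ∈ Metric.eball x (R / 4)) :
    edist (u y) (u z) ≤ C * edist y z := by
  have hyx : edist y x < R / 4 := hy
  have hzx : edist z x < R / 4 := hz
  by_contra hcon
  push Not at hcon
  have h1 : edist y z < edist (u y) (u z) / C := by
    rw [ENNReal.lt_div_iff_mul_lt (Or.inr (edist_ne_top y z)) (Or.inl ENNReal.coe_ne_top), mul_comm]
    exact hcon
  have h2 : edist y z < R / 2 := by
    calc edist y z ≤ edist y x + edist x z := edist_triangle _ _ _
      _ < R / 4 + R / 4 := by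
        rw [edist_comm x z]
        exact ENNReal.add_lt_add hyx hzx
      _ = R / 2 := by
        rw [← two_mul, div_eq_mul_inv, div_eq_mul_inv, ← mul_assoc, mul_comm 2 R, mul_assoc]
        congr 1
        rw [show (4 : ℝ≥0∞) = 2 * 2 by norm_num, ENNReal.mul_inv (by simp) (by simp), ← mul_assoc,
          ENNReal.mul_inv_cancel (by simp) (by simp), one_mul]
  obtain ⟨L, hL1, hL2⟩ := exists_between (lt_min h1 h2)
  have hL3 : L < edist (u y) (u z) / C := lt_of_lt_of_le hL2 (min_le_left _ _)
  have hL4 : L < R / 2 := lt_of_lt_of_le hL2 (min_le_right _ _)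
  rw [IsRiemannianManifold.out (I := I) y z] at hL1
  obtain ⟨γ, hγ0, hγ1, hγs, hγL, -⟩ := exists_lt_locally_constant_of_riemannianEDist_lt hL1 zero_lt_one
  have hγO : ∀ t ∈ Icc (0 : ℝ) 1, γ t ∈ Metric.eball x R := by
    intro t ht
    have h3 : edist y (γ t) < R / 2 := by
      rw [IsRiemannianManifold.out (I := I) y (γ t)]
      calc riemannianEDist I y (γ t) ≤ pathELength I γ 0 t :=
            riemannianEDist_le_pathELength hγs.contMDiffOn hγ0 rfl ht.1
        _ ≤ pathELength I γ 0 1 := pathELength_mono le_rfl ht.2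
        _ < L := hγL
        _ < R / 2 := hL4
    rw [Metric.mem_eball]
    calc edist (γ t) x ≤ edist (γ t) y + edist y x := edist_triangle _ _ _
      _ < R / 2 + R / 4 := by
        rw [edist_comm (γ t) y]
        exact ENNReal.add_lt_add h3 hyx
      _ ≤ R / 2 + R / 2 := by
        gcongr
        norm_num
      _ = R := ENNReal.add_halves R
  have h4 := edist_le_of_path I Metric.isOpen_eball hu hC hγs hγO
  rw [hγ0, hγ1] at h4
  have h5 : edist (u y) (u z) ≤ C * L := h4.trans (by gcongr)
  rw [ENNReal.lt_div_iff_mul_lt (Or.inr hL4.ne_top) (Or.inl ENNReal.coe_ne_top), mul_comm] at hL3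
  exact absurd h5 (not_le.mpr hL3)

set_option backward.isDefEq.respectTransparency false in
/-- The chart is locally Lipschitz. -/
lemma exists_enorm_chart_le [CompleteSpace E] (x : X) :
    ∃ (C : ℝ≥0), ∃ W ∈ 𝓝 x, W ⊆ (extChartAt I x).source ∧
      ∀ y ∈ W, ∀ z ∈ W,
        edist (extChartAt I x y) (extChartAt I x z) ≤ C * edist y z := by
  rcases eventually_enorm_mfderiv_extChartAt_lt I x with ⟨C, C_pos, hC⟩
  -- a ball on which the derivative is bounded
  obtain ⟨R, hR, hball⟩ : ∃ R > 0, Metric.eball x R ⊆ (extChartAt I x).source ∩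
      {y | ‖mfderiv% (extChartAt I x) y‖ₑ < C} :=
    EMetric.mem_nhds_iff.1 (inter_mem (extChartAt_source_mem_nhds x) hC)
  refine ⟨C, Metric.eball x (R / 4), Metric.eball_mem_nhds x (by
    apply ENNReal.div_pos hR.ne'; simp), ?_, ?_⟩
  · exact (Metric.eball_subset_eball (by exact ENNReal.div_le_of_le_mul' (by
      calc R = 1 * R := (one_mul R).symm
        _ ≤ 4 * R := by gcongr; norm_num))).trans (hball.trans inter_subset_left)
  intro y hy z hz
  apply edist_le_of_ball I (u := extChartAt I x) (C := C) _ _ hy hz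
  · apply contMDiffOn_extChartAt.mono
    rw [← extChartAt_source I x]
    exact hball.trans inter_subset_left
  · intro w hw
    exact (hball hw).2.le

end

end Pool.Agent.Lib_helper19.Ent
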