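import Mathlib

set_option autoImplicit false
set_option linter.unusedSectionVars false

/-!
# Straightening a positive density
-/

open Set Filter MeasureTheory Metric
open scoped Topology RealInnerProductSpace NNReal ENNReal

namespace Pool.Agent.Lib_helper19.Ent

variable {E : Type*} [NormedAddCommGroup E] [InnerProductSpace ℝ E] [FiniteDimensional ℝ E]

section Param

/-- A parametric integral of a `C¹` function over `[0,1]` is `C¹`. -/
lemma contDiff_param {ρ : E → ℝ} (hρ : ContDiff ℝ 1 ρ) (e : E) :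
    ContDiff ℝ 1 (fun y : E => ∫ s in (0 : ℝ)..1, ρ (y - ⟪e, y⟫ • e + (⟪e, y⟫ * s) • e)) := by
  set G : E × ℝ → E := fun q => q.1 - ⟪e, q.1⟫ • e + (⟪e, q.1⟫ * q.2) • e with hG
  have hGc : Continuous G := by fun_prop
  set L : ℝ → E →L[ℝ] E := fun s =>
    ContinuousLinearMap.id ℝ E - (innerSL ℝ e).smulRight e + s • (innerSL ℝ e).smulRight e with hL
  have hLc : Continuous L := by fun_prop
  have hGd : ∀ y s, HasFDerivAt (fun y => G (y, s)) (L s) y := by
    intro y s
    have h1 : (fun y => G (y, s)) = fun y => L s y := by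
      ext y
      simp only [hG, hL, _root_.add_apply, _root_.sub_apply, ContinuousLinearMap.coe_id', id,
        ContinuousLinearMap.smulRight_apply, innerSL_apply_apply, _root_.smul_apply]
      module
    rw [h1]
    exact (L s).hasFDerivAt
  set F' : E → ℝ → E →L[ℝ] ℝ := fun y s => (fderiv ℝ ρ (G (y, s))).comp (L s) with hF'
  have hfc : Continuous (fderiv ℝ ρ) := hρ.continuous_fderiv one_ne_zero
  have hF'c : Continuous (fun q : E × ℝ => F' q.1 q.2) := by
    simp only [hF']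
    exact (hfc.comp hGc).clm_comp (hLc.comp continuous_snd)
  have hd : ∀ y s, HasFDerivAt (fun y => ρ (G (y, s))) (F' y s) y := by
    intro y s
    exact ((hρ.differentiable one_ne_zero).differentiableAt.hasFDerivAt).comp y (hGd y s)
  have hρG : Continuous (fun q : E × ℝ => ρ (G q)) := hρ.continuous.comp hGc
  have key : ∀ y, HasFDerivAt (fun y : E => ∫ s in (0 : ℝ)..1, ρ (G (y, s)))
      (∫ s in (0 : ℝ)..1, F' y s) y := by
    intro y
    obtain ⟨C, hC⟩ : ∃ C, ∀ q ∈ closedBall y 1 ×ˢ Icc (0 : ℝ) 1, ‖F' q.1 q.2‖ ≤ C :=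
      ((isCompact_closedBall y 1).prod isCompact_Icc).exists_bound_of_continuousOn
        hF'c.continuousOn
    apply intervalIntegral.hasFDerivAt_integral_of_dominated_of_fderiv_le
      (s := ball y 1) (bound := fun _ => C) (ball_mem_nhds y one_pos)
    · filter_upwards with z
      exact (hρG.comp (by fun_prop : Continuous fun s : ℝ => (z, s))).aestronglyMeasurable
    · exact (hρG.comp (by fun_prop : Continuous fun s : ℝ => (y, s))).intervalIntegrable _ _
    · exact (hF'c.comp (by fun_prop : Continuous fun s : ℝ => (y, s))).aestronglyMeasurable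
    · filter_upwards with s hs z hz
      rw [uIoc_of_le zero_le_one] at hs
      exact hC (z, s) ⟨ball_subset_closedBall hz, Ioc_subset_Icc_self hs⟩
    · exact intervalIntegrable_const
    · filter_upwards with s _ z _
      exact hd z s
  rw [contDiff_one_iff_fderiv]
  refine ⟨fun y => (key y).differentiableAt, ?_⟩
  have h1 : fderiv ℝ (fun y : E => ∫ s in (0 : ℝ)..1, ρ (y - ⟪e, y⟫ • e + (⟪e, y⟫ * s) • e)) =
      fun y => ∫ s in (0 : ℝ)..1, F' y s := by
    ext1 y
    exact (key y).fderiv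
  rw [h1]
  exact intervalIntegral.continuous_parametric_intervalIntegral_of_continuous' hF'c 0 1

end Param

/-- The primitive of the density in the direction of `e`. -/
noncomputable def prim (ρ : E → ℝ) (e : E) (y : E) : ℝ :=
  ∫ σ in (0 : ℝ)..⟪e, y⟫, ρ (y - ⟪e, y⟫ • e + σ • e)

omit [FiniteDimensional ℝ E] in
lemma prim_eq (ρ : E → ℝ) (e : E) (y : E) :
    prim ρ e y = ⟪e, y⟫ * ∫ s in (0 : ℝ)..1, ρ (y - ⟪e, y⟫ • e + (⟪e, y⟫ * s) • e) := by
  unfold prim
  have := intervalIntegral.mul_integral_comp_mul_left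
    (f := fun σ : ℝ => ρ (y - ⟪e, y⟫ • e + σ • e)) (c := ⟪e, y⟫) (a := 0) (b := 1)
  rw [mul_zero, mul_one] at this
  rw [← this]

lemma contDiff_prim {ρ : E → ℝ} (hρ : ContDiff ℝ 1 ρ) (e : E) : ContDiff ℝ 1 (prim ρ e) := by
  have h1 : prim ρ e = fun y : E =>
      ⟪e, y⟫ * ∫ s in (0 : ℝ)..1, ρ (y - ⟪e, y⟫ • e + (⟪e, y⟫ * s) • e) := by
    ext y
    exact prim_eq ρ e y
  rw [h1]
  exact ((innerSL ℝ e).contDiff).mul (contDiff_param hρ e)

lemma fderiv_prim {ρ : E → ℝ} (hρ : ContDiff ℝ 1 ρ) {e : E} (he : ⟪e, e⟫ = (1 : ℝ)) (y : E) :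
    fderiv ℝ (prim ρ e) y e = ρ y := by
  have h1 : HasFDerivAt (prim ρ e) (fderiv ℝ (prim ρ e) y) y :=
    ((contDiff_prim hρ e).differentiable one_ne_zero).differentiableAt.hasFDerivAt
  have h2 : HasDerivAt (fun t : ℝ => prim ρ e (y + t • e)) (fderiv ℝ (prim ρ e) y e) 0 := by
    have h3 : HasDerivAt (fun t : ℝ => y + t • e) e 0 := by
      have := ((hasDerivAt_id (0 : ℝ)).smul_const e).const_add y
      rwa [one_smul] at this
    have h4 : HasFDerivAt (prim ρ e) (fderiv ℝ (prim ρ e) y) (y + (0 : ℝ) • e) := by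
      rwa [zero_smul, add_zero]
    exact h4.comp_hasDerivAt (0 : ℝ) h3
  have h5 : (fun t : ℝ => prim ρ e (y + t • e)) = fun t : ℝ =>
      ∫ σ in (0 : ℝ)..(⟪e, y⟫ + t), ρ (y - ⟪e, y⟫ • e + σ • e) := by
    ext t
    unfold prim
    rw [inner_add_right, inner_smul_right, he, mul_one]
    congr 1
    ext σ
    congr 1
    module
  rw [h5] at h2
  have h6 : HasDerivAt (fun t : ℝ => ∫ σ in (0 : ℝ)..(⟪e, y⟫ + t), ρ (y - ⟪e, y⟫ • e + σ • e))
      (ρ y) 0 := by
    have hc : Continuous (fun σ : ℝ => ρ (y - ⟪e, y⟫ • e + σ • e)) :=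
      hρ.continuous.comp (by fun_prop)
    have h7 : HasDerivAt (fun u : ℝ => ∫ σ in (0 : ℝ)..u, ρ (y - ⟪e, y⟫ • e + σ • e))
        (ρ (y - ⟪e, y⟫ • e + ⟪e, y⟫ • e)) (⟪e, y⟫ + 0) := by
      rw [add_zero]
      exact intervalIntegral.integral_hasDerivAt_right (hc.intervalIntegrable _ _)
        hc.aestronglyMeasurable.stronglyMeasurableAtFilter hc.continuousAt
    rw [sub_add_cancel] at h7
    have h8 := h7.comp (0 : ℝ) ((hasDerivAt_id (0 : ℝ)).const_add ⟪e, y⟫)
    rw [mul_one] at h8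
    exact h8
  exact h2.unique h6

/-- The straightening map. -/
noncomputable def strt (ρ : E → ℝ) (e : E) (y : E) : E := y + (prim ρ e y - ⟪e, y⟫) • e

/-- Its derivative. -/
noncomputable def strt' (ρ : E → ℝ) (e : E) (y : E) : E →L[ℝ] E :=
  ContinuousLinearMap.id ℝ E + (fderiv ℝ (prim ρ e) y - innerSL ℝ e).smulRight e

lemma contDiff_strt {ρ : E → ℝ} (hρ : ContDiff ℝ 1 ρ) (e : E) : ContDiff ℝ 1 (strt ρ e) :=
  contDiff_id.add (((contDiff_prim hρ e).sub (innerSL ℝ e).contDiff).smul contDiff_const)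

lemma hasFDerivAt_strt {ρ : E → ℝ} (hρ : ContDiff ℝ 1 ρ) (e : E) (y : E) :
    HasFDerivAt (strt ρ e) (strt' ρ e y) y := by
  have h1 : HasFDerivAt (prim ρ e) (fderiv ℝ (prim ρ e) y) y :=
    ((contDiff_prim hρ e).differentiable one_ne_zero).differentiableAt.hasFDerivAt
  exact (hasFDerivAt_id y).add ((h1.sub (innerSL ℝ e).hasFDerivAt).smul_const e)

lemma det_strt' {ρ : E → ℝ} (hρ : ContDiff ℝ 1 ρ) {e : E} (he : ⟪e, e⟫ = (1 : ℝ)) (y : E) :
    (strt' ρ e y).det = ρ y := by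
  have h2 : ((strt' ρ e y : E →L[ℝ] E) : E →ₗ[ℝ] E) =
      LinearMap.transvection ((fderiv ℝ (prim ρ e) y - innerSL ℝ e : E →L[ℝ] ℝ) : E →ₗ[ℝ] ℝ) e := by
    ext w
    simp [LinearMap.transvection.apply, strt']
  unfold ContinuousLinearMap.det
  rw [h2, LinearMap.transvection.det]
  simp only [ContinuousLinearMap.coe_coe, _root_.sub_apply, innerSL_apply_apply]
  rw [fderiv_prim hρ he, he]
  ring

/-- **Straightening**: a local `C¹` diffeomorphism with prescribed positive Jacobian. -/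
theorem exists_straight [Nontrivial E] {ρ : E → ℝ} (hρ : ContDiff ℝ 1 ρ) (y0 : E)
    (hpos : 0 < ρ y0) :
    ∃ Φ : OpenPartialHomeomorph E E, y0 ∈ Φ.source ∧ ContDiffAt ℝ 1 Φ y0 ∧
      ContDiffAt ℝ 1 Φ.symm (Φ y0) ∧
      ∃ Φ' : E → E →L[ℝ] E, ∀ y, HasFDerivAt Φ (Φ' y) y ∧ (Φ' y).det = ρ y := by
  obtain ⟨e, he1⟩ := exists_norm_eq E zero_le_one
  have he : ⟪e, e⟫ = (1 : ℝ) := by rw [real_inner_self_eq_norm_sq, he1, one_pow]
  have hdet : (strt' ρ e y0).det ≠ 0 := by rw [det_strt' hρ he]; exact hpos.ne'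
  set A := ContinuousLinearMap.toContinuousLinearEquivOfDetNeZero (strt' ρ e y0) hdet with hA
  have hd : HasFDerivAt (strt ρ e) (A : E →L[ℝ] E) y0 := by
    rw [hA, ContinuousLinearMap.coe_toContinuousLinearEquivOfDetNeZero]
    exact hasFDerivAt_strt hρ e y0
  have hc : ContDiffAt ℝ 1 (strt ρ e) y0 := (contDiff_strt hρ e).contDiffAt
  refine ⟨hc.toOpenPartialHomeomorph (strt ρ e) hd one_ne_zero,
    hc.mem_toOpenPartialHomeomorph_source hd one_ne_zero, ?_, ?_, strt' ρ e, ?_⟩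
  · rw [ContDiffAt.toOpenPartialHomeomorph_coe]
    exact hc
  · exact hc.to_localInverse hd one_ne_zero
  · intro y
    rw [ContDiffAt.toOpenPartialHomeomorph_coe]
    exact ⟨hasFDerivAt_strt hρ e y, det_strt' hρ he y⟩

end Pool.Agent.Lib_helper19.Ent
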