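import Mathlib
import Pool.Agent.Lib_helper19.Ent.Flat
import Pool.Agent.Lib_helper19.Ent.Straight

set_option autoImplicit false
set_option linter.unusedSectionVars false

/-!
# Existence of flat charts from a chart in which the measure has a positive `C¹` density
-/

open Set Filter MeasureTheory Metric
open scoped Topology RealInnerProductSpace NNReal ENNReal Pointwise

namespace Pool.Agent.Lib_helper19.Ent

variable {X E : Type*} [MetricSpace X] [MeasurableSpace X] [BorelSpace X] {μ : Measure X}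
    [NormedAddCommGroup E] [InnerProductSpace ℝ E] [FiniteDimensional ℝ E]
    [MeasurableSpace E] [BorelSpace E]

/-- A function which is `C¹` near a point coincides near it with a globally `C¹` function. -/
lemma exists_contDiff_eventuallyEq {ρ : E → ℝ} {y0 : E} (h : ContDiffAt ℝ 1 ρ y0) :
    ∃ ρ' : E → ℝ, ContDiff ℝ 1 ρ' ∧ ρ' =ᶠ[𝓝 y0] ρ := by
  obtain ⟨u, hu, hρ⟩ := h.contDiffOn le_rfl (by simp)
  obtain ⟨R, hR, hball⟩ := Metric.mem_nhds_iff.mp hu
  let f : ContDiffBump y0 := ⟨R / 4, R / 2, by positivity, by linarith⟩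
  refine ⟨fun y => f y * ρ y, ?_, ?_⟩
  · rw [contDiff_iff_contDiffAt]
    intro y
    by_cases hy : y ∈ ball y0 R
    · apply (f.contDiff.contDiffAt).mul
      exact (hρ.mono hball).contDiffAt (isOpen_ball.mem_nhds hy)
    · have h1 : (fun y => f y * ρ y) =ᶠ[𝓝 y] fun _ => 0 := by
        have h2 : (closedBall y0 (R / 2))ᶜ ∈ 𝓝 y := by
          apply isClosed_closedBall.isOpen_compl.mem_nhds
          intro h3
          apply hy
          exact closedBall_subset_ball (by linarith) h3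
        filter_upwards [h2] with z hz
        have h3 : f z = 0 := by
          apply f.zero_of_le_dist
          rw [mem_compl_iff, mem_closedBall, not_le] at hz
          exact hz.le
        rw [h3, zero_mul]
      exact contDiffAt_const.congr_of_eventuallyEq h1
  · filter_upwards [f.eventuallyEq_one] with y hy
    rw [hy]
    simp

/-- **Existence of flat charts.** -/
theorem exists_flatChart [Nontrivial E] {O : Set E} (hO : IsOpen O) {V : Set X} (hV : IsOpen V)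
    (φ : X → E) (χ : E → X) (hφ : ∀ x ∈ V, φ x ∈ O) (hχ : ∀ y ∈ O, χ y ∈ V)
    (hφχ : ∀ y ∈ O, φ (χ y) = y) (hχφ : ∀ x ∈ V, χ (φ x) = x) {C : ℝ≥0}
    (hφL : ∀ x ∈ V, ∀ y ∈ V, dist (φ x) (φ y) ≤ C * dist x y)
    (hχL : ∀ x ∈ O, ∀ y ∈ O, dist (χ x) (χ y) ≤ C * dist x y)
    {ρ : E → ℝ} {y0 : E} (hy0 : y0 ∈ O) (hρ : ContDiffAt ℝ 1 ρ y0) (hρ0 : 0 < ρ y0)
    (hμ : ∀ A : Set E, MeasurableSet A → A ⊆ O → μ (χ '' A) = ∫⁻ y in A, ENNReal.ofReal (ρ y)) :
    Nonempty (FlatChart X E μ) := by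
  obtain ⟨ρ', hρ', hρρ'⟩ := exists_contDiff_eventuallyEq hρ
  have hρ'0 : 0 < ρ' y0 := by rw [hρρ'.self_of_nhds]; exact hρ0
  obtain ⟨Φ, hΦ0, hΦc, hΦc', Φ', hΦ'⟩ := exists_straight hρ' y0 hρ'0
  obtain ⟨K1, t1, ht1, hK1⟩ := hΦc.exists_lipschitzOnWith
  obtain ⟨K2, t2, ht2, hK2⟩ := hΦc'.exists_lipschitzOnWith
  -- the good neighbourhood of `y0`
  have hpos : ∀ᶠ y in 𝓝 y0, 0 < ρ' y := hρ'.continuous.continuousAt.eventually (lt_mem_nhds hρ'0)
  have hW : {y | y ∈ O ∧ y ∈ t1 ∧ ρ' y = ρ y ∧ 0 < ρ' y} ∈ 𝓝 y0 := by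
    filter_upwards [hO.mem_nhds hy0, ht1, hρρ', hpos] with y h1 h2 h3 h4
    exact ⟨h1, h2, h3, h4⟩
  have hΦs : ContinuousAt Φ.symm (Φ y0) := Φ.symm.continuousAt (by
    rw [Φ.symm_source]
    exact Φ.map_source hΦ0)
  have hWΦ : {z | z ∈ Φ.target ∧ z ∈ t2 ∧
      Φ.symm z ∈ {y | y ∈ O ∧ y ∈ t1 ∧ ρ' y = ρ y ∧ 0 < ρ' y}} ∈ 𝓝 (Φ y0) := by
    have h1 : Φ.symm ⁻¹' {y | y ∈ O ∧ y ∈ t1 ∧ ρ' y = ρ y ∧ 0 < ρ' y} ∈ 𝓝 (Φ y0) := by
      apply hΦs.preimage_mem_nhds
      rw [Φ.left_inv hΦ0]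
      exact hW
    filter_upwards [Φ.open_target.mem_nhds (Φ.map_source hΦ0), ht2, h1] with z h1 h2 h3
    exact ⟨h1, h2, h3⟩
  obtain ⟨R, hR, hball⟩ := Metric.mem_nhds_iff.mp hWΦ
  set r : ℝ := R / 2 with hr
  have hr0 : 0 < r := by positivity
  set a : E := Φ y0 with ha
  have hmem : ∀ u : E, u ∈ ball (0 : E) 2 → a + r • u ∈ ball a R := by
    intro u hu
    rw [mem_ball_zero_iff] at hu
    rw [mem_ball, dist_eq_norm, add_sub_cancel_left, norm_smul, Real.norm_of_nonneg hr0.le]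
    nlinarith
  have hg : ∀ u : E, u ∈ ball (0 : E) 2 → (a + r • u ∈ Φ.target ∧ a + r • u ∈ t2 ∧
      Φ.symm (a + r • u) ∈ O ∧ Φ.symm (a + r • u) ∈ t1 ∧
      ρ' (Φ.symm (a + r • u)) = ρ (Φ.symm (a + r • u)) ∧ 0 < ρ' (Φ.symm (a + r • u))) :=
    fun u hu => hball (hmem u hu)
  set U : Set X := {x | x ∈ V ∧ φ x ∈ Φ.source ∧ Φ (φ x) ∈ ball a R ∧ φ x ∈ t1} with hU
  -- a cleaner description of `U`
  have hUeq : U = V ∩ φ ⁻¹' (Φ.source ∩ Φ ⁻¹' ball a R) := by
    ext x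
    constructor
    · rintro ⟨h1, h2, h3, h4⟩
      exact ⟨h1, h2, h3⟩
    · rintro ⟨h1, h2, h3⟩
      refine ⟨h1, h2, h3, ?_⟩
      have h4 := (hball h3).2.2.2.1
      rwa [Φ.left_inv h2] at h4
  have hφc : ContinuousOn φ V :=
    (LipschitzOnWith.of_dist_le_mul (K := C) (fun x hx y hy => hφL x hx y hy)).continuousOn
  have hUo : IsOpen U := by
    rw [hUeq]
    exact hφc.isOpen_inter_preimage hV (Φ.isOpen_inter_preimage isOpen_ball)
  have hκ : ∀ u ∈ ball (0 : E) 2, χ (Φ.symm (a + r • u)) ∈ U := by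
    intro u hu
    obtain ⟨h1, h2, h3, h4, h5, h6⟩ := hg u hu
    refine ⟨hχ _ h3, ?_, ?_, ?_⟩
    · rw [hφχ _ h3]; exact Φ.map_target h1
    · rw [hφχ _ h3, Φ.right_inv h1]; exact hmem u hu
    · rw [hφχ _ h3]; exact h4
  set CC : ℝ≥0 := 1 + C * (K2 * ⟨r, hr0.le⟩) + ⟨r⁻¹, (inv_pos.mpr hr0).le⟩ * (K1 * C) with hCC
  refine ⟨{
    κ := fun u => χ (Φ.symm (a + r • u))
    ψ := fun x => r⁻¹ • (Φ (φ x) - a)
    U := U
    isOpen_U := hUo
    κ_mem := hκ
    ψ_mem := ?_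
    ψκ := ?_
    κψ := ?_
    C := CC
    one_le_C := ?_
    lip_κ := ?_
    lip_ψ := ?_
    c := ENNReal.ofReal (r ^ Module.finrank ℝ E)
    c_ne_zero := ?_
    c_ne_top := ENNReal.ofReal_ne_top
    measure := ?_ }⟩
  · rintro x ⟨-, -, h3, -⟩
    rw [mem_ball, dist_eq_norm] at h3
    rw [mem_ball_zero_iff, norm_smul, norm_inv, Real.norm_of_nonneg hr0.le, inv_mul_lt_iff₀ hr0]
    linarith
  · intro u hu
    obtain ⟨h1, h2, h3, h4, h5, h6⟩ := hg u hu
    rw [hφχ _ h3, Φ.right_inv h1, add_sub_cancel_left, smul_smul, inv_mul_cancel₀ hr0.ne', one_smul]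
  · rintro x ⟨h1, h2, h3, h4⟩
    rw [smul_smul, mul_inv_cancel₀ hr0.ne', one_smul, add_sub_cancel, Φ.left_inv h2, hχφ x h1]
  · rw [hCC, add_assoc]
    exact le_self_add
  · intro u hu v hv
    obtain ⟨h1, h2, h3, h4, h5, h6⟩ := hg u hu
    obtain ⟨h1', h2', h3', h4', h5', h6'⟩ := hg v hv
    have e1 := hχL _ h3 _ h3'
    have e2 := hK2.dist_le_mul _ h2 _ h2'
    rw [dist_add_left, dist_smul₀, Real.norm_of_nonneg hr0.le] at e2
    have e3 : (CC : ℝ) = 1 + C * (K2 * r) + r⁻¹ * (K1 * C) := by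
      rw [hCC]; push_cast; rfl
    rw [e3]
    have hd : 0 ≤ dist u v := dist_nonneg
    have hc1 : (0 : ℝ) ≤ r⁻¹ * (K1 * C) := by positivity
    calc dist (χ (Φ.symm (a + r • u))) (χ (Φ.symm (a + r • v)))
        ≤ C * (K2 * (r * dist u v)) := e1.trans (mul_le_mul_of_nonneg_left e2 C.2)
      _ = (C * (K2 * r)) * dist u v := by ring
      _ ≤ _ := by
        apply mul_le_mul_of_nonneg_right _ hd
        linarith
  · rintro x ⟨h1, h2, h3, h4⟩ y ⟨h1', h2', h3', h4'⟩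
    have e1 := hφL _ h1 _ h1'
    have e2 := hK1.dist_le_mul _ h4 _ h4'
    have e3 : (CC : ℝ) = 1 + C * (K2 * r) + r⁻¹ * (K1 * C) := by
      rw [hCC]; push_cast; rfl
    rw [e3, dist_smul₀, dist_sub_right, norm_inv, Real.norm_of_nonneg hr0.le]
    have hd : 0 ≤ dist x y := dist_nonneg
    have hc1 : (0 : ℝ) ≤ C * (K2 * r) := by positivity
    calc r⁻¹ * dist (Φ (φ x)) (Φ (φ y)) ≤ r⁻¹ * (K1 * (C * dist x y)) := by
          apply mul_le_mul_of_nonneg_left _ (by positivity)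
          exact e2.trans (mul_le_mul_of_nonneg_left e1 K1.2)
      _ = (r⁻¹ * (K1 * C)) * dist x y := by ring
      _ ≤ _ := by
        apply mul_le_mul_of_nonneg_right _ hd
        linarith
  · rw [Ne, ENNReal.ofReal_eq_zero, not_le]
    positivity
  · intro S hS hS2
    -- the image in the model
    set T : Set E := (fun u : E => a + r • u) '' S with hT
    have hTb : T ⊆ ball a R := by
      rintro _ ⟨u, hu, rfl⟩
      exact hmem u (hS2 hu)
    have hTt : T ⊆ Φ.target := fun z hz => (hball (hTb hz)).1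
    have hTm : MeasurableSet T := by
      have e : T = (fun z : E => r⁻¹ • (z - a)) ⁻¹' S := by
        ext z
        constructor
        · rintro ⟨u, hu, rfl⟩
          simp only [mem_preimage]
          rwa [add_sub_cancel_left, smul_smul, inv_mul_cancel₀ hr0.ne', one_smul]
        · intro hz
          exact ⟨_, hz, by simp only; rw [smul_smul, mul_inv_cancel₀ hr0.ne', one_smul]; abel⟩
      rw [e]
      exact (by fun_prop : Measurable fun z : E => r⁻¹ • (z - a)) hS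
    set A : Set E := Φ.symm '' T with hA
    have hAO : A ⊆ O := by
      rintro _ ⟨z, hz, rfl⟩
      exact (hball (hTb hz)).2.2.1
    have hAm : MeasurableSet A := by
      apply hTm.image_of_continuousOn_injOn
      · exact Φ.continuousOn_symm.mono hTt
      · exact (Φ.symm.injOn).mono (by rw [Φ.symm_source]; exact hTt)
    have h1 : (fun u => χ (Φ.symm (a + r • u))) '' S = χ '' A := by
      rw [hA, hT, image_image, image_image]
    rw [h1, hμ A hAm hAO]
    have h2 : ∫⁻ y in A, ENNReal.ofReal (ρ y) = ∫⁻ y in A, ENNReal.ofReal |(Φ' y).det| := by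
      apply setLIntegral_congr_fun hAm
      rintro _ ⟨z, hz, rfl⟩
      have h3 := (hball (hTb hz)).2.2
      simp only
      rw [(hΦ' _).2, ← h3.2.2.1, abs_of_pos h3.2.2.2]
    have hinj : InjOn Φ A := by
      apply Φ.injOn.mono
      rintro _ ⟨z, hz, rfl⟩
      exact Φ.map_target (hTt hz)
    have h3 : Φ '' A = T := by
      rw [hA, image_image]
      ext z
      constructor
      · rintro ⟨w, hw, rfl⟩
        simp only
        rwa [Φ.right_inv (hTt hw)]
      · intro hz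
        exact ⟨z, hz, Φ.right_inv (hTt hz)⟩
    rw [h2, lintegral_abs_det_fderiv_eq_addHaar_image volume hAm
      (fun y _ => (hΦ' y).1.hasFDerivWithinAt) hinj, h3, hT]
    have h4 : (fun u : E => a + r • u) '' S = (fun z => a + z) '' ((fun u => r • u) '' S) := by
      rw [image_image]
    rw [h4, image_add_left, measure_preimage_add, image_smul, Measure.addHaar_smul,
      abs_of_pos (by positivity)]

end Pool.Agent.Lib_helper19.Ent
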