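import Mathlib
import Pool.Agent.Lib_helper19.Ent.MfdLip
import Pool.Agent.Lib_helper19.Ent.FlatExist

set_option autoImplicit false
set_option linter.unusedSectionVars false

/-!
# The Riemannian volume and existence of flat charts
-/

open Bundle Set MeasureTheory Filter Metric Manifold
open scoped Manifold ContDiff Topology ENNReal NNReal

namespace Pool.Agent.Lib_helper19.Ent

variable {E : Type*} [NormedAddCommGroup E] [InnerProductSpace ℝ E] [FiniteDimensional ℝ E]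
  {X : Type*} [MetricSpace X] [ChartedSpace E X]
  [RiemannianBundle (fun x : X => TangentSpace 𝓘(ℝ, E) x)]

/-- The matrix `g_ij(y) = ⟨∂_i, ∂_j⟩` of the Riemannian metric in the chart at `x0`, at the point
with coordinates `y`; here `∂_i` is the image, under the derivative of the inverse chart, of the
`i`-th vector of an orthonormal basis of the Euclidean space `E` on which `X` is modelled. -/
noncomputable def coordGram (x0 : X) (y : E) :
    Matrix (Fin (Module.finrank ℝ E)) (Fin (Module.finrank ℝ E)) ℝ :=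
  Matrix.gram ℝ fun i : Fin (Module.finrank ℝ E) =>
    mfderiv 𝓘(ℝ, E) 𝓘(ℝ, E) (extChartAt 𝓘(ℝ, E) x0).symm y (stdOrthonormalBasis ℝ E i)

variable (E) in
/-- `vol` is the Riemannian volume: in each chart of the preferred atlas it has the density
`√(det g_ij)` with respect to Lebesgue measure. -/
def IsRiemannianVolume [MeasurableSpace E] [BorelSpace E] [MeasurableSpace X] (vol : Measure X) :
    Prop :=
  ∀ (x0 : X) (A : Set E), MeasurableSet A →
    A ⊆ (extChartAt 𝓘(ℝ, E) x0).target →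
      vol ((extChartAt 𝓘(ℝ, E) x0).symm '' A) =
        ∫⁻ y in A, ENNReal.ofReal (Real.sqrt (coordGram x0 y).det)

section Density

variable [IsManifold 𝓘(ℝ, E) ∞ X]
  [IsContMDiffRiemannianBundle 𝓘(ℝ, E) ∞ E
    (fun x : X => TangentSpace 𝓘(ℝ, E) x)]

lemma contMDiffOn_coordVec (x0 : X) (v : E) :
    ContMDiffOn 𝓘(ℝ, E) 𝓘(ℝ, E).tangent ∞
      (fun y : E => (⟨(extChartAt 𝓘(ℝ, E) x0).symm y,
        mfderiv 𝓘(ℝ, E) 𝓘(ℝ, E) (extChartAt 𝓘(ℝ, E) x0).symm y v⟩ :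
          TangentBundle 𝓘(ℝ, E) X)) (extChartAt 𝓘(ℝ, E) x0).target := by
  have hO : IsOpen (extChartAt 𝓘(ℝ, E) x0).target := isOpen_extChartAt_target x0
  have h1 : ContMDiffOn 𝓘(ℝ, E) 𝓘(ℝ, E) ∞ (extChartAt 𝓘(ℝ, E) x0).symm
      (extChartAt 𝓘(ℝ, E) x0).target := contMDiffOn_extChartAt_symm x0
  have h2 := h1.contMDiffOn_tangentMapWithin (m := ∞) (by simp) hO.uniqueMDiffOn
  have h3 : ContMDiffOn 𝓘(ℝ, E) 𝓘(ℝ, E).tangent ∞
      (fun y : E => (⟨y, v⟩ : TangentBundle 𝓘(ℝ, E)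
        E)) (extChartAt 𝓘(ℝ, E) x0).target :=
    contMDiffOn_vectorSpace_iff_contDiffOn.mpr contDiffOn_const
  have h4 := h2.comp h3 (fun y hy => hy)
  apply h4.congr
  intro y hy
  simp only [Function.comp_apply, tangentMapWithin]
  rw [mfderivWithin_of_isOpen hO hy]

lemma contDiffOn_coordGram (x0 : X) (i j : Fin (Module.finrank ℝ E)) :
    ContDiffOn ℝ ∞ (fun y : E => coordGram x0 y i j)
      (extChartAt 𝓘(ℝ, E) x0).target := by
  rw [← contMDiffOn_iff_contDiffOn]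
  exact ContMDiffOn.inner_bundle (IB := 𝓘(ℝ, E)) (F := E)
    (E := fun x : X => TangentSpace 𝓘(ℝ, E) x) (b := (extChartAt 𝓘(ℝ, E) x0).symm)
    (contMDiffOn_coordVec x0 (stdOrthonormalBasis ℝ E i))
    (contMDiffOn_coordVec x0 (stdOrthonormalBasis ℝ E j))

lemma contDiffOn_det_coordGram (x0 : X) :
    ContDiffOn ℝ ∞ (fun y : E => (coordGram x0 y).det)
      (extChartAt 𝓘(ℝ, E) x0).target := by
  simp_rw [Matrix.det_apply]
  apply ContDiffOn.sum
  intro σ _
  apply ContDiffOn.const_smul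
  apply contDiffOn_prod
  intro i _
  exact contDiffOn_coordGram x0 (σ i) i

lemma injective_mfderiv_symm (x0 : X) {y : E}
    (hy : y ∈ (extChartAt 𝓘(ℝ, E) x0).target) : Function.Injective
      (mfderiv 𝓘(ℝ, E) 𝓘(ℝ, E) (extChartAt 𝓘(ℝ, E) x0).symm y) := by
  have h1 := isInvertible_mfderivWithin_extChartAt_symm (I := 𝓘(ℝ, E)) hy
  rw [ModelWithCorners.range_eq_univ, mfderivWithin_univ] at h1
  exact h1.injective

lemma det_coordGram_pos (x0 : X) {y : E}
    (hy : y ∈ (extChartAt 𝓘(ℝ, E) x0).target) : 0 < (coordGram x0 y).det := by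
  apply Matrix.PosDef.det_pos
  apply Matrix.posDef_gram_of_linearIndependent
  have h1 : LinearIndependent ℝ (fun i => stdOrthonormalBasis ℝ E i) :=
    (stdOrthonormalBasis ℝ E).orthonormal.linearIndependent
  exact h1.map' (mfderiv 𝓘(ℝ, E) 𝓘(ℝ, E)
    (extChartAt 𝓘(ℝ, E) x0).symm y).toLinearMap
    (LinearMap.ker_eq_bot.mpr (injective_mfderiv_symm x0 hy))

lemma contDiffOn_density (x0 : X) :
    ContDiffOn ℝ ∞ (fun y : E => Real.sqrt (coordGram x0 y).det)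
      (extChartAt 𝓘(ℝ, E) x0).target :=
  (contDiffOn_det_coordGram x0).sqrt (fun _ hy => (det_coordGram_pos x0 hy).ne')

end Density

section Flat

variable [IsManifold 𝓘(ℝ, E) ∞ X]
  [IsContMDiffRiemannianBundle 𝓘(ℝ, E) ∞ E
    (fun x : X => TangentSpace 𝓘(ℝ, E) x)]
  [IsRiemannianManifold 𝓘(ℝ, E) X]

/-- Good neighbourhoods in a chart. -/
lemma exists_good_nhd (x0 : X) : ∃ (C : ℝ≥0) (O : Set E) (V : Set X),
    IsOpen O ∧ IsOpen V ∧ x0 ∈ V ∧ O ⊆ (extChartAt 𝓘(ℝ, E) x0).target ∧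
    V ⊆ (extChartAt 𝓘(ℝ, E) x0).source ∧
    (∀ x ∈ V, extChartAt 𝓘(ℝ, E) x0 x ∈ O) ∧ (∀ y ∈ O, (extChartAt 𝓘(ℝ, E) x0).symm y ∈ V) ∧
    (∀ x ∈ V, ∀ y ∈ V, dist (extChartAt 𝓘(ℝ, E) x0 x) (extChartAt 𝓘(ℝ, E) x0 y) ≤ C * dist x y) ∧
    (∀ x ∈ O, ∀ y ∈ O, dist ((extChartAt 𝓘(ℝ, E) x0).symm x) ((extChartAt 𝓘(ℝ, E) x0).symm y) ≤
      C * dist x y) := by
  have : IsContinuousRiemannianBundle E
      (fun x : X => TangentSpace 𝓘(ℝ, E) x) := continuous_bundle _ 𝓘(ℝ, E) X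
  obtain ⟨C1, r, hr, hrt, h1⟩ := exists_edist_symm_le 𝓘(ℝ, E) x0
  obtain ⟨C2, W, hW, hWs, h2⟩ := exists_enorm_chart_le 𝓘(ℝ, E) x0
  obtain ⟨W', hW'W, hW'o, hW'x⟩ := _root_.mem_nhds_iff.mp hW
  have hc : ContinuousOn (extChartAt 𝓘(ℝ, E) x0) (extChartAt 𝓘(ℝ, E) x0).source :=
    continuousOn_extChartAt x0
  have hc' : ContinuousOn (extChartAt 𝓘(ℝ, E) x0).symm (extChartAt 𝓘(ℝ, E) x0).target :=
    continuousOn_extChartAt_symm x0
  set V : Set X := W' ∩ ((extChartAt 𝓘(ℝ, E) x0).source ∩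
    (extChartAt 𝓘(ℝ, E) x0) ⁻¹' ball (extChartAt 𝓘(ℝ, E) x0 x0) r) with hV
  set O : Set E := ball (extChartAt 𝓘(ℝ, E) x0 x0) r ∩
    ((extChartAt 𝓘(ℝ, E) x0).target ∩ (extChartAt 𝓘(ℝ, E) x0).symm ⁻¹' W') with hO
  refine ⟨max C1 C2, O, V, ?_, ?_, ?_, ?_, ?_, ?_, ?_, ?_, ?_⟩
  · exact isOpen_ball.inter (hc'.isOpen_inter_preimage (isOpen_extChartAt_target x0) hW'o)
  · exact hW'o.inter (hc.isOpen_inter_preimage (isOpen_extChartAt_source x0) isOpen_ball)
  · exact ⟨hW'x, mem_extChartAt_source x0, mem_ball_self hr⟩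
  · exact fun y hy => hy.2.1
  · exact fun x hx => hx.2.1
  · rintro x ⟨hx1, hx2, hx3⟩
    refine ⟨hx3, (extChartAt 𝓘(ℝ, E) x0).map_source hx2, ?_⟩
    rw [mem_preimage, (extChartAt 𝓘(ℝ, E) x0).left_inv hx2]
    exact hx1
  · rintro y ⟨hy1, hy2, hy3⟩
    refine ⟨hy3, (extChartAt 𝓘(ℝ, E) x0).map_target hy2, ?_⟩
    rw [mem_preimage, (extChartAt 𝓘(ℝ, E) x0).right_inv hy2]
    exact hy1
  · intro x hx y hy
    have h3 := h2 x (hW'W hx.1) y (hW'W hy.1)
    rw [edist_nndist, edist_nndist] at h3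
    have h4 : nndist (extChartAt 𝓘(ℝ, E) x0 x) (extChartAt 𝓘(ℝ, E) x0 y) ≤ C2 * nndist x y := by
      exact_mod_cast h3
    rw [dist_nndist, dist_nndist]
    have h5 : nndist (extChartAt 𝓘(ℝ, E) x0 x) (extChartAt 𝓘(ℝ, E) x0 y) ≤
        max C1 C2 * nndist x y := h4.trans (by gcongr; exact le_max_right _ _)
    exact_mod_cast h5
  · intro x hx y hy
    have h3 := h1 x hx.1 y hy.1
    rw [edist_nndist, edist_nndist] at h3
    have h4 : nndist ((extChartAt 𝓘(ℝ, E) x0).symm x) ((extChartAt 𝓘(ℝ, E) x0).symm y) ≤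
        C1 * nndist x y := by
      exact_mod_cast h3
    rw [dist_nndist, dist_nndist]
    have h5 : nndist ((extChartAt 𝓘(ℝ, E) x0).symm x) ((extChartAt 𝓘(ℝ, E) x0).symm y) ≤
        max C1 C2 * nndist x y := h4.trans (by gcongr; exact le_max_left _ _)
    exact_mod_cast h5

variable [MeasurableSpace E] [BorelSpace E] [MeasurableSpace X] [BorelSpace X]

/-- A Riemannian manifold with its volume has flat charts. -/
theorem exists_flatChart_of_volume (hd : 1 ≤ Module.finrank ℝ E) {vol : Measure X} (hvol : IsRiemannianVolume E vol)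
    (x0 : X) : Nonempty (FlatChart X E vol) := by
  obtain ⟨C, O, V, hO, hV, hx0, hOt, hVs, h1, h2, h3, h4⟩ := exists_good_nhd (E := E) x0
  have : Nontrivial E := by
    apply Module.nontrivial_of_finrank_pos (R := ℝ)
    omega
  have hy0 : extChartAt 𝓘(ℝ, E) x0 x0 ∈ (extChartAt 𝓘(ℝ, E) x0).target := mem_extChartAt_target x0
  apply exists_flatChart hO hV (extChartAt 𝓘(ℝ, E) x0) (extChartAt 𝓘(ℝ, E) x0).symm h1 h2
    (fun y hy => (extChartAt 𝓘(ℝ, E) x0).right_inv (hOt hy))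
    (fun x hx => (extChartAt 𝓘(ℝ, E) x0).left_inv (hVs hx)) h3 h4 (h1 x0 hx0)
    (ρ := fun y => Real.sqrt (coordGram x0 y).det)
  · exact ((contDiffOn_density x0).contDiffAt ((isOpen_extChartAt_target x0).mem_nhds hy0)).of_le
      (by norm_cast)
  · exact Real.sqrt_pos.mpr (det_coordGram_pos x0 hy0)
  · intro A hA hAO
    exact hvol x0 A hA (hAO.trans hOt)

/-- The Riemannian volume is locally finite. -/
lemma IsRiemannianVolume.isLocallyFinite {vol : Measure X} (hvol : IsRiemannianVolume E vol) :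
    IsLocallyFiniteMeasure vol := by
  refine ⟨fun x0 => ?_⟩
  have hy0 : extChartAt 𝓘(ℝ, E) x0 x0 ∈ (extChartAt 𝓘(ℝ, E) x0).target := mem_extChartAt_target x0
  obtain ⟨r, hr, hball⟩ := Metric.nhds_basis_closedBall.mem_iff.mp
    ((isOpen_extChartAt_target x0).mem_nhds hy0)
  have hcont : ContinuousOn (fun y => Real.sqrt (coordGram x0 y).det)
      (closedBall (extChartAt 𝓘(ℝ, E) x0 x0) r) := (contDiffOn_density x0).continuousOn.mono hball
  obtain ⟨M, hM⟩ := (isCompact_closedBall (extChartAt 𝓘(ℝ, E) x0 x0) r).exists_bound_of_continuousOn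
    hcont
  have hb2 : ball (extChartAt 𝓘(ℝ, E) x0 x0) r ⊆ (extChartAt 𝓘(ℝ, E) x0).target :=
    ball_subset_closedBall.trans hball
  refine ⟨(extChartAt 𝓘(ℝ, E) x0).symm '' ball (extChartAt 𝓘(ℝ, E) x0 x0) r, ?_, ?_⟩
  · have h1 : (extChartAt 𝓘(ℝ, E) x0).symm '' ball (extChartAt 𝓘(ℝ, E) x0 x0) r =
        (extChartAt 𝓘(ℝ, E) x0).source ∩
          (extChartAt 𝓘(ℝ, E) x0) ⁻¹' ball (extChartAt 𝓘(ℝ, E) x0 x0) r := by
      rw [(extChartAt 𝓘(ℝ, E) x0).symm_image_eq_source_inter_preimage hb2]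
    rw [h1]
    apply ((continuousOn_extChartAt x0).isOpen_inter_preimage (isOpen_extChartAt_source x0)
      isOpen_ball).mem_nhds
    exact ⟨mem_extChartAt_source x0, mem_ball_self hr⟩
  · rw [hvol x0 _ measurableSet_ball hb2]
    calc ∫⁻ y in ball (extChartAt 𝓘(ℝ, E) x0 x0) r, ENNReal.ofReal (Real.sqrt (coordGram x0 y).det)
        ≤ ∫⁻ _ in ball (extChartAt 𝓘(ℝ, E) x0 x0) r, ENNReal.ofReal M := by
          apply setLIntegral_mono measurable_const
          intro y hy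
          apply ENNReal.ofReal_le_ofReal
          exact (le_abs_self _).trans (hM y (ball_subset_closedBall hy))
      _ = ENNReal.ofReal M * volume (ball (extChartAt 𝓘(ℝ, E) x0 x0) r) := by
          rw [setLIntegral_const]
      _ < ⊤ := ENNReal.mul_lt_top ENNReal.ofReal_lt_top measure_ball_lt_top

end Flat

end Pool.Agent.Lib_helper19.Ent
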