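import Mathlib
import Pool.Agent.Lib_helper19.Ent.MfdLip
import Pool.Agent.Lib_helper19.Ent.Vol

set_option autoImplicit false
set_option linter.unusedSectionVars false

/-!
# Derivatives of maps on a Riemannian manifold: formula in charts, bounds, measurability
-/

open Bundle Set MeasureTheory Filter Metric Manifold
open scoped Manifold ContDiff Topology ENNReal NNReal

namespace Pool.Agent.Lib_helper19.Ent

variable {E : Type*} [NormedAddCommGroup E] [InnerProductSpace ℝ E] [FiniteDimensional ℝ E]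
  {X : Type*} [MetricSpace X] [ChartedSpace E X]
  [RiemannianBundle (fun x : X => TangentSpace 𝓘(ℝ, E) x)]
  {F : Type*} [NormedAddCommGroup F] [NormedSpace ℝ F]

variable (E) in
/-- The derivative of `u : X → F` at `x`, as a continuous linear map from the tangent space (with
the Riemannian norm) to `F`. It is `0` where `u` is not differentiable. -/
noncomputable def dd (u : X → F) (x : X) : TangentSpace 𝓘(ℝ, E) x →L[ℝ] F :=
  mfderiv 𝓘(ℝ, E) 𝓘(ℝ, F) u x

section

variable [IsManifold 𝓘(ℝ, E) ∞ X]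

/-- The derivative of the chart at `x0`, as a continuous linear map. -/
noncomputable def Lc (x0 x : X) : TangentSpace 𝓘(ℝ, E) x →L[ℝ] E :=
  (trivializationAt E (TangentSpace 𝓘(ℝ, E)) x0).continuousLinearMapAt ℝ x

/-- The inverse of the derivative of the chart at `x0`. -/
noncomputable def Rc (x0 x : X) : E →L[ℝ] TangentSpace 𝓘(ℝ, E) x :=
  (trivializationAt E (TangentSpace 𝓘(ℝ, E)) x0).symmL ℝ x

lemma mem_baseSet {x0 x : X} (hx : x ∈ (extChartAt 𝓘(ℝ, E) x0).source) :
    x ∈ (trivializationAt E (TangentSpace 𝓘(ℝ, E)) x0).baseSet := by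
  rw [extChartAt_source] at hx
  exact hx

lemma Lc_Rc {x0 x : X} (hx : x ∈ (extChartAt 𝓘(ℝ, E) x0).source) (w : E) :
    Lc x0 x (Rc x0 x w) = w :=
  Trivialization.continuousLinearMapAt_symmL _ (mem_baseSet hx) w

lemma Rc_Lc {x0 x : X} (hx : x ∈ (extChartAt 𝓘(ℝ, E) x0).source) (v : TangentSpace 𝓘(ℝ, E) x) :
    Rc x0 x (Lc x0 x v) = v :=
  Trivialization.symmL_continuousLinearMapAt _ (mem_baseSet hx) v

set_option backward.isDefEq.respectTransparency false in
/-- The derivative in a chart. -/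
lemma dd_eq (u : X → F) {x0 x : X} (hx : x ∈ (extChartAt 𝓘(ℝ, E) x0).source) :
    dd E u x = (fderiv ℝ (u ∘ (extChartAt 𝓘(ℝ, E) x0).symm) (extChartAt 𝓘(ℝ, E) x0 x)).comp
      (Lc x0 x) := by
  have hx' : x ∈ (chartAt E x0).source := by
    rwa [extChartAt_source] at hx
  have hL : Lc x0 x = mfderiv 𝓘(ℝ, E) 𝓘(ℝ, E) (extChartAt 𝓘(ℝ, E) x0) x :=
    TangentBundle.continuousLinearMapAt_trivializationAt hx'
  have hφ : MDifferentiableAt 𝓘(ℝ, E) 𝓘(ℝ, E) (extChartAt 𝓘(ℝ, E) x0) x :=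
    mdifferentiableAt_extChartAt hx'
  have heq : (u ∘ (extChartAt 𝓘(ℝ, E) x0).symm) ∘ (extChartAt 𝓘(ℝ, E) x0) =ᶠ[𝓝 x] u := by
    filter_upwards [(isOpen_extChartAt_source x0).mem_nhds hx] with y hy
    simp only [Function.comp_apply]
    rw [(extChartAt 𝓘(ℝ, E) x0).left_inv hy]
  by_cases hu : DifferentiableAt ℝ (u ∘ (extChartAt 𝓘(ℝ, E) x0).symm) (extChartAt 𝓘(ℝ, E) x0 x)
  · have h1 : MDifferentiableAt 𝓘(ℝ, E) 𝓘(ℝ, F)
        (u ∘ (extChartAt 𝓘(ℝ, E) x0).symm) (extChartAt 𝓘(ℝ, E) x0 x) := hu.mdifferentiableAt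
    have h2 := mfderiv_comp x h1 hφ
    rw [heq.mfderiv_eq, mfderiv_eq_fderiv] at h2
    unfold dd
    rw [h2, hL]
  · have h1 : ¬ MDifferentiableAt 𝓘(ℝ, E) 𝓘(ℝ, F) u x := by
      intro h
      apply hu
      have hs : MDifferentiableAt 𝓘(ℝ, E) 𝓘(ℝ, E)
          (extChartAt 𝓘(ℝ, E) x0).symm (extChartAt 𝓘(ℝ, E) x0 x) := by
        have := mdifferentiableWithinAt_extChartAt_symm (I := 𝓘(ℝ, E))
          ((extChartAt 𝓘(ℝ, E) x0).map_source hx)
        rwa [ModelWithCorners.range_eq_univ, mdifferentiableWithinAt_univ] at this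
      have h2 : MDifferentiableAt 𝓘(ℝ, E) 𝓘(ℝ, F) u
          ((extChartAt 𝓘(ℝ, E) x0).symm (extChartAt 𝓘(ℝ, E) x0 x)) := by
        rwa [(extChartAt 𝓘(ℝ, E) x0).left_inv hx]
      have h3 := h2.comp (extChartAt 𝓘(ℝ, E) x0 x) hs
      exact mdifferentiableAt_iff_differentiableAt.mp h3
    unfold dd
    rw [mfderiv_zero_of_not_mdifferentiableAt h1, fderiv_zero_of_not_differentiableAt hu,
      ContinuousLinearMap.zero_comp]

/-- Maps that agree near a point have the same derivative there. -/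
lemma dd_congr {u v : X → F} {x : X} (h : u =ᶠ[𝓝 x] v) : dd E u x = dd E v x := by
  unfold dd
  exact h.mfderiv_eq

end

section Bound

variable [IsManifold 𝓘(ℝ, E) ∞ X]
  [IsContMDiffRiemannianBundle 𝓘(ℝ, E) ∞ E
    (fun x : X => TangentSpace 𝓘(ℝ, E) x)]
  [IsRiemannianManifold 𝓘(ℝ, E) X]

/-- Local bound of the derivative by the Lipschitz constant. -/
lemma exists_norm_dd_le_local (x0 : X) : ∃ C : ℝ≥0, ∀ᶠ x in 𝓝 x0,
    ∀ (G : Type _) [NormedAddCommGroup G] [NormedSpace ℝ G] (u : X → G) (K : ℝ≥0),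
      LipschitzWith K u → ‖dd E u x‖ ≤ C * K := by
  have : IsContinuousRiemannianBundle E
      (fun x : X => TangentSpace 𝓘(ℝ, E) x) := continuous_bundle _ 𝓘(ℝ, E) X
  obtain ⟨C1, O, V, hO, hV, hx0, hOt, hVs, h1, h2, h3, h4⟩ := exists_good_nhd (E := E) x0
  obtain ⟨C2, hC2, h5⟩ := eventually_norm_trivializationAt_lt E
    (fun x : X => TangentSpace 𝓘(ℝ, E) x) x0
  refine ⟨C1 * C2.toNNReal, ?_⟩
  filter_upwards [hV.mem_nhds hx0, h5] with x hxV hx G _ _ u K hu
  rw [dd_eq u (hVs hxV)]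
  have h6 : ‖fderiv ℝ (u ∘ (extChartAt 𝓘(ℝ, E) x0).symm) (extChartAt 𝓘(ℝ, E) x0 x)‖ ≤
      ((K * C1 : ℝ≥0) : ℝ) := by
    apply norm_fderiv_le_of_lipschitzOn ℝ (hO.mem_nhds (h1 x hxV))
    apply LipschitzOnWith.of_dist_le_mul
    intro y hy z hz
    simp only [Function.comp_apply]
    push_cast
    rw [mul_assoc]
    exact (hu.dist_le_mul _ _).trans (mul_le_mul_of_nonneg_left (h4 y hy z hz) K.2)
  have h7 : ‖Lc (E := E) x0 x‖ ≤ C2 := hx.le
  calc ‖(fderiv ℝ (u ∘ (extChartAt 𝓘(ℝ, E) x0).symm) (extChartAt 𝓘(ℝ, E) x0 x)).comp (Lc x0 x)‖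
      ≤ ‖fderiv ℝ (u ∘ (extChartAt 𝓘(ℝ, E) x0).symm) (extChartAt 𝓘(ℝ, E) x0 x)‖ *
          ‖Lc (E := E) x0 x‖ :=
        ContinuousLinearMap.opNorm_comp_le _ _
    _ ≤ ((K * C1 : ℝ≥0) : ℝ) * C2 := mul_le_mul h6 h7 (ContinuousLinearMap.opNorm_nonneg _) (NNReal.coe_nonneg _)
    _ = ((C1 * C2.toNNReal : ℝ≥0) : ℝ) * K := by
      push_cast
      rw [Real.coe_toNNReal _ hC2.le]
      ring

variable (E X) in
/-- Global bound of the derivative by the Lipschitz constant. -/
lemma exists_norm_dd_le [CompactSpace X] : ∃ C : ℝ≥0, ∀ (x : X)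
    (G : Type _) [NormedAddCommGroup G] [NormedSpace ℝ G] (u : X → G) (K : ℝ≥0),
      LipschitzWith K u → ‖dd E u x‖ ≤ C * K := by
  choose C hC using fun x0 : X => exists_norm_dd_le_local (E := E) x0
  obtain ⟨t, -, ht⟩ := isCompact_univ.elim_nhds_subcover (fun x0 => {x | ∀ (G : Type _)
    [NormedAddCommGroup G] [NormedSpace ℝ G] (u : X → G) (K : ℝ≥0),
      LipschitzWith K u → ‖dd E u x‖ ≤ C x0 * K}) (fun x0 _ => hC x0)
  refine ⟨∑ x ∈ t, C x, ?_⟩
  intro x G _ _ u K hu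
  obtain ⟨x0, hx0, hx⟩ := mem_iUnion₂.mp (ht (mem_univ x))
  refine (hx G u K hu).trans ?_
  apply mul_le_mul_of_nonneg_right _ K.2
  exact_mod_cast Finset.single_le_sum (fun i _ => zero_le (a := C i)) hx0

end Bound

section Meas

variable [IsManifold 𝓘(ℝ, E) ∞ X]
  [IsContMDiffRiemannianBundle 𝓘(ℝ, E) ∞ E
    (fun x : X => TangentSpace 𝓘(ℝ, E) x)]

lemma continuousOn_norm_Rc (x0 : X) (w : E) :
    ContinuousOn (fun x => ‖Rc x0 x w‖) (extChartAt 𝓘(ℝ, E) x0).source := by
  have : IsContinuousRiemannianBundle E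
      (fun x : X => TangentSpace 𝓘(ℝ, E) x) := continuous_bundle _ 𝓘(ℝ, E) X
  set e := trivializationAt E (TangentSpace 𝓘(ℝ, E) (M := X)) x0 with he
  have h1 : ContinuousOn (fun x => (⟨x, Rc x0 x w⟩ : TangentBundle 𝓘(ℝ, E) X))
      (extChartAt 𝓘(ℝ, E) x0).source := by
    have h2 : ContinuousOn (fun x : X => e.toOpenPartialHomeomorph.symm (x, w))
        (extChartAt 𝓘(ℝ, E) x0).source := by
      apply e.toOpenPartialHomeomorph.continuousOn_symm.comp (by fun_prop)
      intro x hx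
      rw [e.target_eq]
      exact ⟨mem_baseSet hx, mem_univ _⟩
    apply h2.congr
    intro x hx
    have h3 := e.mk_symm (mem_baseSet hx) w
    simp only
    rw [← h3]
    have h4 : Rc x0 x w = e.symm x w := Trivialization.symmL_apply (R := ℝ) e (mem_baseSet hx) w
    rw [h4]
  have h2 : ContinuousOn (fun x => inner ℝ (Rc x0 x w) (Rc x0 x w))
      (extChartAt 𝓘(ℝ, E) x0).source := ContinuousOn.inner_bundle (F := E)
        (E := fun x : X => TangentSpace 𝓘(ℝ, E) x) (b := fun x : X => x) h1 h1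
  have h3 : (fun x => ‖Rc x0 x w‖) = fun x => Real.sqrt (inner ℝ (Rc x0 x w) (Rc x0 x w)) := by
    ext x
    rw [real_inner_self_eq_norm_sq, Real.sqrt_sq (norm_nonneg _)]
  rw [h3]
  exact h2.sqrt

variable [SecondCountableTopology X] [MeasurableSpace X] [BorelSpace X] [FiniteDimensional ℝ F]

/-- The norm of a difference of derivatives is a measurable function. -/
lemma measurable_norm_dd_sub (u v : X → F) : Measurable (fun x => ‖dd E u x - dd E v x‖) := by
  classical
  borelize F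
  borelize E
  apply measurable_of_Iic
  intro c
  rcases lt_or_ge c 0 with hc | hc
  · have : (fun x => ‖dd E u x - dd E v x‖) ⁻¹' Iic c = ∅ := by
      ext x
      simp only [mem_preimage, mem_Iic, mem_empty_iff_false, iff_false, not_le]
      exact lt_of_lt_of_le hc (dd E u x - dd E v x).opNorm_nonneg
    rw [this]
    exact MeasurableSet.empty
  -- a countable cover by charts
  obtain ⟨S, hS, hcov⟩ := TopologicalSpace.countable_cover_nhds
    (fun x : X => (isOpen_extChartAt_source (I := 𝓘(ℝ, E)) x).mem_nhds (mem_extChartAt_source x))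
  have key : ∀ x0 ∈ S, MeasurableSet ((extChartAt 𝓘(ℝ, E) x0).source ∩
      (fun x => ‖dd E u x - dd E v x‖) ⁻¹' Iic c) := by
    intro x0 _
    set U0 : Set X := (extChartAt 𝓘(ℝ, E) x0).source with hU0
    have hU0o : IsOpen U0 := isOpen_extChartAt_source x0
    set D : Set E :=
      TopologicalSpace.denseSeq E '' univ with hD
    have hDc : D.Countable := (countable_univ).image _
    have hDd : Dense D := by
      rw [hD, image_univ]
      exact TopologicalSpace.denseRange_denseSeq _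
    set B : X → E →L[ℝ] F := fun x =>
      fderiv ℝ (u ∘ (extChartAt 𝓘(ℝ, E) x0).symm) (extChartAt 𝓘(ℝ, E) x0 x) -
      fderiv ℝ (v ∘ (extChartAt 𝓘(ℝ, E) x0).symm) (extChartAt 𝓘(ℝ, E) x0 x) with hB
    have hN : ∀ x ∈ U0, dd E u x - dd E v x = (B x).comp (Lc x0 x) := by
      intro x hx
      rw [dd_eq u hx, dd_eq v hx, hB, ContinuousLinearMap.sub_comp]
    have hset : U0 ∩ (fun x => ‖dd E u x - dd E v x‖) ⁻¹' Iic c =
        ⋂ w ∈ D, {x | x ∈ U0 ∧ ‖B x w‖ ≤ c * ‖Rc x0 x w‖} := by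
      ext x
      simp only [mem_inter_iff, mem_preimage, mem_Iic, mem_iInter, mem_ofPred_eq]
      constructor
      · rintro ⟨hx, hx2⟩ w _
        refine ⟨hx, ?_⟩
        rw [hN x hx] at hx2
        have h1 := ((B x).comp (Lc x0 x)).le_opNorm (Rc x0 x w)
        rw [ContinuousLinearMap.comp_apply, Lc_Rc hx] at h1
        exact h1.trans (mul_le_mul_of_nonneg_right hx2 (norm_nonneg _))
      · intro h
        obtain ⟨w0, hw0⟩ := hDd.nonempty
        have hx : x ∈ U0 := (h w0 hw0).1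
        refine ⟨hx, ?_⟩
        rw [hN x hx]
        apply ContinuousLinearMap.opNorm_le_bound _ hc
        intro z
        rw [ContinuousLinearMap.comp_apply]
        have h2 : ∀ w, ‖B x w‖ ≤ c * ‖Rc x0 x w‖ := by
          have hcl : IsClosed {w | ‖B x w‖ ≤ c * ‖Rc x0 x w‖} := by
            apply isClosed_le
            · exact (B x).continuous.norm
            · exact continuous_const.mul (Rc x0 x).continuous.norm
          intro w
          have h3 : closure D ⊆ {w | ‖B x w‖ ≤ c * ‖Rc x0 x w‖} :=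
            closure_minimal (fun w hw => (h w hw).2) hcl
          exact h3 (hDd w)
        have h4 := h2 (Lc x0 x z)
        rwa [Rc_Lc hx] at h4
    rw [hset]
    apply MeasurableSet.biInter hDc
    intro w _
    -- measurability of the two sides on the open set
    have hcont : ContinuousOn (extChartAt 𝓘(ℝ, E) x0) U0 := continuousOn_extChartAt x0
    have hm1 : Measurable (U0.piecewise (extChartAt 𝓘(ℝ, E) x0) (fun _ => 0)) :=
      hcont.measurable_piecewise continuousOn_const hU0o.measurableSet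
    have hm2 : Measurable (fun y : E =>
        ‖fderiv ℝ (u ∘ (extChartAt 𝓘(ℝ, E) x0).symm) y w -
          fderiv ℝ (v ∘ (extChartAt 𝓘(ℝ, E) x0).symm) y w‖) :=
      ((measurable_fderiv_apply_const ℝ _ w).sub (measurable_fderiv_apply_const ℝ _ w)).norm
    have hm3 : Measurable (U0.piecewise (fun x => ‖Rc x0 x w‖) (fun _ => 0)) :=
      (continuousOn_norm_Rc x0 w).measurable_piecewise continuousOn_const hU0o.measurableSet
    have heq : {x | x ∈ U0 ∧ ‖B x w‖ ≤ c * ‖Rc x0 x w‖} = U0 ∩ {x |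
        ‖fderiv ℝ (u ∘ (extChartAt 𝓘(ℝ, E) x0).symm)
            (U0.piecewise (extChartAt 𝓘(ℝ, E) x0) (fun _ => 0) x) w -
          fderiv ℝ (v ∘ (extChartAt 𝓘(ℝ, E) x0).symm)
            (U0.piecewise (extChartAt 𝓘(ℝ, E) x0) (fun _ => 0) x) w‖ ≤
        c * U0.piecewise (fun x => ‖Rc x0 x w‖) (fun _ => 0) x} := by
      ext x
      simp only [mem_ofPred_eq, mem_inter_iff, and_congr_right_iff]
      intro hx
      rw [piecewise_eq_of_mem _ _ _ hx, piecewise_eq_of_mem _ _ _ hx, hB]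
      simp only [_root_.sub_apply]
    rw [heq]
    exact hU0o.measurableSet.inter (measurableSet_le (hm2.comp hm1) (hm3.const_mul c))
  have hfin : (fun x => ‖dd E u x - dd E v x‖) ⁻¹' Iic c =
      ⋃ x0 ∈ S, ((extChartAt 𝓘(ℝ, E) x0).source ∩
        (fun x => ‖dd E u x - dd E v x‖) ⁻¹' Iic c) := by
    rw [← iUnion₂_inter, hcov, univ_inter]
  rw [hfin]
  exact MeasurableSet.biUnion hS key

end Meas

end Pool.Agent.Lib_helper19.Ent
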