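import Mathlib
import Pool.Agent.Lib_helper19.Ent.MfdLip
import Pool.Agent.Lib_helper19.Ent.Vol
import Pool.Agent.Lib_helper19.Ent.Deriv
import Pool.Agent.Lib_helper19.Ent.Core

set_option autoImplicit false
set_option linter.unusedSectionVars false
set_option linter.unusedVariables false

/-!
# The space `M^p_λ(X)`
-/

open Bundle Set MeasureTheory Filter Metric Manifold
open scoped Manifold ContDiff Topology ENNReal NNReal

namespace Pool.Agent.Lib_helper19.Ent

section Defs

variable {X : Type*} [MetricSpace X] {F : Type*} [NormedAddCommGroup F] [NormedSpace ℝ F]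

/-- The `L^p` distance between the derivatives of `u, v : X → F`: it is
`(∫ ‖D u - D v‖^p)^(1/p)` if `p ≥ 1`, and `∫ ‖D u - D v‖^p` if `p ≤ 1`; the norm of the linear map
`D u x - D v x : T_x X → F` is the operator norm for the Riemannian norm on `T_x X`. -/
noncomputable def derivDist (E : Type*) [NormedAddCommGroup E] [InnerProductSpace ℝ E]
    [ChartedSpace E X]
    [RiemannianBundle (fun x : X => TangentSpace 𝓘(ℝ, E) x)] [MeasurableSpace X]
    (vol : Measure X) (p : ℝ) (u v : X → F) : ℝ≥0∞ :=
  (∫⁻ x, ENNReal.ofReal ‖dd E u x - dd E v x‖ ^ p ∂vol) ^ (1 / max p 1)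

/-- The Lipschitz homeomorphisms of `X` that preserve the measure `vol`. The other parameters are
used to define a distance on this type. -/
def LipVol (E : Type*) [MeasurableSpace X] (vol : Measure X) (ι : C(X, F)) (p : ℝ) : Type _ :=
  {f : X ≃ₜ X // (∃ K : ℝ≥0, LipschitzWith K f) ∧ MeasurePreserving f vol vol}

end Defs

variable {E : Type*} [NormedAddCommGroup E] [InnerProductSpace ℝ E] [FiniteDimensional ℝ E]
  {X : Type*} [MetricSpace X] [ChartedSpace E X]
  [RiemannianBundle (fun x : X => TangentSpace 𝓘(ℝ, E) x)]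
  {F : Type*} [NormedAddCommGroup F] [NormedSpace ℝ F]

section Norm

lemma nd_self (u : X → F) (x : X) : ‖dd E u x - dd E u x‖ = 0 := by
  rw [sub_self]
  exact ContinuousLinearMap.opNorm_zero

lemma nd_comm (u v : X → F) (x : X) : ‖dd E u x - dd E v x‖ = ‖dd E v x - dd E u x‖ := by
  rw [← ContinuousLinearMap.opNorm_neg, neg_sub]

lemma nd_triangle (u v w : X → F) (x : X) :
    ‖dd E u x - dd E w x‖ ≤ ‖dd E u x - dd E v x‖ + ‖dd E v x - dd E w x‖ := by
  have h1 : dd E u x - dd E w x = (dd E u x - dd E v x) + (dd E v x - dd E w x) := by abel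
  rw [h1]
  exact ContinuousLinearMap.opNorm_add_le _ _

lemma nd_le (u v : X → F) (x : X) :
    ‖dd E u x - dd E v x‖ ≤ ‖dd E u x‖ + ‖dd E v x‖ := by
  have h1 : dd E u x - dd E v x = dd E u x + (- dd E v x) := by abel
  rw [h1]
  refine (ContinuousLinearMap.opNorm_add_le _ _).trans ?_
  rw [ContinuousLinearMap.opNorm_neg]

lemma nd_nonneg (u v : X → F) (x : X) : 0 ≤ ‖dd E u x - dd E v x‖ :=
  ContinuousLinearMap.opNorm_nonneg _

end Norm

variable [FiniteDimensional ℝ F] [IsManifold 𝓘(ℝ, E) ∞ X]
  [IsContMDiffRiemannianBundle 𝓘(ℝ, E) ∞ E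
    (fun x : X => TangentSpace 𝓘(ℝ, E) x)]
  [MeasurableSpace X] [BorelSpace X]

section Dist

omit [FiniteDimensional ℝ F] [IsManifold 𝓘(ℝ, E) ∞ X] [IsContMDiffRiemannianBundle 𝓘(ℝ, E) ∞
  E (fun x : X => TangentSpace 𝓘(ℝ, E) x)] [BorelSpace X] in
lemma derivDist_self {vol : Measure X} {p : ℝ} (hp : 0 < p) (u : X → F) :
    derivDist E vol p u u = 0 := by
  unfold derivDist
  simp_rw [nd_self]
  rw [ENNReal.ofReal_zero, ENNReal.zero_rpow_of_pos hp, lintegral_zero, ENNReal.zero_rpow_of_pos]
  positivity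

omit [FiniteDimensional ℝ F] [IsManifold 𝓘(ℝ, E) ∞ X] [IsContMDiffRiemannianBundle 𝓘(ℝ, E) ∞
  E (fun x : X => TangentSpace 𝓘(ℝ, E) x)] [BorelSpace X] in
lemma derivDist_comm {vol : Measure X} {p : ℝ} (u v : X → F) :
    derivDist E vol p u v = derivDist E vol p v u := by
  unfold derivDist
  simp_rw [nd_comm u v]

variable [SecondCountableTopology X]

lemma derivDist_triangle {vol : Measure X} {p : ℝ} (hp : 0 < p) (u v w : X → F) :
    derivDist E vol p u w ≤ derivDist E vol p u v + derivDist E vol p v w := by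
  have hm : ∀ a b : X → F, Measurable (fun x => ENNReal.ofReal ‖dd E a x - dd E b x‖) :=
    fun a b => (measurable_norm_dd_sub (E := E) a b).ennreal_ofReal
  have htri : ∀ x, ENNReal.ofReal ‖dd E u x - dd E w x‖ ≤
      ENNReal.ofReal ‖dd E u x - dd E v x‖ + ENNReal.ofReal ‖dd E v x - dd E w x‖ := by
    intro x
    rw [← ENNReal.ofReal_add (nd_nonneg _ _ _) (nd_nonneg _ _ _)]
    exact ENNReal.ofReal_le_ofReal (nd_triangle u v w x)
  unfold derivDist
  rcases le_total 1 p with h | h
  · rw [max_eq_left h]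
    refine le_trans ?_ (ENNReal.lintegral_Lp_add_le (hm u v).aemeasurable
      (hm v w).aemeasurable h)
    gcongr with x
    exact htri x
  · rw [max_eq_right h, div_one, ENNReal.rpow_one, ENNReal.rpow_one, ENNReal.rpow_one,
      ← lintegral_add_left ((hm u v).pow_const p)]
    apply lintegral_mono
    intro x
    calc ENNReal.ofReal ‖dd E u x - dd E w x‖ ^ p
        ≤ (ENNReal.ofReal ‖dd E u x - dd E v x‖ + ENNReal.ofReal ‖dd E v x - dd E w x‖) ^ p := by
          gcongr
          exact htri x
      _ ≤ _ := ENNReal.rpow_add_le_add_rpow _ _ hp.le h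

end Dist

section Inst

variable [CompactSpace X] {vol : Measure X} {ι : C(X, F)} {p : ℝ} [hp : Fact (0 < p)]

/-- The composition `ι ∘ f`, as an element of `C(X, F)`. -/
def LipVol.toC (f : LipVol E vol ι p) : C(X, F) := ι.comp (f.1 : C(X, X))

omit [RiemannianBundle (fun x : X => TangentSpace 𝓘(ℝ, E) x)] [FiniteDimensional ℝ F]
  [IsManifold 𝓘(ℝ, E) ∞ X] [IsContMDiffRiemannianBundle 𝓘(ℝ, E) ∞
  E (fun x : X => TangentSpace 𝓘(ℝ, E) x)] [BorelSpace X] in
@[simp] lemma LipVol.toC_apply (f : LipVol E vol ι p) (x : X) : f.toC x = ι (f.1 x) := rfl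

/-- The distance `max (sup ‖ι ∘ f - ι ∘ g‖, ‖D (ι ∘ f) - D (ι ∘ g)‖_p)` on the volume preserving
Lipschitz homeomorphisms. -/
noncomputable instance : PseudoEMetricSpace (LipVol E vol ι p) where
  edist f g := max (edist f.toC g.toC) (derivDist E vol p f.toC g.toC)
  edist_self f := by
    rw [edist_self, derivDist_self hp.out, max_self]
  edist_comm f g := by
    rw [edist_comm, derivDist_comm]
  edist_triangle f g h := by
    apply max_le
    · exact (edist_triangle f.toC g.toC h.toC).trans (add_le_add (le_max_left _ _) (le_max_left _ _))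
    · exact (derivDist_triangle hp.out _ g.toC _).trans
        (add_le_add (le_max_right _ _) (le_max_right _ _))

lemma LipVol.edist_def (f g : LipVol E vol ι p) :
    edist f g = max (edist f.toC g.toC) (derivDist E vol p f.toC g.toC) := rfl

lemma LipVol.uniformContinuous_toC :
    UniformContinuous (LipVol.toC : LipVol E vol ι p → C(X, F)) := by
  rw [EMetric.uniformContinuous_iff]
  intro ε hε
  refine ⟨ε, hε, ?_⟩
  intro f g hfg
  exact lt_of_le_of_lt (le_max_left _ _) hfg

variable (E vol ι p) in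
/-- The closure of the volume preserving Lipschitz homeomorphisms, realised as the completion. -/
abbrev LipClosure : Type _ := UniformSpace.Completion (LipVol E vol ι p)

/-- The map `π₁`: the uniform limit. -/
noncomputable def pi1 (ξ : LipClosure E vol ι p) : C(X, F) :=
  UniformSpace.Completion.extension LipVol.toC ξ

variable (E vol ι p) in
/-- The space `M^p_λ(X)`: the elements `ξ` of the closure such that `π₁ ξ` is (the composition with
`ι` of) a homeomorphism of `X`. -/
def SobHomeo : Type _ := {ξ : LipClosure E vol ι p // ∃ h : X ≃ₜ X, ∀ x, pi1 ξ x = ι (h x)}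

/-- The subspace topology. -/
noncomputable instance : TopologicalSpace (SobHomeo E vol ι p) := instTopologicalSpaceSubtype

end Inst

end Pool.Agent.Lib_helper19.Ent
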