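import Mathlib
import Pool.Agent.Lib_helper19.Ent.Space

set_option autoImplicit false
set_option linter.unusedSectionVars false
set_option linter.unusedVariables false

/-!
# Genericity of infinite entropy
-/

open Bundle Set MeasureTheory Filter Metric Manifold
open scoped Manifold ContDiff Topology ENNReal NNReal

namespace Pool.Agent.Lib_helper19.Ent

variable {E : Type*} [NormedAddCommGroup E] [InnerProductSpace ℝ E] [FiniteDimensional ℝ E]
  {X : Type*} [MetricSpace X] [ChartedSpace E X]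
  [RiemannianBundle (fun x : X => TangentSpace 𝓘(ℝ, E) x)]
  {F : Type*} [NormedAddCommGroup F] [NormedSpace ℝ F]

section Lip

variable [IsManifold 𝓘(ℝ, E) ∞ X]
  [IsContMDiffRiemannianBundle 𝓘(ℝ, E) ∞ E
    (fun x : X => TangentSpace 𝓘(ℝ, E) x)]
  [IsRiemannianManifold 𝓘(ℝ, E) X]

/-- A `C¹` map on a compact Riemannian manifold is Lipschitz. -/
lemma exists_lipschitz_of_contMDiff [CompactSpace X] {ι : X → F}
    (hι : ContMDiff 𝓘(ℝ, E) 𝓘(ℝ, F) 1 ι) : ∃ K : ℝ≥0, LipschitzWith K ι := by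
  have h0 : LocallyLipschitzOn univ ι := by
    intro x0 _
    obtain ⟨C, O, V, hO, hV, hx0, hOt, hVs, h1, h2, h3, h4⟩ := exists_good_nhd (E := E) x0
    have hy0 : extChartAt 𝓘(ℝ, E) x0 x0 ∈ (extChartAt 𝓘(ℝ, E) x0).target := mem_extChartAt_target x0
    have h5 : ContDiffAt ℝ 1 (ι ∘ (extChartAt 𝓘(ℝ, E) x0).symm) (extChartAt 𝓘(ℝ, E) x0 x0) := by
      rw [← contMDiffAt_iff_contDiffAt]
      have h6 : ContMDiffOn 𝓘(ℝ, E) 𝓘(ℝ, E) 1 (extChartAt 𝓘(ℝ, E) x0).symm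
          (extChartAt 𝓘(ℝ, E) x0).target := contMDiffOn_extChartAt_symm x0
      exact hι.contMDiffAt.comp _ (h6.contMDiffAt ((isOpen_extChartAt_target x0).mem_nhds hy0))
    obtain ⟨K, t, ht, hK⟩ := h5.exists_lipschitzOnWith
    refine ⟨K * C, V ∩ (extChartAt 𝓘(ℝ, E) x0) ⁻¹' t, ?_, ?_⟩
    · rw [nhdsWithin_univ]
      apply inter_mem (hV.mem_nhds hx0)
      exact (continuousAt_extChartAt x0).preimage_mem_nhds ht
    · apply LipschitzOnWith.of_dist_le_mul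
      rintro x ⟨hx, hxt⟩ y ⟨hy, hyt⟩
      have h7 := hK.dist_le_mul _ hxt _ hyt
      simp only [Function.comp_apply] at h7
      rw [(extChartAt 𝓘(ℝ, E) x0).left_inv (hVs hx), (extChartAt 𝓘(ℝ, E) x0).left_inv (hVs hy)] at h7
      push_cast
      rw [mul_assoc]
      exact h7.trans (mul_le_mul_of_nonneg_left (h3 x hx y hy) K.2)
  obtain ⟨K, hK⟩ := h0.exists_lipschitzOnWith_of_compact isCompact_univ
  exact ⟨K, lipschitzOnWith_univ.mp hK⟩

variable [MeasurableSpace X] [BorelSpace X]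

/-- Maps that are near are close in the `L^p` distance of the derivatives. -/
lemma derivDist_le_of_near {vol : Measure X} {p : ℝ} (hp : 0 < p) {C Kι : ℝ≥0}
    (hC : ∀ (x : X) (u : X → F) (K : ℝ≥0), LipschitzWith K u → ‖dd E u x‖ ≤ C * K) {ι : X → F}
    (hι : LipschitzWith Kι ι) {ε : ℝ} {f g : X → X} (h : Near vol p ε f g) :
    derivDist E vol p (ι ∘ f) (ι ∘ g) ≤
      ((2 * C * Kι : ℝ≥0) ^ p * ENNReal.ofReal ε) ^ (1 / max p 1) := by
  obtain ⟨Z, K, hZ, hfg, hf, hg, hμ, -⟩ := h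
  unfold derivDist
  gcongr
  have h1 : ∀ x, ENNReal.ofReal ‖dd E (ι ∘ f) x - dd E (ι ∘ g) x‖ ^ p ≤
      Z.indicator (fun _ => ((2 * C * Kι : ℝ≥0) : ℝ≥0∞) ^ p * (K : ℝ≥0∞) ^ p) x := by
    intro x
    by_cases hx : x ∈ Z
    · rw [indicator_of_mem hx, ← ENNReal.mul_rpow_of_nonneg _ _ hp.le]
      gcongr
      have h2 := nd_le (E := E) (ι ∘ f) (ι ∘ g) x
      have h3 := hC x _ _ (hι.comp hf)
      have h4 := hC x _ _ (hι.comp hg)
      have h5 : ‖dd E (ι ∘ f) x - dd E (ι ∘ g) x‖ ≤ ((2 * C * Kι * K : ℝ≥0) : ℝ) := by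
        push_cast at h3 h4 ⊢
        linarith
      calc ENNReal.ofReal ‖dd E (ι ∘ f) x - dd E (ι ∘ g) x‖
          ≤ ENNReal.ofReal ((2 * C * Kι * K : ℝ≥0) : ℝ) := ENNReal.ofReal_le_ofReal h5
        _ = _ := by rw [ENNReal.ofReal_coe_nnreal, ENNReal.coe_mul]
    · rw [indicator_of_notMem hx]
      have h2 : dd E (ι ∘ f) x = dd E (ι ∘ g) x := by
        apply dd_congr
        filter_upwards [hZ.isOpen_compl.mem_nhds hx] with y hy
        simp only [Function.comp_apply]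
        rw [hfg y hy]
      rw [h2, nd_self, ENNReal.ofReal_zero, ENNReal.zero_rpow_of_pos hp]
  calc ∫⁻ x, ENNReal.ofReal ‖dd E (ι ∘ f) x - dd E (ι ∘ g) x‖ ^ p ∂vol
      ≤ ∫⁻ x, Z.indicator (fun _ => ((2 * C * Kι : ℝ≥0) : ℝ≥0∞) ^ p * (K : ℝ≥0∞) ^ p) x ∂vol :=
        lintegral_mono h1
    _ = ((2 * C * Kι : ℝ≥0) : ℝ≥0∞) ^ p * (K : ℝ≥0∞) ^ p * vol Z := by
        rw [lintegral_indicator_const hZ.measurableSet]
    _ = ((2 * C * Kι : ℝ≥0) : ℝ≥0∞) ^ p * (vol Z * (K : ℝ≥0∞) ^ p) := by ring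
    _ ≤ ((2 * C * Kι : ℝ≥0) : ℝ≥0∞) ^ p * ENNReal.ofReal ε := by gcongr

end Lip

section Main

variable [FiniteDimensional ℝ F] [IsManifold 𝓘(ℝ, E) ∞ X]
  [IsContMDiffRiemannianBundle 𝓘(ℝ, E) ∞ E
    (fun x : X => TangentSpace 𝓘(ℝ, E) x)]
  [IsRiemannianManifold 𝓘(ℝ, E) X]
  [MeasurableSpace X] [BorelSpace X] [CompactSpace X]
  {vol : Measure X} {ι : C(X, F)} {p : ℝ} [hp : Fact (0 < p)]

/-- Near maps are close in `LipVol`. -/
lemma exists_edist_lt_of_near (hι : ContMDiff 𝓘(ℝ, E) 𝓘(ℝ, F) 1 ι) {δ : ℝ≥0∞} (hδ : 0 < δ) :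
    ∃ ε : ℝ, 0 < ε ∧ ∀ f g : LipVol E vol ι p, Near vol p ε f.1 g.1 → edist f g < δ := by
  obtain ⟨Kι, hKι⟩ := exists_lipschitz_of_contMDiff hι
  obtain ⟨C, hC⟩ := exists_norm_dd_le E X
  have hp0 : 0 < p := hp.out
  have e1 : ∀ᶠ ε : ℝ in 𝓝[>] 0, ((2 * C * Kι : ℝ≥0) ^ p * ENNReal.ofReal ε) ^ (1 / max p 1) < δ := by
    have h1 : Tendsto (fun ε : ℝ => (((2 * C * Kι : ℝ≥0) : ℝ≥0∞) ^ p * ENNReal.ofReal ε))
        (𝓝[>] 0) (𝓝 (((2 * C * Kι : ℝ≥0) : ℝ≥0∞) ^ p * 0)) := by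
      apply ENNReal.Tendsto.const_mul
      · have h2 : Tendsto (fun ε : ℝ => ENNReal.ofReal ε) (𝓝[>] 0) (𝓝 (ENNReal.ofReal 0)) :=
          (ENNReal.continuous_ofReal.tendsto 0).mono_left nhdsWithin_le_nhds
        rwa [ENNReal.ofReal_zero] at h2
      · right
        exact ENNReal.rpow_ne_top_of_nonneg hp0.le ENNReal.coe_ne_top
    rw [mul_zero] at h1
    have h3 : Tendsto (fun ε : ℝ => (((2 * C * Kι : ℝ≥0) : ℝ≥0∞) ^ p *
        ENNReal.ofReal ε) ^ (1 / max p 1)) (𝓝[>] 0) (𝓝 ((0 : ℝ≥0∞) ^ (1 / max p 1))) :=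
      (ENNReal.continuous_rpow_const.tendsto 0).comp h1
    rw [ENNReal.zero_rpow_of_pos (by positivity)] at h3
    exact h3.eventually (gt_mem_nhds hδ)
  have e2 : ∀ᶠ ε : ℝ in 𝓝[>] 0, ENNReal.ofReal (Kι * ε) < δ := by
    have h2 : Tendsto (fun ε : ℝ => ENNReal.ofReal (Kι * ε)) (𝓝[>] 0)
        (𝓝 (ENNReal.ofReal (Kι * 0))) := by
      apply ENNReal.tendsto_ofReal
      exact ((tendsto_id (x := 𝓝 (0 : ℝ))).const_mul _).mono_left nhdsWithin_le_nhds
    rw [mul_zero, ENNReal.ofReal_zero] at h2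
    exact h2.eventually (gt_mem_nhds hδ)
  obtain ⟨ε, hε0, hε1, hε2⟩ := (eventually_mem_nhdsWithin.and (e1.and e2)).exists
  have hε0 : 0 < ε := hε0
  refine ⟨ε, hε0, ?_⟩
  intro f g hfg
  rw [LipVol.edist_def]
  apply max_lt
  · refine lt_of_le_of_lt ?_ hε2
    rw [edist_dist]
    apply ENNReal.ofReal_le_ofReal
    rw [ContinuousMap.dist_le (by positivity)]
    intro x
    obtain ⟨Z, K, -, -, -, -, -, h1⟩ := hfg
    simp only [LipVol.toC_apply]
    exact (hKι.dist_le_mul _ _).trans (mul_le_mul_of_nonneg_left (h1 x).le Kι.2)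
  · refine lt_of_le_of_lt ?_ hε1
    have h1 := derivDist_le_of_near (E := E) hp0 (fun x u K hu => hC x F u K hu) hKι hfg
    exact h1

omit [ChartedSpace E X]
  [RiemannianBundle (fun x : X => TangentSpace 𝓘(ℝ, E) x)] [FiniteDimensional ℝ F]
  [IsManifold 𝓘(ℝ, E) ∞ X] [IsContMDiffRiemannianBundle 𝓘(ℝ, E) ∞ E
    (fun x : X => TangentSpace 𝓘(ℝ, E) x)]
  [IsRiemannianManifold 𝓘(ℝ, E) X]
  [MeasurableSpace X] [BorelSpace X] in
/-- An injective continuous map on a compact space is a uniform embedding. -/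
lemma exists_dist_lt_of_injective (hι : Function.Injective ι) {η : ℝ} (hη : 0 < η) :
    ∃ δ > 0, ∀ a b : X, dist (ι a) (ι b) < δ → dist a b < η := by
  have hK : IsCompact {q : X × X | η ≤ dist q.1 q.2} := by
    apply IsClosed.isCompact
    exact isClosed_le continuous_const continuous_dist
  rcases eq_empty_or_nonempty {q : X × X | η ≤ dist q.1 q.2} with he | hne
  · refine ⟨1, one_pos, fun a b _ => ?_⟩
    by_contra hcon
    push Not at hcon
    have : (a, b) ∈ {q : X × X | η ≤ dist q.1 q.2} := hcon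
    rw [he] at this
    exact this
  · have hc : Continuous (fun q : X × X => dist (ι q.1) (ι q.2)) := by fun_prop
    obtain ⟨q, hq, hmin⟩ := hK.exists_isMinOn hne hc.continuousOn
    have hq' : η ≤ dist q.1 q.2 := hq
    refine ⟨dist (ι q.1) (ι q.2), ?_, ?_⟩
    · rw [gt_iff_lt, dist_pos]
      intro h
      have h1 := hι h
      rw [h1, dist_self] at hq'
      linarith
    · intro a b hab
      by_contra hcon
      push Not at hcon
      have h1 : dist (ι q.1) (ι q.2) ≤ dist (ι a) (ι b) := hmin (show (a, b) ∈ _ from hcon)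
      linarith

lemma continuous_pi1 [CompleteSpace F] :
    Continuous (pi1 : LipClosure E vol ι p → C(X, F)) :=
  UniformSpace.Completion.continuous_extension

lemma pi1_coe [CompleteSpace F] (f : LipVol E vol ι p) :
    pi1 ((f : LipVol E vol ι p) : LipClosure E vol ι p) = f.toC :=
  UniformSpace.Completion.extension_coe LipVol.uniformContinuous_toC f

/-- The set of elements of `M^p_λ(X)` of entropy at least `n`. -/
def bigEntropy (n : ℕ) : Set (SobHomeo E vol ι p) :=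
  {ξ | ∀ h : X ≃ₜ X, (∀ x, pi1 ξ.1 x = ι (h x)) → (n : EReal) ≤ Dynamics.coverEntropy h univ}

theorem dense_interior_bigEntropy [MeasurableSpace E] [BorelSpace E] [Nonempty X] (hd : 2 ≤ Module.finrank ℝ E) (hvol : IsRiemannianVolume E vol)
    (hι : ContMDiff 𝓘(ℝ, E) 𝓘(ℝ, F) 1 ι) (hinj : Function.Injective ι) (n : ℕ) :
    Dense (interior (bigEntropy n : Set (SobHomeo E vol ι p))) := by
  have hcomplete : CompleteSpace F := FiniteDimensional.complete ℝ F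
  have hlf : IsLocallyFiniteMeasure vol := hvol.isLocallyFinite
  have hfin : IsFiniteMeasure vol := ⟨isCompact_univ.measure_lt_top⟩
  obtain ⟨x0⟩ := ‹Nonempty X›
  obtain ⟨fc⟩ := exists_flatChart_of_volume (by omega) hvol x0
  rw [dense_iff_inter_open]
  rintro W hW ⟨ξ0, hξ0⟩
  obtain ⟨W', hW', rfl⟩ := isOpen_induced_iff.mp hW
  -- an element of `LipVol` in `W'`
  obtain ⟨f, hf⟩ : ∃ f : LipVol E vol ι p, (f : LipClosure E vol ι p) ∈ W' := by
    have h1 := UniformSpace.Completion.denseRange_coe (α := LipVol E vol ι p)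
    obtain ⟨_, h2, ⟨f, rfl⟩⟩ := h1.inter_open_nonempty W' hW' ⟨_, hξ0⟩
    exact ⟨f, h2⟩
  -- a radius
  obtain ⟨δ, hδ, hball⟩ : ∃ δ > 0, ∀ g : LipVol E vol ι p, edist g f < δ →
      (g : LipClosure E vol ι p) ∈ W' := by
    have h1 : (fun g : LipVol E vol ι p => (g : LipClosure E vol ι p)) ⁻¹' W' ∈ 𝓝 f :=
      (UniformSpace.Completion.continuous_coe _).continuousAt.preimage_mem_nhds (hW'.mem_nhds hf)
    obtain ⟨δ, hδ, h2⟩ := EMetric.mem_nhds_iff.mp h1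
    exact ⟨δ, hδ, fun g hg => h2 hg⟩
  obtain ⟨ε, hε, hnear⟩ := exists_edist_lt_of_near (E := E) (vol := vol) (p := p) hι
    (δ := δ / 2) (ENNReal.half_pos hδ.ne')
  obtain ⟨f1, f2, hl1, hm1, hl2, hm2, hn1, hn2, η, hη, hent⟩ := perturbation fc (by
    exact hd) f.1 f.2.1 f.2.2 (n : ℝ) hp.out hε
  set F1 : LipVol E vol ι p := ⟨f1, hl1, hm1⟩ with hF1
  set F2 : LipVol E vol ι p := ⟨f2, hl2, hm2⟩ with hF2
  have hd1 : edist F1 f < δ / 2 := hnear F1 f hn1
  have hd2 : edist F2 F1 < δ / 2 := hnear F2 F1 hn2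
  have hd3 : edist F2 f < δ := by
    calc edist F2 f ≤ edist F2 F1 + edist F1 f := edist_triangle _ _ _
      _ < δ / 2 + δ / 2 := ENNReal.add_lt_add hd2 hd1
      _ = δ := ENNReal.add_halves δ
  have hF2W := hball F2 hd3
  set ξ2 : SobHomeo E vol ι p := ⟨(F2 : LipClosure E vol ι p), f2, fun x => by
    rw [pi1_coe]; rfl⟩ with hξ2
  obtain ⟨δ', hδ', hinj'⟩ := exists_dist_lt_of_injective hinj hη
  refine ⟨ξ2, hF2W, ?_⟩
  rw [mem_interior]
  refine ⟨{ξ | dist (pi1 ξ.1) F2.toC < δ'}, ?_, ?_, ?_⟩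
  · rintro ξ hξ h hh
    have hξ' : dist (pi1 ξ.1) F2.toC < δ' := hξ
    have h1 : ∀ x, dist (h x) (f2 x) < η := by
      intro x
      apply hinj'
      rw [← hh x]
      have h9 : dist (pi1 ξ.1 x) (F2.toC x) ≤ dist (pi1 ξ.1) F2.toC :=
        ContinuousMap.dist_apply_le_dist x
      exact lt_of_le_of_lt h9 hξ'
    have h2 := hent h h.continuous h1
    simpa using h2
  · have h1 : Continuous (fun ξ : SobHomeo E vol ι p => dist (pi1 ξ.1) F2.toC) :=
      (continuous_pi1.comp continuous_subtype_val).dist continuous_const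
    exact h1.isOpen_preimage _ isOpen_Iio
  · have h1 : pi1 ξ2.1 = F2.toC := pi1_coe F2
    have h2 : dist (pi1 ξ2.1) F2.toC = 0 := by rw [h1, dist_self]
    have h3 : dist (pi1 ξ2.1) F2.toC < δ' := by rw [h2]; exact hδ'
    exact h3

/-- **Main theorem.** -/
theorem generic_infinite_entropy [MeasurableSpace E] [BorelSpace E] [Nonempty X] (hd : 2 ≤ Module.finrank ℝ E) (hvol : IsRiemannianVolume E vol)
    (hι : ContMDiff 𝓘(ℝ, E) 𝓘(ℝ, F) 1 ι) (hinj : Function.Injective ι) :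
    ∃ U : ℕ → Set (SobHomeo E vol ι p), (∀ n, IsOpen (U n)) ∧ (∀ n, Dense (U n)) ∧
      ∀ ξ ∈ ⋂ n, U n, ∀ h : X ≃ₜ X, (∀ x, pi1 ξ.1 x = ι (h x)) →
        Dynamics.coverEntropy h univ = ⊤ := by
  refine ⟨fun n => interior (bigEntropy n), fun n => isOpen_interior,
    fun n => dense_interior_bigEntropy hd hvol hι hinj n, ?_⟩
  intro ξ hξ h hh
  rw [mem_iInter] at hξ
  have h1 : ∀ n : ℕ, (n : EReal) ≤ Dynamics.coverEntropy h univ :=
    fun n => interior_subset (hξ n) h hh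
  rw [EReal.eq_top_iff_forall_lt]
  intro y
  obtain ⟨n, hn⟩ := exists_nat_gt y
  refine lt_of_lt_of_le ?_ (h1 n)
  exact_mod_cast hn

end Main

end Pool.Agent.Lib_helper19.Ent
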