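import Mathlib
import Pool.Agent.Lib_helper19.Ent.Vol

set_option autoImplicit false
set_option linter.unusedSectionVars false

/-!
# Existence and uniqueness of the Riemannian volume
-/

open Bundle Set MeasureTheory Filter Metric Manifold
open scoped Manifold ContDiff Topology ENNReal NNReal

namespace Pool.Agent.Lib_helper19.Ent

variable {E : Type*} [NormedAddCommGroup E] [InnerProductSpace ℝ E] [FiniteDimensional ℝ E]
  {X : Type*} [MetricSpace X] [ChartedSpace E X]
  [RiemannianBundle (fun x : X => TangentSpace 𝓘(ℝ, E) x)]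

/-- The inner product of `T_x X`, on the model space. -/
noncomputable def ipBil (x : X) :
    E →ₗ[ℝ] E →ₗ[ℝ] ℝ :=
  LinearMap.mk₂ ℝ (fun a b => @inner ℝ (TangentSpace 𝓘(ℝ, E) x) _ a b)
    (fun a b c => inner_add_left (E := TangentSpace 𝓘(ℝ, E) x) a b c)
    (fun r a b => real_inner_smul_left (F := TangentSpace 𝓘(ℝ, E) x) a b r)
    (fun a b c => inner_add_right (E := TangentSpace 𝓘(ℝ, E) x) a b c)
    (fun r a b => real_inner_smul_right (F := TangentSpace 𝓘(ℝ, E) x) a b r)

/-- The derivative of the inverse chart, as an endomorphism of the model space. -/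
noncomputable def Mc (x0 : X) (y : E) :
    E →L[ℝ] E :=
  mfderiv 𝓘(ℝ, E) 𝓘(ℝ, E) (extChartAt 𝓘(ℝ, E) x0).symm y

lemma det_coordGram_eq (x0 : X) (y : E) :
    (coordGram x0 y).det = (Mc x0 y).det ^ 2 *
      (LinearMap.toMatrix₂ (stdOrthonormalBasis ℝ E).toBasis
        (stdOrthonormalBasis ℝ E).toBasis
        (ipBil ((extChartAt 𝓘(ℝ, E) x0).symm y))).det := by
  set b := (stdOrthonormalBasis ℝ E).toBasis with hb
  have h1 : coordGram x0 y = LinearMap.toMatrix₂ b b
      ((ipBil ((extChartAt 𝓘(ℝ, E) x0).symm y)).compl₁₂ ((Mc x0 y) :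
        E →ₗ[ℝ] E) (Mc x0 y)) := by
    ext i j
    rw [LinearMap.toMatrix₂_apply]
    have hbi : ∀ i, b i = stdOrthonormalBasis ℝ E i := by
      intro i
      rw [hb, OrthonormalBasis.coe_toBasis]
    rw [hbi, hbi]
    rfl
  rw [h1, LinearMap.toMatrix₂_compl₁₂ b b, Matrix.det_mul, Matrix.det_mul, Matrix.det_transpose,
    LinearMap.det_toMatrix]
  unfold ContinuousLinearMap.det
  ring

section Change

variable [IsManifold 𝓘(ℝ, E) ∞ X]

/-- Change of charts. -/
lemma sqrt_det_coordGram_change (x0 x1 : X) {y : E}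
    (hy : y ∈ (extChartAt 𝓘(ℝ, E) x1).target)
    (hy2 : (extChartAt 𝓘(ℝ, E) x1).symm y ∈ (extChartAt 𝓘(ℝ, E) x0).source) :
    HasFDerivAt ((extChartAt 𝓘(ℝ, E) x0) ∘ (extChartAt 𝓘(ℝ, E) x1).symm)
      (fderiv ℝ ((extChartAt 𝓘(ℝ, E) x0) ∘ (extChartAt 𝓘(ℝ, E) x1).symm) y) y ∧
    Real.sqrt (coordGram x1 y).det =
      |(fderiv ℝ ((extChartAt 𝓘(ℝ, E) x0) ∘ (extChartAt 𝓘(ℝ, E) x1).symm) y).det| *
        Real.sqrt (coordGram x0 (((extChartAt 𝓘(ℝ, E) x0) ∘ (extChartAt 𝓘(ℝ, E) x1).symm) y)).det := by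
  set τ := (extChartAt 𝓘(ℝ, E) x0) ∘ (extChartAt 𝓘(ℝ, E) x1).symm with hτ
  have h1 : MDifferentiableAt 𝓘(ℝ, E) 𝓘(ℝ, E)
      (extChartAt 𝓘(ℝ, E) x1).symm y := by
    have := mdifferentiableWithinAt_extChartAt_symm (I := 𝓘(ℝ, E)) hy
    rwa [ModelWithCorners.range_eq_univ, mdifferentiableWithinAt_univ] at this
  have h2 : MDifferentiableAt 𝓘(ℝ, E) 𝓘(ℝ, E) (extChartAt 𝓘(ℝ, E) x0)
      ((extChartAt 𝓘(ℝ, E) x1).symm y) := by
    apply mdifferentiableAt_extChartAt
    rwa [extChartAt_source] at hy2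
  have h3 : MDifferentiableAt 𝓘(ℝ, E) 𝓘(ℝ, E) τ y :=
    h2.comp y h1
  have hτy : τ y ∈ (extChartAt 𝓘(ℝ, E) x0).target := (extChartAt 𝓘(ℝ, E) x0).map_source hy2
  have h4 : MDifferentiableAt 𝓘(ℝ, E) 𝓘(ℝ, E)
      (extChartAt 𝓘(ℝ, E) x0).symm (τ y) := by
    have := mdifferentiableWithinAt_extChartAt_symm (I := 𝓘(ℝ, E)) hτy
    rwa [ModelWithCorners.range_eq_univ, mdifferentiableWithinAt_univ] at this
  have h5 : (extChartAt 𝓘(ℝ, E) x1).symm =ᶠ[𝓝 y] (extChartAt 𝓘(ℝ, E) x0).symm ∘ τ := by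
    have h6 : (extChartAt 𝓘(ℝ, E) x1).symm ⁻¹' (extChartAt 𝓘(ℝ, E) x0).source ∈ 𝓝 y :=
      h1.continuousAt.preimage_mem_nhds ((isOpen_extChartAt_source x0).mem_nhds hy2)
    filter_upwards [h6] with z hz
    simp only [hτ, Function.comp_apply]
    rw [(extChartAt 𝓘(ℝ, E) x0).left_inv hz]
  have h7 : Mc x1 y = (Mc x0 (τ y)).comp (fderiv ℝ τ y) := by
    have h8 := h5.mfderiv_eq (I := 𝓘(ℝ, E)) (I' := 𝓘(ℝ, E))
    have h9 := mfderiv_comp y h4 h3
    rw [mfderiv_eq_fderiv] at h9
    exact h8.trans h9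
  have h8 : (extChartAt 𝓘(ℝ, E) x1).symm y = (extChartAt 𝓘(ℝ, E) x0).symm (τ y) := h5.self_of_nhds
  refine ⟨h3.differentiableAt.hasFDerivAt, ?_⟩
  rw [det_coordGram_eq x1 y, det_coordGram_eq x0 (τ y), h8, h7]
  have h9 : ((Mc x0 (τ y)).comp (fderiv ℝ τ y)).det = (Mc x0 (τ y)).det * (fderiv ℝ τ y).det := by
    unfold ContinuousLinearMap.det
    exact LinearMap.det_comp _ _
  rw [h9, ← Real.sqrt_sq_eq_abs, ← Real.sqrt_mul (sq_nonneg _)]
  congr 1
  ring

end Change

section Construct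

variable [IsManifold 𝓘(ℝ, E) ∞ X]
  [IsContMDiffRiemannianBundle 𝓘(ℝ, E) ∞ E
    (fun x : X => TangentSpace 𝓘(ℝ, E) x)]
  [MeasurableSpace E] [BorelSpace E] [MeasurableSpace X] [BorelSpace X]

open Classical in
/-- The inverse chart, extended by a constant. -/
noncomputable def exSymm (x0 : X) : E → X :=
  (extChartAt 𝓘(ℝ, E) x0).target.piecewise (extChartAt 𝓘(ℝ, E) x0).symm (fun _ => x0)

lemma measurable_exSymm (x0 : X) : Measurable (exSymm (E := E) x0) := by
  classical
  exact (continuousOn_extChartAt_symm x0).measurable_piecewise continuousOn_const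
    (isOpen_extChartAt_target x0).measurableSet

lemma exSymm_of_mem {x0 : X} {y : E}
    (hy : y ∈ (extChartAt 𝓘(ℝ, E) x0).target) : exSymm x0 y = (extChartAt 𝓘(ℝ, E) x0).symm y := by
  classical
  exact piecewise_eq_of_mem _ _ _ hy

lemma measurableSet_chart_image {x0 : X} {A : Set E}
    (hA : MeasurableSet A) (hAt : A ⊆ (extChartAt 𝓘(ℝ, E) x0).target) :
    MeasurableSet ((extChartAt 𝓘(ℝ, E) x0).symm '' A) := by
  classical
  have h1 : (extChartAt 𝓘(ℝ, E) x0).symm '' A = (extChartAt 𝓘(ℝ, E) x0).source ∩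
      ((extChartAt 𝓘(ℝ, E) x0).source.piecewise (extChartAt 𝓘(ℝ, E) x0) (fun _ => 0)) ⁻¹' A := by
    rw [(extChartAt 𝓘(ℝ, E) x0).symm_image_eq_source_inter_preimage hAt]
    ext x
    simp only [mem_inter_iff, mem_preimage, and_congr_right_iff]
    intro hx
    rw [piecewise_eq_of_mem _ _ _ hx]
  rw [h1]
  apply (isOpen_extChartAt_source x0).measurableSet.inter
  have h2 : Measurable ((extChartAt 𝓘(ℝ, E) x0).source.piecewise (extChartAt 𝓘(ℝ, E) x0)
      (fun _ => 0)) :=
    (continuousOn_extChartAt x0).measurable_piecewise continuousOn_const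
      (isOpen_extChartAt_source x0).measurableSet
  exact h2 hA

/-- The density in the chart at `x0`. -/
noncomputable def rhoE (x0 : X) (y : E) : ℝ≥0∞ :=
  ENNReal.ofReal (Real.sqrt (coordGram x0 y).det)

/-- Integrals of the density over subsets of two charts. -/
lemma lintegral_rhoE_change (x0 x1 : X) {C : Set E}
    (hC : MeasurableSet C) (hCt : C ⊆ (extChartAt 𝓘(ℝ, E) x1).target)
    (hCs : ∀ y ∈ C, (extChartAt 𝓘(ℝ, E) x1).symm y ∈ (extChartAt 𝓘(ℝ, E) x0).source) :
    ∫⁻ y in C, rhoE x1 y =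
      ∫⁻ z in ((extChartAt 𝓘(ℝ, E) x0) ∘ (extChartAt 𝓘(ℝ, E) x1).symm) '' C, rhoE x0 z := by
  set τ := (extChartAt 𝓘(ℝ, E) x0) ∘ (extChartAt 𝓘(ℝ, E) x1).symm with hτ
  have hinj : InjOn τ C := by
    intro y hy z hz hyz
    have h1 := (extChartAt 𝓘(ℝ, E) x0).injOn (hCs y hy) (hCs z hz) hyz
    exact (extChartAt 𝓘(ℝ, E) x1).symm.injOn (hCt hy) (hCt hz) h1
  rw [lintegral_image_eq_lintegral_abs_det_fderiv_mul volume hC
    (fun y hy => (sqrt_det_coordGram_change x0 x1 (hCt hy) (hCs y hy)).1.hasFDerivWithinAt) hinj]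
  apply setLIntegral_congr_fun hC
  intro y hy
  simp only
  unfold rhoE
  rw [(sqrt_det_coordGram_change x0 x1 (hCt hy) (hCs y hy)).2,
    ENNReal.ofReal_mul (abs_nonneg _)]

variable (E X) in
/-- **Existence of the Riemannian volume.** -/
theorem exists_isRiemannianVolume [SecondCountableTopology X] [Nonempty X] :
    ∃ vol : Measure X, IsRiemannianVolume E vol := by
  -- a sequence of charts covering the manifold
  obtain ⟨S, hS, hcov⟩ := TopologicalSpace.countable_cover_nhds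
    (fun x : X => (isOpen_extChartAt_source (I := 𝓘(ℝ, E)) x).mem_nhds (mem_extChartAt_source x))
  have hSne : S.Nonempty := by
    rw [nonempty_iff_ne_empty]
    rintro rfl
    simp only [mem_empty_iff_false, iUnion_of_empty, iUnion_empty] at hcov
    exact empty_ne_univ hcov
  obtain ⟨c, hc⟩ := hS.exists_eq_range hSne
  have hcov' : ⋃ n, (extChartAt 𝓘(ℝ, E) (c n)).source = univ := by
    rw [← hcov, hc, biUnion_range]
  set P : ℕ → Set X := disjointed (fun n => (extChartAt 𝓘(ℝ, E) (c n)).source) with hP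
  have hPm : ∀ n, MeasurableSet (P n) :=
    fun n => MeasurableSet.disjointed (fun n => (isOpen_extChartAt_source (c n)).measurableSet) n
  have hPd : Pairwise (Function.onFun Disjoint P) := disjoint_disjointed _
  have hPu : ⋃ n, P n = univ := by rw [hP, iUnion_disjointed, hcov']
  have hPs : ∀ n, P n ⊆ (extChartAt 𝓘(ℝ, E) (c n)).source := fun n => disjointed_subset _ n
  set T : ℕ → Set E := fun n =>
    (extChartAt 𝓘(ℝ, E) (c n)).target ∩ exSymm (c n) ⁻¹' P n with hT
  have hTm : ∀ n, MeasurableSet (T n) := fun n =>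
    (isOpen_extChartAt_target (c n)).measurableSet.inter (measurable_exSymm (c n) (hPm n))
  have hrm : ∀ n, Measurable ((T n).indicator (rhoE (c n))) := by
    classical
    intro n
    have h1 : ContinuousOn (rhoE (c n)) (extChartAt 𝓘(ℝ, E) (c n)).target :=
      ENNReal.continuous_ofReal.comp_continuousOn (contDiffOn_density (c n)).continuousOn
    have h2 : Measurable ((extChartAt 𝓘(ℝ, E) (c n)).target.piecewise (rhoE (c n)) (fun _ => 0)) :=
      h1.measurable_piecewise continuousOn_const (isOpen_extChartAt_target (c n)).measurableSet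
    have h3 : (T n).indicator (rhoE (c n)) = (T n).indicator
        ((extChartAt 𝓘(ℝ, E) (c n)).target.piecewise (rhoE (c n)) (fun _ => 0)) := by
      ext y
      by_cases hy : y ∈ T n
      · rw [indicator_of_mem hy, indicator_of_mem hy, piecewise_eq_of_mem _ _ _ hy.1]
      · rw [indicator_of_notMem hy, indicator_of_notMem hy]
    rw [h3]
    exact h2.indicator (hTm n)
  refine ⟨Measure.sum fun n => Measure.map (exSymm (c n))
    (volume.withDensity ((T n).indicator (rhoE (c n)))), ?_⟩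
  intro x0 A hA hAt
  have hBm := measurableSet_chart_image hA hAt
  set B : Set X := (extChartAt 𝓘(ℝ, E) x0).symm '' A with hB
  have hBs : B ⊆ (extChartAt 𝓘(ℝ, E) x0).source := by
    rintro _ ⟨y, hy, rfl⟩
    exact (extChartAt 𝓘(ℝ, E) x0).map_target (hAt hy)
  rw [Measure.sum_apply _ hBm]
  -- the pieces of `A`
  set A' : ℕ → Set E := fun n => A ∩ exSymm x0 ⁻¹' P n with hA'
  have hA'm : ∀ n, MeasurableSet (A' n) := fun n => hA.inter (measurable_exSymm x0 (hPm n))
  have hA'd : Pairwise (Function.onFun Disjoint A') := by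
    intro i j hij
    have h1 := hPd hij
    simp only [Function.onFun] at h1 ⊢
    rw [Set.disjoint_left] at h1 ⊢
    rintro y ⟨-, hy⟩ ⟨-, hy'⟩
    exact h1 hy hy'
  have hA'u : ⋃ n, A' n = A := by
    rw [hA', ← inter_iUnion, ← preimage_iUnion, hPu, preimage_univ, inter_univ]
  have hpiece : ∀ n, Measure.map (exSymm (c n))
      (volume.withDensity ((T n).indicator (rhoE (c n)))) B = ∫⁻ y in A' n, rhoE x0 y := by
    intro n
    have hpm : MeasurableSet (exSymm (E := E) (c n) ⁻¹' B) := measurable_exSymm (c n) hBm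
    rw [Measure.map_apply (measurable_exSymm (c n)) hBm, withDensity_apply _ hpm,
      setLIntegral_indicator (hTm n)]
    rw [lintegral_rhoE_change x0 (c n) ((hTm n).inter hpm) (fun y hy => hy.1.1)]
    · congr 2
      ext z
      constructor
      · rintro ⟨y, ⟨⟨hy1, hy2⟩, hy3⟩, rfl⟩
        rw [mem_preimage, exSymm_of_mem hy1] at hy2 hy3
        obtain ⟨w, hw, hw2⟩ := hy3
        simp only [Function.comp_apply]
        rw [← hw2, (extChartAt 𝓘(ℝ, E) x0).right_inv (hAt hw)]
        refine ⟨hw, ?_⟩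
        rw [mem_preimage, exSymm_of_mem (hAt hw), hw2]
        exact hy2
      · rintro ⟨hz1, hz2⟩
        rw [mem_preimage, exSymm_of_mem (hAt hz1)] at hz2
        have h1 := hPs n hz2
        refine ⟨extChartAt 𝓘(ℝ, E) (c n) ((extChartAt 𝓘(ℝ, E) x0).symm z), ⟨⟨?_, ?_⟩, ?_⟩, ?_⟩
        · exact (extChartAt 𝓘(ℝ, E) (c n)).map_source h1
        · rw [mem_preimage, exSymm_of_mem ((extChartAt 𝓘(ℝ, E) (c n)).map_source h1),
            (extChartAt 𝓘(ℝ, E) (c n)).left_inv h1]
          exact hz2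
        · rw [mem_preimage, exSymm_of_mem ((extChartAt 𝓘(ℝ, E) (c n)).map_source h1),
            (extChartAt 𝓘(ℝ, E) (c n)).left_inv h1]
          exact mem_image_of_mem _ hz1
        · simp only [Function.comp_apply]
          rw [(extChartAt 𝓘(ℝ, E) (c n)).left_inv h1, (extChartAt 𝓘(ℝ, E) x0).right_inv (hAt hz1)]
    · rintro y ⟨⟨hy1, hy2⟩, hy3⟩
      rw [mem_preimage, exSymm_of_mem hy1] at hy3
      exact hBs hy3
  simp_rw [hpiece]
  rw [← lintegral_iUnion hA'm hA'd, hA'u]
  rfl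

variable (E X) in
/-- The Riemannian volume of `X`: the unique measure with density `√(det g_ij)` in every chart. -/
noncomputable def riemannianVolume [SecondCountableTopology X] [Nonempty X] : Measure X :=
  (exists_isRiemannianVolume E X).choose

variable (E X) in
lemma isRiemannianVolume_riemannianVolume [SecondCountableTopology X] [Nonempty X] :
    IsRiemannianVolume E (riemannianVolume E X) :=
  (exists_isRiemannianVolume E X).choose_spec

/-- **Uniqueness of the Riemannian volume.** -/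
theorem IsRiemannianVolume.unique [SecondCountableTopology X] {vol vol' : Measure X}
    (h : IsRiemannianVolume E vol) (h' : IsRiemannianVolume E vol') : vol = vol' := by
  classical
  rcases isEmpty_or_nonempty X with hX | hX
  · exact Subsingleton.elim _ _
  obtain ⟨S, hS, hcov⟩ := TopologicalSpace.countable_cover_nhds
    (fun x : X => (isOpen_extChartAt_source (I := 𝓘(ℝ, E)) x).mem_nhds (mem_extChartAt_source x))
  apply Measure.ext_of_biUnion_eq_univ hS hcov
  intro x0 hx0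
  ext B hB
  rw [Measure.restrict_apply hB, Measure.restrict_apply hB]
  set A : Set E := (extChartAt 𝓘(ℝ, E) x0).target ∩ exSymm x0 ⁻¹' B with hA
  have hAm : MeasurableSet A :=
    (isOpen_extChartAt_target x0).measurableSet.inter (measurable_exSymm x0 hB)
  have h1 : B ∩ (extChartAt 𝓘(ℝ, E) x0).source = (extChartAt 𝓘(ℝ, E) x0).symm '' A := by
    ext x
    constructor
    · rintro ⟨hx, hxs⟩
      refine ⟨extChartAt 𝓘(ℝ, E) x0 x, ⟨(extChartAt 𝓘(ℝ, E) x0).map_source hxs, ?_⟩,
        (extChartAt 𝓘(ℝ, E) x0).left_inv hxs⟩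
      rw [mem_preimage, exSymm_of_mem ((extChartAt 𝓘(ℝ, E) x0).map_source hxs),
        (extChartAt 𝓘(ℝ, E) x0).left_inv hxs]
      exact hx
    · rintro ⟨y, ⟨hy1, hy2⟩, rfl⟩
      rw [mem_preimage, exSymm_of_mem hy1] at hy2
      exact ⟨hy2, (extChartAt 𝓘(ℝ, E) x0).map_target hy1⟩
  rw [h1, h x0 A hAm inter_subset_left, h' x0 A hAm inter_subset_left]

end Construct

end Pool.Agent.Lib_helper19.Ent
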